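import Pool.Agent.TeleNeg.PathMain

/-!
# Reachability in the layered digraph needs many NOT gates: the final form
-/

namespace Pool.Agent.TeleNeg

open Finset

section card

variable (r L M : ℕ)

/-- Arcs as tuples. -/
def arcEquiv : Arc r L M ≃ (Fin r × Fin M) ⊕ ((Fin r × Fin L × Fin M × Fin M) ⊕ (Fin r × Fin M)) where
  toFun := fun e => match e with
    | .first k b => Sum.inl (k, b)
    | .mid k i a b => Sum.inr (Sum.inl (k, i, a, b))
    | .last k a => Sum.inr (Sum.inr (k, a))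
  invFun := fun e => match e with
    | Sum.inl (k, b) => .first k b
    | Sum.inr (Sum.inl (k, i, a, b)) => .mid k i a b
    | Sum.inr (Sum.inr (k, a)) => .last k a
  left_inv := by intro e; cases e <;> rfl
  right_inv := by
    intro e
    rcases e with ⟨k, b⟩ | ⟨k, i, a, b⟩ | ⟨k, a⟩ <;> rfl

lemma card_arc : Nat.card (Arc r L M) = r * (2 * M + L * M ^ 2) := by
  rw [Nat.card_congr (arcEquiv r L M)]
  simp only [Nat.card_eq_fintype_card, Fintype.card_sum, Fintype.card_prod, Fintype.card_fin]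
  ring

end card

/-- At most `r * 2 ^ (11 p)` arcs. -/
lemma card_arc_le (r p : ℕ) (hp : 1 ≤ p) :
    Nat.card (Arc r (2 ^ p - 1) (2 ^ (5 * p))) ≤ r * 2 ^ (11 * p) := by
  rw [card_arc]
  apply Nat.mul_le_mul_left
  have h1 : 2 ^ (11 * p) = 2 ^ p * (2 ^ (5 * p)) ^ 2 := by
    rw [← pow_mul, ← pow_add]; congr 1; ring
  have h2 : 2 ≤ 2 ^ (5 * p) := by
    calc 2 = 2 ^ 1 := by norm_num
      _ ≤ 2 ^ (5 * p) := Nat.pow_le_pow_right (by norm_num) (by omega)
  have h3 : 1 ≤ 2 ^ p := Nat.one_le_two_pow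
  obtain ⟨a, ha⟩ : ∃ a, 2 ^ p = a + 1 := ⟨2 ^ p - 1, by omega⟩
  rw [h1, ha]
  set M := 2 ^ (5 * p)
  simp only [Nat.add_sub_cancel]
  nlinarith [Nat.mul_le_mul_right M h2]

lemma bound_aux (p : ℕ) (hp : 4 ≤ p) : 162 * (2 * p ^ 2) ≤ 2 ^ (4 * p) := by
  induction p, hp using Nat.le_induction with
  | base => norm_num
  | succ p hp ih =>
    have : 2 ^ (4 * (p + 1)) = 16 * 2 ^ (4 * p) := by rw [mul_add, pow_add]; ring
    rw [this]
    nlinarith

/-- **Few NOT gates, directed connectivity.** -/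
theorem path_final (r p S T : ℕ) (D : Device (Arc r (2 ^ p - 1) (2 ^ (5 * p))) S T)
    (h : (Fin T → Bool) → Bool)
    (hD : ∀ x : Arc r (2 ^ p - 1) (2 ^ (5 * p)) → Bool, h (D.val x) = true ↔ Reach x)
    (ht : 3 * ((T + 1) * D.weight) ≤ r) : 2 ^ (2 * p ^ 2) ≤ 2 ^ (4 * p + 6) * (r * S) := by
  by_contra hcon
  push Not at hcon
  have hw1 : 1 ≤ D.weight := levProd_pos D.levels
  have hr : 0 < r := by
    have : 0 < 3 * ((T + 1) * D.weight) := by positivity
    omega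
  -- `S` is positive
  have hS : 0 < S := by
    by_contra h0
    have : S = 0 := by omega
    subst this
    have hT : ∀ x x' : Arc r (2 ^ p - 1) (2 ^ (5 * p)) → Bool, D.val x = D.val x' := by
      intro x x'
      funext i
      exact (IsEmpty.false (D.outs i).src).elim
    have h1 : ¬ Reach (inp (∅ : Set (Arc r (2 ^ p - 1) (2 ^ (5 * p))))) :=
      not_reach_of_cuts ∅ (fun _ => ∅) (fun e he => absurd he (Set.notMem_empty _))
    have h2 : Reach (inp (Set.univ : Set (Arc r (2 ^ p - 1) (2 ^ (5 * p))))) :=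
      reach_of_path Set.univ 0 hr (fun _ => ⟨0, by positivity⟩) (Set.subset_univ _)
    rw [← hD] at h1 h2
    rw [hT (inp Set.univ) (inp ∅)] at h2
    exact h1 h2
  have hrS : 0 < r * S := Nat.mul_pos hr hS
  -- `r < 2 ^ (2 p ^ 2 - 4 p - 6)`
  have h1 : 4 * p + 6 < 2 * p ^ 2 := by
    have h2 : 2 ^ (4 * p + 6) < 2 ^ (2 * p ^ 2) := by
      calc 2 ^ (4 * p + 6) = 2 ^ (4 * p + 6) * 1 := by ring
        _ ≤ 2 ^ (4 * p + 6) * (r * S) := Nat.mul_le_mul_left _ hrS
        _ < _ := hcon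
    exact (Nat.pow_lt_pow_iff_right (by norm_num)).mp h2
  have hp4 : 4 ≤ p := by
    by_contra h0
    have : p = 0 ∨ p = 1 ∨ p = 2 ∨ p = 3 := by omega
    rcases this with rfl | rfl | rfl | rfl <;> omega
  obtain ⟨q, hq⟩ : ∃ q, 2 * p ^ 2 = (4 * p + 6) + q := ⟨2 * p ^ 2 - (4 * p + 6), by omega⟩
  have h3 : r * S < 2 ^ q := by
    have hcon' : 2 ^ (4 * p + 6) * (r * S) < 2 ^ (4 * p + 6) * 2 ^ q := by
      rw [← pow_add, ← hq]; exact hcon
    exact lt_of_mul_lt_mul_left hcon' (Nat.zero_le _)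
  have h4 : r < 2 ^ q := lt_of_le_of_lt (Nat.le_mul_of_pos_right r hS) h3
  have h5 : r < 3 * ((T + 1) * D.weight) := by
    refine path_master r (2 ^ p - 1) (2 ^ (5 * p)) S T p (q + 1) ?_ (by omega) ?_ (by omega) ?_ hS
      D h hD ?_
    · have : 1 ≤ 2 ^ p := Nat.one_le_two_pow
      omega
    · rw [pow_succ]; omega
    · have h6 := bound_aux p hp4
      have h7 : 2 ^ p - 1 + 1 = 2 ^ p := by
        have : 1 ≤ 2 ^ p := Nat.one_le_two_pow
        omega
      rw [h7]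
      have h8 : 2 ^ (5 * p) = 2 ^ (4 * p) * 2 ^ p := by rw [← pow_add]; congr 1; ring
      rw [h8]
      apply Nat.mul_le_mul_right
      have h9 : 2 * (q + 1) - 1 ≤ 2 * (2 * p ^ 2) := by omega
      calc 81 * (2 * (q + 1) - 1) ≤ 81 * (2 * (2 * p ^ 2)) := Nat.mul_le_mul_left _ h9
        _ = 162 * (2 * p ^ 2) := by ring
        _ ≤ _ := h6
    · have h7 : 2 ^ p - 1 + 1 = 2 ^ p := by
        have : 1 ≤ 2 ^ p := Nat.one_le_two_pow
        omega
      rw [h7]
      have h8 : (2 ^ (5 * p)) ^ (p - 1) = 2 ^ (4 * p * (p - 1)) * (2 ^ p) ^ (p - 1) := by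
        rw [← pow_mul, ← pow_mul, ← pow_add]; congr 1; ring
      rw [h8]
      apply Nat.mul_le_mul_right
      have h9 : 9 ^ p ≤ 2 ^ (4 * p) := by
        rw [pow_mul]; exact Nat.pow_le_pow_left (by norm_num) p
      have h10 : (r * S) ^ 2 ≤ 2 ^ (2 * q) := by
        calc (r * S) ^ 2 ≤ (2 ^ q) ^ 2 := Nat.pow_le_pow_left h3.le 2
          _ = _ := by rw [← pow_mul]; congr 1; ring
      calc 1728 * 9 ^ p * (r * S) ^ 2 ≤ 2 ^ 12 * 2 ^ (4 * p) * 2 ^ (2 * q) := by
            gcongr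
            norm_num
        _ = 2 ^ (12 + 4 * p + 2 * q) := by rw [← pow_add, ← pow_add]
        _ ≤ 2 ^ (4 * p * (p - 1)) := by
          apply Nat.pow_le_pow_right (by norm_num)
          obtain ⟨a, rfl⟩ : ∃ a, p = a + 1 := ⟨p - 1, by omega⟩
          simp only [Nat.add_sub_cancel]
          have : 2 * (2 * (a + 1) ^ 2) = 2 * (4 * (a + 1) + 6 + q) := by rw [hq]
          nlinarith
  omega

end Pool.Agent.TeleNeg
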