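import Pool.Agent.TeleNeg.NetDefs

/-!
# Directed (nondeterministic) monotone networks and layered path systems: definitions
-/

namespace Pool.Agent.TeleNeg

/-- A contact from `a` to `b` which is closed on the input `x` (now contacts are directed). -/
def Net.Step {ι : Type} {S : ℕ} (N : Net ι S) (x : ι → Bool) (a b : Fin S) : Prop :=
  ∃ l : Option ι, (a, b, l) ∈ N.contacts ∧ ∀ e ∈ l, x e = true

/-- Acceptance of a directed network: the target can be reached from the source by closed contacts
used in their direction. -/
def Net.DAccepts {ι : Type} {S : ℕ} (N : Net ι S) (x : ι → Bool) : Prop :=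
  Relation.ReflTransGen (N.Step x) N.src N.tgt

open Classical in
/-- The Boolean function computed by a directed network. -/
noncomputable def Net.dval {ι : Type} {S : ℕ} (N : Net ι S) (x : ι → Bool) : Bool :=
  decide (N.DAccepts x)

/-- The outputs of levels of NOT gates fed by directed monotone networks which read variables
and outputs of gates of earlier levels. -/
noncomputable def dnotVals {ι : Type} {S : ℕ} (x : ι → Bool) :
    List (List (Net (ι ⊕ ℕ) S)) → List Bool → List Bool
  | [], v => v
  | l :: ls, v => dnotVals x ls (v ++ l.map fun N => !N.dval (labels x v))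

/-- The `T` output bits of a device whose networks are used as directed networks. -/
noncomputable def Device.dval {ι : Type} {S T : ℕ} (D : Device ι S T) (x : ι → Bool)
    (i : Fin T) : Bool :=
  (D.outs i).dval (labels x (dnotVals x D.levels []))

/-- Atoms of the layered path system: in each of `r` blocks, `M` atoms at every point of the grid
`{0, ..., H} × {0, ..., H}`. -/
structure Atom (r H M : ℕ) : Type where
  k : Fin r
  a : Fin (H + 1)
  b : Fin (H + 1)
  c : Fin M

/-- Rules of the layered path system (the variables). The rules `top` and `side` have no premise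
and derive the atoms with `a = H` or `b = H`; the rule `inner k a b c c₁ c₂` derives the atom
`c` at `(a, b)` from the atoms `c₁` at `(a + 1, b)` and `c₂` at `(a, b + 1)`; the rule `goal k c`
derives the goal from the atom `c` at `(0, 0)`. -/
inductive Rule (r H M : ℕ) : Type
  | top (k : Fin r) (b : Fin (H + 1)) (c : Fin M) : Rule r H M
  | side (k : Fin r) (a : Fin (H + 1)) (c : Fin M) : Rule r H M
  | inner (k : Fin r) (a b : Fin H) (c c₁ c₂ : Fin M) : Rule r H M
  | goal (k : Fin r) (c : Fin M) : Rule r H M

/-- Atoms derivable by the rules `e` with `x e = true`. -/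
inductive Derivable {r H M : ℕ} (x : Rule r H M → Bool) : Atom r H M → Prop
  | top (k : Fin r) (b : Fin (H + 1)) (c : Fin M) (h : x (.top k b c) = true) :
      Derivable x ⟨k, Fin.last H, b, c⟩
  | side (k : Fin r) (a : Fin (H + 1)) (c : Fin M) (h : x (.side k a c) = true) :
      Derivable x ⟨k, a, Fin.last H, c⟩
  | inner (k : Fin r) (a b : Fin H) (c c₁ c₂ : Fin M) (h : x (.inner k a b c c₁ c₂) = true)
      (h₁ : Derivable x ⟨k, a.succ, b.castSucc, c₁⟩)
      (h₂ : Derivable x ⟨k, a.castSucc, b.succ, c₂⟩) :
      Derivable x ⟨k, a.castSucc, b.castSucc, c⟩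

/-- The goal is derivable by the rules `e` with `x e = true`. -/
def Solvable {r H M : ℕ} (x : Rule r H M → Bool) : Prop :=
  ∃ (k : Fin r) (c : Fin M), x (.goal k c) = true ∧ Derivable x ⟨k, 0, 0, c⟩

end Pool.Agent.TeleNeg
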