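import Mathlib

/-!
# Monotone switching networks, networks with NOT gates, and reachability in a layered digraph:
definitions
-/

namespace Pool.Agent.TeleNeg

/-- A monotone switching network with `S` nodes over the variables `ι`: a set of undirected
contacts between nodes, each labelled by a variable or by `none` (always closed), a source and a
target. -/
structure Net (ι : Type) (S : ℕ) where
  contacts : Set (Fin S × Fin S × Option ι)
  src : Fin S
  tgt : Fin S

/-- On the input `x` the nodes `a` and `b` are joined by a closed contact. -/
def Net.Linked {ι : Type} {S : ℕ} (N : Net ι S) (x : ι → Bool) (a b : Fin S) : Prop :=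
  ∃ l : Option ι, ((a, b, l) ∈ N.contacts ∨ (b, a, l) ∈ N.contacts) ∧ ∀ e ∈ l, x e = true

/-- The network accepts `x`: its source and its target are connected by closed contacts. -/
def Net.Accepts {ι : Type} {S : ℕ} (N : Net ι S) (x : ι → Bool) : Prop :=
  Relation.ReflTransGen (N.Linked x) N.src N.tgt

open Classical in
/-- The Boolean function computed by a network. -/
noncomputable def Net.val {ι : Type} {S : ℕ} (N : Net ι S) (x : ι → Bool) : Bool :=
  decide (N.Accepts x)

/-- The labels seen by a network which may read the variables `ι` and the outputs, listed in `v`,
of NOT gates evaluated before (an output which is not in the list counts as `false`). -/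
def labels {ι : Type} (x : ι → Bool) (v : List Bool) : ι ⊕ ℕ → Bool :=
  Sum.elim x fun i => v.getD i false

/-- The outputs of levels of NOT gates: the input of each gate is computed by a monotone switching
network whose contacts are labelled by variables and by outputs of gates of earlier levels (the
gates are numbered consecutively, level by level). -/
noncomputable def notVals {ι : Type} {S : ℕ} (x : ι → Bool) :
    List (List (Net (ι ⊕ ℕ) S)) → List Bool → List Bool
  | [], v => v
  | l :: ls, v => notVals x ls (v ++ l.map fun N => !N.val (labels x v))

/-- A device with NOT gates: `levels` lists, level by level, the networks feeding the NOT gates,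
and `outs` are `T` networks which read the variables and the outputs of all NOT gates. -/
structure Device (ι : Type) (S T : ℕ) where
  levels : List (List (Net (ι ⊕ ℕ) S))
  outs : Fin T → Net (ι ⊕ ℕ) S

/-- The product over the levels of the number of NOT gates of the level plus one. It is `2 ^ t` if
there are `t` levels of one gate, and at most `2 ^ t` if there are `t` gates altogether. -/
def Device.weight {ι : Type} {S T : ℕ} (D : Device ι S T) : ℕ :=
  (D.levels.map fun l => l.length + 1).prod

/-- The `T` output bits on the input `x`. -/
noncomputable def Device.val {ι : Type} {S T : ℕ} (D : Device ι S T) (x : ι → Bool)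
    (i : Fin T) : Bool :=
  (D.outs i).val (labels x (notVals x D.levels []))

/-- Vertices of the layered digraph: `s`, `t` and `M` vertices in each of the layers `0, ..., L`
of each of `r` blocks. -/
inductive Vtx (r L M : ℕ) : Type
  | s : Vtx r L M
  | t : Vtx r L M
  | node (k : Fin r) (i : Fin (L + 1)) (a : Fin M) : Vtx r L M

/-- Arcs of the layered digraph: from `s` to the first layers, between consecutive layers of a
block, and from the last layers to `t`. -/
inductive Arc (r L M : ℕ) : Type
  | first (k : Fin r) (b : Fin M) : Arc r L M
  | mid (k : Fin r) (i : Fin L) (a b : Fin M) : Arc r L M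
  | last (k : Fin r) (a : Fin M) : Arc r L M

/-- The tail of an arc. -/
def Arc.tail {r L M : ℕ} : Arc r L M → Vtx r L M
  | .first _ _ => .s
  | .mid k i a _ => .node k i.castSucc a
  | .last k a => .node k (Fin.last L) a

/-- The head of an arc. -/
def Arc.head {r L M : ℕ} : Arc r L M → Vtx r L M
  | .first k b => .node k 0 b
  | .mid k i _ b => .node k i.succ b
  | .last _ _ => .t

/-- In the digraph formed by the arcs `e` with `x e = true`, the vertex `t` can be reached
from `s`. -/
def Reach {r L M : ℕ} (x : Arc r L M → Bool) : Prop :=
  Relation.ReflTransGen (fun u v => ∃ e : Arc r L M, x e = true ∧ e.tail = u ∧ e.head = v)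
    Vtx.s Vtx.t

end Pool.Agent.TeleNeg
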