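import Pool.Agent.TeleNeg.Cube

/-!
# Bonami's inequality (from the 2-norm to the 2s-norm) and its dual form
-/

namespace Pool.Agent.TeleNeg

open Finset
open scoped BigOperators

set_option linter.unusedSectionVars false

lemma choose_two_mul_le (s j : ℕ) (hs : 1 ≤ s) :
    (2 * s).choose (2 * j) ≤ s.choose j * (2 * s - 1) ^ j := by
  induction j with
  | zero => simp
  | succ j ih =>
    by_cases hj : s ≤ j
    · rw [Nat.choose_eq_zero_of_lt (by omega)]
      exact Nat.zero_le _
    · push Not at hj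
      have h1 := Nat.choose_succ_right_eq (2 * s) (2 * j)
      have h2 := Nat.choose_succ_right_eq (2 * s) (2 * j + 1)
      have h3 := Nat.choose_succ_right_eq s j
      have e1 : 2 * j + 1 + 1 = 2 * (j + 1) := by ring
      rw [e1] at h2
      obtain ⟨a, ha⟩ : ∃ a, s = j + 1 + a := ⟨s - j - 1, by omega⟩
      subst ha
      have e2 : 2 * (j + 1 + a) - 2 * j = 2 * (a + 1) := by omega
      have e3 : 2 * (j + 1 + a) - (2 * j + 1) = 2 * a + 1 := by omega
      have e4 : j + 1 + a - j = a + 1 := by omega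
      have e5 : 2 * (j + 1 + a) - 1 = 2 * j + 2 * a + 1 := by omega
      rw [e2] at h1
      rw [e3] at h2
      rw [e4] at h3
      rw [e5] at ih ⊢
      set X := (2 * (j + 1 + a)).choose (2 * j)
      set Y := (2 * (j + 1 + a)).choose (2 * j + 1)
      set Z := (2 * (j + 1 + a)).choose (2 * (j + 1))
      set P := (j + 1 + a).choose j
      set R := (j + 1 + a).choose (j + 1)
      set K := 2 * j + 2 * a + 1
      -- `Z (2j+2)(2j+1) = X * 2(a+1)(2a+1)`, `R (j+1) = P (a+1)`
      have h4 : Z * ((j + 1) * (2 * j + 1)) = X * ((a + 1) * (2 * a + 1)) := by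
        have : 2 * (Z * ((j + 1) * (2 * j + 1))) = 2 * (X * ((a + 1) * (2 * a + 1))) := by
          calc 2 * (Z * ((j + 1) * (2 * j + 1))) = (Z * (2 * (j + 1))) * (2 * j + 1) := by ring
            _ = (Y * (2 * j + 1)) * (2 * a + 1) := by rw [h2]; ring
            _ = 2 * (X * ((a + 1) * (2 * a + 1))) := by rw [h1]; ring
        omega
      have h5 : X * ((a + 1) * (2 * a + 1)) ≤ P * K ^ j * ((a + 1) * (2 * a + 1)) :=
        Nat.mul_le_mul_right _ ih
      have h6 : P * K ^ j * ((a + 1) * (2 * a + 1)) = R * K ^ j * ((j + 1) * (2 * a + 1)) := by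
        calc P * K ^ j * ((a + 1) * (2 * a + 1)) = (P * (a + 1)) * K ^ j * (2 * a + 1) := by ring
          _ = _ := by rw [← h3]; ring
      have h7 : 2 * a + 1 ≤ K * (2 * j + 1) := by
        have : 2 * a + 1 ≤ K := by omega
        nlinarith
      have h8 : R * K ^ j * ((j + 1) * (2 * a + 1))
          ≤ R * K ^ (j + 1) * ((j + 1) * (2 * j + 1)) := by
        calc R * K ^ j * ((j + 1) * (2 * a + 1)) ≤ R * K ^ j * ((j + 1) * (K * (2 * j + 1))) :=
              Nat.mul_le_mul_left _ (Nat.mul_le_mul_left _ h7)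
          _ = _ := by ring
      have h9 : Z * ((j + 1) * (2 * j + 1)) ≤ R * K ^ (j + 1) * ((j + 1) * (2 * j + 1)) := by
        rw [h4]; exact (h5.trans h6.le).trans h8
      exact Nat.le_of_mul_le_mul_right h9 (by positivity)

lemma sum_even (n : ℕ) (g : ℕ → ℝ) :
    ∑ i ∈ range (2 * n + 1), g i * (1 + (-1) ^ i) = ∑ j ∈ range (n + 1), 2 * g (2 * j) := by
  induction n with
  | zero => simp; ring
  | succ n ih =>
    have e : 2 * (n + 1) + 1 = (2 * n + 1) + 1 + 1 := by ring
    rw [e, sum_range_succ, sum_range_succ, ih, sum_range_succ (n := n + 1)]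
    have h1 : (-1 : ℝ) ^ (2 * n + 1) = -1 := by rw [pow_succ, pow_mul]; norm_num
    have h2 : (-1 : ℝ) ^ (2 * n + 1 + 1) = 1 := by rw [pow_succ, h1]; norm_num
    rw [h1, h2]
    have e2 : 2 * (n + 1) = 2 * n + 1 + 1 := by ring
    rw [e2]; ring

/-- The two point inequality. -/
lemma two_point (s : ℕ) (hs : 1 ≤ s) (x y : ℝ) :
    (x - y) ^ (2 * s) + (x + y) ^ (2 * s) ≤ 2 * (x ^ 2 + (2 * s - 1 : ℕ) * y ^ 2) ^ s := by
  have h1 : (x - y) ^ (2 * s) + (x + y) ^ (2 * s)
      = ∑ i ∈ range (2 * s + 1), (y ^ i * x ^ (2 * s - i) * (2 * s).choose i) * (1 + (-1) ^ i) := by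
    have e1 : x - y = -y + x := by ring
    have e2 : x + y = y + x := by ring
    rw [e1, e2, add_pow, add_pow, ← Finset.sum_add_distrib]
    refine Finset.sum_congr rfl fun i _ => ?_
    rw [neg_pow]; ring
  rw [h1, sum_even, add_comm (x ^ 2), add_pow, Finset.mul_sum]
  refine Finset.sum_le_sum fun j hj => ?_
  have hj' : j ≤ s := by rw [mem_range] at hj; omega
  have h2 : ((2 * s).choose (2 * j) : ℝ) ≤ (s.choose j : ℝ) * ((2 * s - 1 : ℕ) : ℝ) ^ j := by
    exact_mod_cast choose_two_mul_le s j hs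
  have e3 : x ^ (2 * s - 2 * j) = (x ^ 2) ^ (s - j) := by rw [← pow_mul]; congr 1; omega
  have e4 : y ^ (2 * j) = (y ^ 2) ^ j := by rw [← pow_mul]
  rw [e3, e4, mul_pow]
  have h3 : 0 ≤ (y ^ 2) ^ j * (x ^ 2) ^ (s - j) := by positivity
  calc 2 * ((y ^ 2) ^ j * (x ^ 2) ^ (s - j) * ((2 * s).choose (2 * j) : ℝ))
      ≤ 2 * ((y ^ 2) ^ j * (x ^ 2) ^ (s - j) * ((s.choose j : ℝ) * ((2 * s - 1 : ℕ) : ℝ) ^ j)) := by
        gcongr
    _ = _ := by ring

/-- Minkowski's inequality in the form we need. -/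
lemma mink {ι : Type*} (t : Finset ι) (s : ℕ) (hs : 1 ≤ s) (a b : ι → ℝ) (ha : ∀ i ∈ t, 0 ≤ a i)
    (hb : ∀ i ∈ t, 0 ≤ b i) (N A B : ℝ) (hA : 0 ≤ A) (hB : 0 ≤ B)
    (h1 : ∑ i ∈ t, a i ^ s ≤ N * A ^ s) (h2 : ∑ i ∈ t, b i ^ s ≤ N * B ^ s) :
    ∑ i ∈ t, (a i + b i) ^ s ≤ N * (A + B) ^ s := by
  have hs0 : s ≠ 0 := by omega
  have zero_case : ∀ (c d : ι → ℝ) (D : ℝ), (∀ i ∈ t, 0 ≤ c i) →
      (∑ i ∈ t, c i ^ s ≤ N * (0 : ℝ) ^ s) → (∑ i ∈ t, d i ^ s ≤ N * D ^ s) →
      ∑ i ∈ t, (c i + d i) ^ s ≤ N * D ^ s := by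
    intro c d D hc h hd
    rw [zero_pow hs0, mul_zero] at h
    have h3 : ∀ i ∈ t, c i = 0 := by
      intro i hi
      have h4 : ∑ i ∈ t, c i ^ s = 0 :=
        le_antisymm h (Finset.sum_nonneg fun i hi => pow_nonneg (hc i hi) _)
      have h5 := (Finset.sum_eq_zero_iff_of_nonneg fun i hi => pow_nonneg (hc i hi) _).mp h4 i hi
      exact pow_eq_zero_iff hs0 |>.mp h5
    calc ∑ i ∈ t, (c i + d i) ^ s = ∑ i ∈ t, d i ^ s :=
          Finset.sum_congr rfl fun i hi => by rw [h3 i hi, zero_add]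
      _ ≤ _ := hd
  rcases hA.eq_or_lt with hA0 | hA0
  · subst hA0
    rw [zero_add]
    exact zero_case a b B ha h1 h2
  rcases hB.eq_or_lt with hB0 | hB0
  · subst hB0
    rw [add_zero]
    have := zero_case b a A hb h2 h1
    calc ∑ i ∈ t, (a i + b i) ^ s = ∑ i ∈ t, (b i + a i) ^ s :=
          Finset.sum_congr rfl fun i _ => by rw [add_comm]
      _ ≤ _ := this
  have hAB : 0 < A + B := by positivity
  have key : ∀ i ∈ t, (a i + b i) ^ s
      ≤ (A + B) ^ s * (A / (A + B) * (a i / A) ^ s + B / (A + B) * (b i / B) ^ s) := by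
    intro i hi
    have hc := (convexOn_pow s).2 (show a i / A ∈ Set.Ici (0 : ℝ) from div_nonneg (ha i hi) hA)
      (show b i / B ∈ Set.Ici (0 : ℝ) from div_nonneg (hb i hi) hB)
      (show 0 ≤ A / (A + B) by positivity) (show 0 ≤ B / (A + B) by positivity)
      (by field_simp)
    simp only [smul_eq_mul] at hc
    have e : a i + b i = (A + B) * (A / (A + B) * (a i / A) + B / (A + B) * (b i / B)) := by
      field_simp
    calc (a i + b i) ^ s = (A + B) ^ s * (A / (A + B) * (a i / A) + B / (A + B) * (b i / B)) ^ s := by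
          rw [← mul_pow, ← e]
      _ ≤ _ := by gcongr
  refine (Finset.sum_le_sum key).trans ?_
  rw [← Finset.mul_sum, Finset.sum_add_distrib, ← Finset.mul_sum, ← Finset.mul_sum]
  have h3 : ∑ i ∈ t, (a i / A) ^ s ≤ N := by
    simp_rw [div_pow]
    rw [← Finset.sum_div, div_le_iff₀ (by positivity)]
    exact h1
  have h4 : ∑ i ∈ t, (b i / B) ^ s ≤ N := by
    simp_rw [div_pow]
    rw [← Finset.sum_div, div_le_iff₀ (by positivity)]
    exact h2
  calc (A + B) ^ s * (A / (A + B) * ∑ i ∈ t, (a i / A) ^ s + B / (A + B) * ∑ i ∈ t, (b i / B) ^ s)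
      ≤ (A + B) ^ s * (A / (A + B) * N + B / (A + B) * N) := by gcongr
    _ = N * (A + B) ^ s := by field_simp

section

variable {V : Type*} [DecidableEq V]

/-- **Bonami's inequality**, on the cube of the subsets of `W`. -/
theorem bonami_aux (s : ℕ) (hs : 1 ≤ s) (W : Finset V) : ∀ c : Finset V → ℝ,
    ∑ C ∈ W.powerset, (∑ U ∈ W.powerset, c U * chi U C) ^ (2 * s)
      ≤ 2 ^ W.card * (∑ U ∈ W.powerset, ((2 * s - 1 : ℕ) : ℝ) ^ U.card * c U ^ 2) ^ s := by
  induction W using Finset.induction_on with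
  | empty =>
    intro c
    simp [chi_empty, pow_mul]
  | insert a W ha ih =>
    intro c
    set K : ℝ := ((2 * s - 1 : ℕ) : ℝ) with hK
    have hK0 : 0 ≤ K := by positivity
    set f0 : Finset V → ℝ := fun C => ∑ U ∈ W.powerset, c U * chi U C with hf0
    set f1 : Finset V → ℝ := fun C => ∑ U ∈ W.powerset, c (insert a U) * chi U C with hf1
    have hmem : ∀ U ∈ W.powerset, a ∉ U := fun U hU h => ha (mem_powerset.mp hU h)
    have e0 : ∀ C ∈ W.powerset,
        ∑ U ∈ (insert a W).powerset, c U * chi U C = f0 C + f1 C := by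
      intro C hC
      rw [sum_powerset_insert ha]
      congr 1
      refine Finset.sum_congr rfl fun U _ => ?_
      rw [chi_insert_left (hmem C hC)]
    have e1 : ∀ C ∈ W.powerset,
        ∑ U ∈ (insert a W).powerset, c U * chi U (insert a C) = f0 C - f1 C := by
      intro C hC
      rw [sum_powerset_insert ha, sub_eq_add_neg, ← Finset.sum_neg_distrib]
      congr 1
      · refine Finset.sum_congr rfl fun U hU => ?_
        rw [chi_insert_right (hmem U hU)]
      · refine Finset.sum_congr rfl fun U hU => ?_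
        rw [chi_insert_both (hmem U hU)]; ring
    have hstep : ∑ C ∈ (insert a W).powerset,
          (∑ U ∈ (insert a W).powerset, c U * chi U C) ^ (2 * s)
        = ∑ C ∈ W.powerset, ((f0 C + f1 C) ^ (2 * s) + (f0 C - f1 C) ^ (2 * s)) := by
      rw [sum_powerset_insert ha, ← Finset.sum_add_distrib]
      refine Finset.sum_congr rfl fun C hC => ?_
      rw [e0 C hC, e1 C hC]
    rw [hstep]
    have h1 : ∑ C ∈ W.powerset, ((f0 C + f1 C) ^ (2 * s) + (f0 C - f1 C) ^ (2 * s))
        ≤ 2 * ∑ C ∈ W.powerset, (f0 C ^ 2 + K * f1 C ^ 2) ^ s := by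
      rw [Finset.mul_sum]
      refine Finset.sum_le_sum fun C _ => ?_
      rw [add_comm]
      exact two_point s hs _ _
    set A : ℝ := ∑ U ∈ W.powerset, K ^ U.card * c U ^ 2 with hA
    set B : ℝ := ∑ U ∈ W.powerset, K ^ U.card * c (insert a U) ^ 2 with hB
    have hA0 : 0 ≤ A := Finset.sum_nonneg fun U _ => by positivity
    have hB0 : 0 ≤ B := Finset.sum_nonneg fun U _ => by positivity
    have i0 : ∑ C ∈ W.powerset, (f0 C ^ 2) ^ s ≤ 2 ^ W.card * A ^ s := by
      simp_rw [← pow_mul]; exact ih c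
    have i1 : ∑ C ∈ W.powerset, (K * f1 C ^ 2) ^ s ≤ 2 ^ W.card * (K * B) ^ s := by
      simp_rw [mul_pow, ← pow_mul]
      rw [← Finset.mul_sum]
      calc K ^ s * ∑ C ∈ W.powerset, f1 C ^ (2 * s) ≤ K ^ s * (2 ^ W.card * B ^ s) := by
            apply mul_le_mul_of_nonneg_left _ (by positivity)
            exact ih (fun U => c (insert a U))
        _ = _ := by ring
    have h2 := mink W.powerset s hs (fun C => f0 C ^ 2) (fun C => K * f1 C ^ 2)
      (fun C _ => by positivity) (fun C _ => by positivity) (2 ^ W.card) A (K * B)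
      hA0 (by positivity) i0 i1
    have e2 : ∑ U ∈ (insert a W).powerset, K ^ U.card * c U ^ 2 = A + K * B := by
      rw [sum_powerset_insert ha, hB, Finset.mul_sum]
      congr 1
      refine Finset.sum_congr rfl fun U hU => ?_
      rw [card_insert_of_notMem (hmem U hU)]; ring
    rw [e2, card_insert_of_notMem ha]
    calc _ ≤ 2 * ∑ C ∈ W.powerset, (f0 C ^ 2 + K * f1 C ^ 2) ^ s := h1
      _ ≤ 2 * (2 ^ W.card * (A + K * B) ^ s) := by linarith
      _ = _ := by ring

end

section

variable {V : Type*} [Fintype V] [DecidableEq V]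

/-- **Bonami's inequality**. -/
theorem bonami (s : ℕ) (hs : 1 ≤ s) (c : Finset V → ℝ) :
    avg (fun C => (∑ U : Finset V, c U * chi U C) ^ (2 * s))
      ≤ (∑ U : Finset V, ((2 * s - 1 : ℕ) : ℝ) ^ U.card * c U ^ 2) ^ s := by
  have h := bonami_aux s hs (univ : Finset V) c
  rw [Finset.powerset_univ, Finset.card_univ] at h
  unfold avg
  rw [div_le_iff₀ (by positivity)]
  linarith

open Classical in
/-- The indicator function of a family of sets. -/
noncomputable def ind (Z : Set (Finset V)) : Finset V → ℝ := fun C => if C ∈ Z then 1 else 0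

lemma ind_nonneg (Z : Set (Finset V)) (C : Finset V) : 0 ≤ ind Z C := by
  unfold ind; split_ifs <;> norm_num

lemma ind_le_one (Z : Set (Finset V)) (C : Finset V) : ind Z C ≤ 1 := by
  unfold ind; split_ifs <;> norm_num

lemma ind_mul_self (Z : Set (Finset V)) (C : Finset V) : ind Z C * ind Z C = ind Z C := by
  unfold ind; split_ifs <;> norm_num

/-- The weighted Walsh mass of a family of sets. -/
noncomputable def mass (α : ℝ) (Z : Set (Finset V)) : ℝ :=
  ∑ U : Finset V, α ^ U.card * hat (ind Z) U ^ 2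

/-- **Dual form of Bonami's inequality**: the noisy Walsh mass of a set of density `q` is at most
`q ^ (2 - 1 / s)`. -/
theorem mass_pow_le (s : ℕ) (hs : 1 ≤ s) (Z : Set (Finset V)) :
    mass (((2 * s - 1 : ℕ) : ℝ)⁻¹) Z ^ s ≤ avg (ind Z) ^ (2 * s - 1) := by
  classical
  set K : ℝ := ((2 * s - 1 : ℕ) : ℝ) with hK
  have hK0 : 0 < K := by
    rw [hK]; exact_mod_cast (show 0 < 2 * s - 1 by omega)
  set Q := mass K⁻¹ Z with hQ
  have hQ0 : 0 ≤ Q := by
    rw [hQ]; unfold mass
    exact Finset.sum_nonneg fun U _ => by positivity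
  set q := avg (ind Z) with hq
  have hq0 : 0 ≤ q := avg_nonneg (ind_nonneg Z)
  rcases hQ0.eq_or_lt with h0 | h0
  · rw [← h0, zero_pow (by omega)]
    positivity
  set F : Finset V → ℝ := fun C => ∑ U : Finset V, (K⁻¹ ^ U.card * hat (ind Z) U) * chi U C with hF
  have h1 : avg (fun C => ind Z C * F C) = Q := by
    simp only [hF, Finset.mul_sum]
    rw [avg_sum, hQ]
    unfold mass
    refine Finset.sum_congr rfl fun U _ => ?_
    have : (fun C => ind Z C * (K⁻¹ ^ U.card * hat (ind Z) U * chi U C))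
        = fun C => (K⁻¹ ^ U.card * hat (ind Z) U) * (ind Z C * chi U C) := by
      funext C; ring
    rw [this, avg_smul]
    change _ * hat (ind Z) U = _
    ring
  have h2 : avg (fun C => F C ^ (2 * s)) ≤ Q ^ s := by
    refine (bonami s hs _).trans (le_of_eq ?_)
    congr 1
    rw [hQ]
    unfold mass
    refine Finset.sum_congr rfl fun U _ => ?_
    rw [← hK, mul_pow, ← mul_assoc]
    congr 1
    rw [← pow_mul, mul_comm U.card 2, pow_mul, ← mul_pow]
    congr 1
    field_simp
  -- Jensen on the set `Z`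
  have h3 : avg (fun C => ind Z C * F C) ^ (2 * s)
      ≤ q ^ (2 * s - 1) * avg (fun C => F C ^ (2 * s)) := by
    have hq1 : 0 < q := by
      rcases hq0.eq_or_lt with h | h
      · exfalso
        have h4 : ∑ C : Finset V, ind Z C = 0 := by
          have := h.symm
          rw [hq] at this
          unfold avg at this
          rw [div_eq_zero_iff] at this
          rcases this with h | h
          · exact h
          · exact absurd h (by positivity)
        have h5 := (Finset.sum_eq_zero_iff_of_nonneg fun C _ => ind_nonneg Z C).mp h4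
        have h6 : avg (fun C => ind Z C * F C) = 0 := by
          unfold avg
          rw [Finset.sum_eq_zero fun C hC => by rw [h5 C hC, zero_mul], zero_div]
        rw [h1] at h6
        exact absurd h6 h0.ne'
      · exact h
    set N : ℝ := 2 ^ Fintype.card V with hN
    have hN0 : 0 < N := by positivity
    have h4 := Real.pow_arith_mean_le_arith_mean_pow_of_even (univ : Finset (Finset V))
      (fun C => ind Z C / (N * q)) (fun C => F C)
      (fun C _ => div_nonneg (ind_nonneg Z C) (by positivity))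
      (by
        rw [← Finset.sum_div, hq]
        unfold avg
        rw [← hN, mul_div_cancel₀ _ hN0.ne']
        apply div_self
        intro h7
        rw [hq] at hq1
        unfold avg at hq1
        rw [h7, zero_div] at hq1
        exact lt_irrefl _ hq1) (even_two_mul s)
    have e1 : ∑ C : Finset V, ind Z C / (N * q) * F C = avg (fun C => ind Z C * F C) / q := by
      unfold avg
      rw [← hN, div_div, Finset.sum_div]
      refine Finset.sum_congr rfl fun C _ => by ring
    have e2 : ∑ C : Finset V, ind Z C / (N * q) * F C ^ (2 * s)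
        ≤ avg (fun C => F C ^ (2 * s)) / q := by
      unfold avg
      rw [← hN, div_div, Finset.sum_div]
      refine Finset.sum_le_sum fun C _ => ?_
      rw [div_mul_eq_mul_div]
      apply div_le_div_of_nonneg_right _ (by positivity)
      have : 0 ≤ F C ^ (2 * s) := (even_two_mul s).pow_nonneg _
      nlinarith [ind_le_one Z C]
    have h5 := h4.trans e2
    rw [e1, div_pow, div_le_iff₀ (by positivity)] at h5
    refine h5.trans (le_of_eq ?_)
    have e3 : 2 * s = (2 * s - 1) + 1 := by omega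
    have e4 : q ^ (2 * s) = q ^ (2 * s - 1) * q := by rw [← pow_succ]; congr 1
    rw [e4]
    field_simp
  rw [h1] at h3
  have h4 : Q ^ s * Q ^ s ≤ q ^ (2 * s - 1) * Q ^ s := by
    calc Q ^ s * Q ^ s = Q ^ (2 * s) := by rw [← pow_add]; congr 1; ring
      _ ≤ q ^ (2 * s - 1) * avg (fun C => F C ^ (2 * s)) := h3
      _ ≤ _ := by gcongr
  exact le_of_mul_le_mul_right h4 (by positivity)

/-- Bessel's inequality. -/
theorem mass_one_le (Z : Set (Finset V)) : mass 1 Z ≤ avg (ind Z) := by
  have h := mass_pow_le 1 le_rfl Z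
  simpa using h

lemma avg_ind_le_one (Z : Set (Finset V)) : avg (ind Z) ≤ 1 := by
  have := avg_mono (f := ind Z) (g := fun _ => 1) (ind_le_one Z)
  rwa [avg_const] at this

/-- The noisy mass is at most twice the square of the density, if the density is not tiny. -/
theorem mass_le (s : ℕ) (hs : 1 ≤ s) (Z : Set (Finset V)) (θ : ℝ) (hθ : (1 / 2) ^ s ≤ θ)
    (hq : avg (ind Z) ≤ θ) : mass (((2 * s - 1 : ℕ) : ℝ)⁻¹) Z ≤ 2 * θ ^ 2 := by
  have hθ0 : 0 < θ := lt_of_lt_of_le (by positivity) hθ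
  have h1 := mass_pow_le s hs Z
  have h2 : avg (ind Z) ^ (2 * s - 1) ≤ θ ^ (2 * s - 1) :=
    pow_le_pow_left₀ (avg_nonneg (ind_nonneg Z)) hq _
  have h3 : θ ^ (2 * s - 1) ≤ (2 * θ ^ 2) ^ s := by
    have e : θ ^ (2 * s) = θ ^ (2 * s - 1) * θ := by rw [← pow_succ]; congr 1; omega
    rw [mul_pow, ← pow_mul, e]
    have h4 : 1 ≤ 2 ^ s * θ := by
      calc (1 : ℝ) = 2 ^ s * (1 / 2) ^ s := by rw [← mul_pow]; norm_num
        _ ≤ _ := by gcongr
    calc θ ^ (2 * s - 1) = θ ^ (2 * s - 1) * 1 := by ring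
      _ ≤ θ ^ (2 * s - 1) * (2 ^ s * θ) := by gcongr
      _ = _ := by ring
  exact le_of_pow_le_pow_left₀ (by omega) (by positivity) ((h1.trans h2).trans h3)

end

end Pool.Agent.TeleNeg
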