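import Pool.Agent.TeleNeg.DirDefs

/-!
# The number of NOT gates and the number of changes of their outputs: definitions
-/

namespace Pool.Agent.TeleNeg

open Finset

/-- The number of NOT gates of a device. -/
def Device.negs {ι : Type} {S T : ℕ} (D : Device ι S T) : ℕ := (D.levels.map List.length).sum

/-- Along every increasing sequence of inputs the list of the outputs of the NOT gates changes at
most `a` times (the networks of the device are used as undirected networks). -/
def Device.ChangesAtMost {ι : Type} {S T : ℕ} (D : Device ι S T) (a : ℕ) : Prop :=
  ∀ x : ℕ → ι → Bool, Monotone x → ∀ n : ℕ,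
    ((range n).filter
      (fun k => notVals (x k) D.levels [] ≠ notVals (x (k + 1)) D.levels [])).card ≤ a

/-- The same for a device whose networks are used as directed networks. -/
def Device.DChangesAtMost {ι : Type} {S T : ℕ} (D : Device ι S T) (a : ℕ) : Prop :=
  ∀ x : ℕ → ι → Bool, Monotone x → ∀ n : ℕ,
    ((range n).filter
      (fun k => dnotVals (x k) D.levels [] ≠ dnotVals (x (k + 1)) D.levels [])).card ≤ a

end Pool.Agent.TeleNeg
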