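import Pool.Agent.TeleNeg.Lev

/-!
# Telescoping with the number of changes of the outputs of the NOT gates
-/

namespace Pool.Agent.TeleNeg

open Finset
open scoped BigOperators

set_option linter.unusedSectionVars false

section rej

variable {ι : Type*} {𝒢 : Type*} (u : 𝒢 → List Bool → Set ι → Prop)

open Classical in
/-- The gates whose networks reject `X`, with the outputs of earlier gates which they read. -/
noncomputable def rej (X : Set ι) : List (List 𝒢) → List Bool → List (𝒢 × List Bool)
  | [], _ => []
  | l :: ls, v => (l.filter fun N => !decide (u N v X)).map (fun N => (N, v)) ++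
      rej X ls (v ++ l.map fun N => !decide (u N v X))

lemma rej_length (X : Set ι) (ls : List (List 𝒢)) : ∀ v, (rej u X ls v).length ≤ levSum ls := by
  classical
  induction ls with
  | nil => intro v; simp [rej, levSum]
  | cons l ls ih =>
    intro v
    have e2 : levSum (l :: ls) = l.length + levSum ls := by simp [levSum]
    rw [e2]
    unfold rej
    rw [List.length_append, List.length_map]
    exact Nat.add_le_add (List.length_filter_le _ _) (ih _)

lemma levVals_take (X : Set ι) (ls : List (List 𝒢)) : ∀ v,
    (levVals u X ls v).take v.length = v := by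
  classical
  induction ls with
  | nil => intro v; simp [levVals]
  | cons l ls ih =>
    intro v
    have h1 := ih (v ++ l.map fun N => !decide (u N v X))
    have h2 : (levVals u X (l :: ls) v).take v.length
        = ((levVals u X ls (v ++ l.map fun N => !decide (u N v X))).take
            (v ++ l.map fun N => !decide (u N v X)).length).take v.length := by
      rw [List.take_take, List.length_append, min_eq_left (Nat.le_add_right _ _)]
      rfl
    rw [h2, h1, List.take_left']
    rfl

lemma levVals_ne_iff (hu : ∀ N b X X', X ⊆ X' → u N b X → u N b X') {X X' : Set ι}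
    (h : X ⊆ X') (ls : List (List 𝒢)) : ∀ v,
    levVals u X ls v ≠ levVals u X' ls v ↔ ∃ p ∈ rej u X ls v, u p.1 p.2 X' := by
  classical
  induction ls with
  | nil => intro v; simp [levVals, rej]
  | cons l ls ih =>
    intro v
    have e1 : levVals u X (l :: ls) v = levVals u X ls (v ++ l.map fun N => !decide (u N v X)) := rfl
    have e2 : levVals u X' (l :: ls) v
        = levVals u X' ls (v ++ l.map fun N => !decide (u N v X')) := rfl
    by_cases hall : ∀ N ∈ l, (u N v X ↔ u N v X')
    · have e3 : (l.map fun N => !decide (u N v X)) = l.map fun N => !decide (u N v X') := by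
        refine List.map_congr_left fun N hN => ?_
        rw [decide_eq_decide.mpr (hall N hN)]
      rw [e1, e2, ← e3, ih]
      have e4 : rej u X (l :: ls) v = (l.filter fun N => !decide (u N v X)).map (fun N => (N, v)) ++
          rej u X ls (v ++ l.map fun N => !decide (u N v X)) := rfl
      rw [e4]
      constructor
      · rintro ⟨p, hp, hup⟩
        exact ⟨p, List.mem_append_right _ hp, hup⟩
      · rintro ⟨p, hp, hup⟩
        rcases List.mem_append.mp hp with hp | hp
        · exfalso
          obtain ⟨N, hN, rfl⟩ := List.mem_map.mp hp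
          rw [List.mem_filter] at hN
          have h1 : ¬ u N v X := by simpa using hN.2
          exact h1 ((hall N hN.1).mpr hup)
        · exact ⟨p, hp, hup⟩
    · push Not at hall
      obtain ⟨N, hN, hNu⟩ := hall
      have h1 : ¬ u N v X ∧ u N v X' := by
        rcases hNu with ⟨h3, h4⟩ | ⟨h3, h4⟩
        · exact absurd (hu N v _ _ h h3) h4
        · exact ⟨h3, h4⟩
      refine iff_of_true ?_ ?_
      · intro heq
        rw [e1, e2] at heq
        have h2 := levVals_take u X ls (v ++ l.map fun N => !decide (u N v X))
        have h3 := levVals_take u X' ls (v ++ l.map fun N => !decide (u N v X'))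
        rw [heq] at h2
        have h4 : (v ++ l.map fun N => !decide (u N v X)).length
            = (v ++ l.map fun N => !decide (u N v X')).length := by simp
        rw [h4, h3] at h2
        have h5 := List.append_cancel_left h2
        have h6 : ∀ N ∈ l, (!decide (u N v X')) = (!decide (u N v X)) :=
          List.map_inj_left.mp h5
        have h7 := h6 N hN
        rw [decide_eq_false h1.1, decide_eq_true h1.2] at h7
        exact absurd h7 (by decide)
      · refine ⟨(N, v), ?_, h1.2⟩
        unfold rej
        refine List.mem_append_left _ (List.mem_map.mpr ⟨N, ?_, rfl⟩)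
        rw [List.mem_filter]
        exact ⟨hN, by simpa using h1.1⟩

end rej

section

variable {I : Type*} [Fintype I] [DecidableEq I] {M : ℕ} {ι : Type*}
  {E : ℕ → Finset (I × Fin M) → Set ι} {P : ℕ → (I → Fin M) → Set ι}
  {𝒢 : Type*} {u : 𝒢 → List Bool → Set ι → Prop}

/-- If the changes of `β` from `X` are dominated, then the side changes of `β` are at most twice
the changes along the chain. -/
theorem sideC_le_mainC_gen {B : Type*} (β : Set ι → B) (chg : Set ι → Set ι → Prop)
    (hchg : ∀ X X', X ⊆ X' → (β X ≠ β X' ↔ chg X X')) {η : ℝ}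
    (hd : ∀ X, Dominated E P η (chg X)) (n : ℕ) : ∀ X,
    sideC E P β n X ≤ 2 * mainC E β n X + 2 * η * n := by
  classical
  induction n with
  | zero => intro X; simp [sideC, mainC]
  | succ n ih =>
    intro X
    unfold sideC mainC
    have h1 := hd X n X
    have e1 : (fun y => if β X ≠ β (X ∪ P n y) then (1 : ℝ) else 0)
        = fun y => if chg X (X ∪ P n y) then (1 : ℝ) else 0 := by
      funext y
      have h2 := hchg X (X ∪ P n y) Set.subset_union_left
      by_cases h3 : β X ≠ β (X ∪ P n y)
      · rw [if_pos h3, if_pos (h2.mp h3)]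
      · rw [if_neg h3, if_neg fun h4 => h3 (h2.mpr h4)]
    have e2 : (fun C => if β X ≠ β (X ∪ E n C) then (1 : ℝ) else 0)
        = ind {C | chg X (X ∪ E n C)} := by
      funext C
      have h2 := hchg X (X ∪ E n C) Set.subset_union_left
      unfold ind
      by_cases h3 : β X ≠ β (X ∪ E n C)
      · rw [if_pos h3, if_pos (show C ∈ {C | chg X (X ∪ E n C)} from h2.mp h3)]
      · rw [if_neg h3, if_neg (show C ∉ {C | chg X (X ∪ E n C)} from fun h4 => h3 (h2.mpr h4))]
    rw [avg_add, e1, e2]
    have h3 : avg (fun C => sideC E P β n (X ∪ E n C))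
        ≤ 2 * avg (fun C => mainC E β n (X ∪ E n C)) + 2 * η * n := by
      refine (avg_mono fun C => ih (X ∪ E n C)).trans (le_of_eq ?_)
      rw [avg_add (fun C => 2 * mainC E β n (X ∪ E n C)) (fun _ => 2 * η * n), avg_smul, avg_const]
    push_cast
    linarith

/-- Side changes of the outputs of the NOT gates are at most twice the changes along the chain. -/
theorem sideC_le_mainC (hu : ∀ N b X X', X ⊆ X' → u N b X → u N b X') {η : ℝ}
    (ls : List (List 𝒢)) (hd : ∀ ps : List (𝒢 × List Bool), ps.length ≤ levSum ls →
      Dominated E P η (fun X => ∃ p ∈ ps, u p.1 p.2 X)) (n : ℕ) (X : Set ι) :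
    sideC E P (fun X => levVals u X ls []) n X
      ≤ 2 * mainC E (fun X => levVals u X ls []) n X + 2 * η * n :=
  sideC_le_mainC_gen _ (fun X X' => ∃ p ∈ rej u X ls [], u p.1 p.2 X')
    (fun _ _ h => levVals_ne_iff u hu h ls []) (fun X => hd _ (rej_length u X ls [])) n X

lemma rej_length_aux {ls : List (List 𝒢)} : levSum ls ≤ levSum ls + 1 := Nat.le_succ _

/-- Side changes of the outputs. -/
theorem sideC_outs (hu : ∀ N b X X', X ⊆ X' → u N b X → u N b X') {η : ℝ} (hη : 0 ≤ η)
    (ls : List (List 𝒢)) (hd : ∀ ps : List (𝒢 × List Bool), ps.length ≤ levSum ls + 1 →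
      Dominated E P η (fun X => ∃ p ∈ ps, u p.1 p.2 X)) (T : ℕ) (outs : Fin T → 𝒢) (n : ℕ)
    (X : Set ι) :
    sideC E P (fun X i => u (outs i) (levVals u X ls []) X) n X
      ≤ 2 * ((T + 1) * (mainC E (fun X => levVals u X ls []) n X + 1)) + 2 * η * n * (T + 1) := by
  classical
  set β : Set ι → List Bool := fun X => levVals u X ls [] with hβ
  set ω : Set ι → (Fin T → Prop) := fun X i => u (outs i) (β X) X with hω
  set w : Fin T → List Bool → Set ι → Prop := fun i b X => u (outs i) b X with hw
  have hd1 : ∀ v b, Dominated E P η (w v b) := by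
    intro v b
    have h1 := hd [(outs v, b)] (by simp)
    have e1 : (fun X => ∃ p ∈ [(outs v, b)], u p.1 p.2 X) = w v b := by
      funext X
      simp [hw]
    rwa [e1] at h1
  have hrf : Refines β ω w := by
    intro X X' h1 h2
    funext i
    simp only [hω]
    rw [← h1]
    exact propext (h2 i)
  have h1 := sideC_step E P (u := w) (fun v b X X' h1 h2 => hu _ _ _ _ h1 h2) hrf hη hd1 n X
  have h2 := sideC_le_mainC (E := E) (P := P) hu ls (fun ps hps => hd ps (hps.trans (Nat.le_succ _)))
    n X
  have hfr : ∀ v, froz E β (w v) n X ≤ mainC E β n X + 1 :=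
    fun v => froz_le' E β (w v) (fun b X X' h1 h2 => hu _ _ _ _ h1 h2) n X
  have h4 : ∑ v, (2 * froz E β (w v) n X + 2 * η * n)
      ≤ T * (2 * (mainC E β n X + 1) + 2 * η * n) := by
    refine (Finset.sum_le_sum (g := fun _ => 2 * (mainC E β n X + 1) + 2 * η * (n : ℝ))
      fun v _ => by have := hfr v; linarith).trans ?_
    rw [Finset.sum_const, nsmul_eq_mul, Finset.card_univ, Fintype.card_fin]
  have hsum := h1.trans (add_le_add h2 h4)
  refine hsum.trans ?_
  nlinarith

/-- The changes along the random chain are at most the changes along the worst chain. -/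
theorem mainC_le_of_chains {B : Type*} (β : Set ι → B) (n : ℕ) : ∀ (X : Set ι) (a : ℕ),
    (∀ x : ℕ → Set ι, Monotone x → x 0 = X → ∀ m,
      (by classical exact ((range m).filter fun k => β (x k) ≠ β (x (k + 1))).card) ≤ a) →
    mainC E β n X ≤ a := by
  classical
  induction n with
  | zero => intro X a _; simp [mainC]
  | succ n ih =>
    intro X a ha
    unfold mainC
    refine (avg_mono (g := fun _ => (a : ℝ)) fun C => ?_).trans (le_of_eq (avg_const _))
    -- prepend `X`
    have key : ∀ x : ℕ → Set ι, Monotone x → x 0 = X ∪ E n C → ∀ m,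
        (if β X ≠ β (X ∪ E n C) then 1 else 0)
          + ((range m).filter fun k => β (x k) ≠ β (x (k + 1))).card ≤ a := by
      intro x hx hx0 m
      set x' : ℕ → Set ι := fun k => match k with | 0 => X | k + 1 => x k with hx'
      have hmono : Monotone x' := by
        refine monotone_nat_of_le_succ fun k => ?_
        cases k with
        | zero =>
          show X ⊆ x 0
          rw [hx0]; exact Set.subset_union_left
        | succ k => exact hx (Nat.le_succ k)
      have h1 := ha x' hmono rfl (m + 1)
      have h2 : ((range (m + 1)).filter fun k => β (x' k) ≠ β (x' (k + 1))).card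
          = (if β X ≠ β (X ∪ E n C) then 1 else 0)
            + ((range m).filter fun k => β (x k) ≠ β (x (k + 1))).card := by
        rw [Finset.card_filter, Finset.card_filter, Finset.sum_range_succ', add_comm]
        congr 1
        show (if β X ≠ β (x 0) then 1 else 0) = _
        rw [hx0]
      rw [h2] at h1
      exact h1
    by_cases hb : β X ≠ β (X ∪ E n C)
    · simp only [if_pos hb] at key ⊢
      have ha1 : 1 ≤ a := by
        have := key (fun _ => X ∪ E n C) monotone_const rfl 0
        omega
      have h3 := ih (X ∪ E n C) (a - 1) (fun x hx hx0 m => by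
        have := key x hx hx0 m
        have e : (by classical exact ((range m).filter fun k => β (x k) ≠ β (x (k + 1))).card : ℕ)
            = ((range m).filter fun k => β (x k) ≠ β (x (k + 1))).card := by congr
        rw [e]
        omega)
      rw [Nat.cast_sub ha1] at h3
      push_cast at h3
      linarith
    · simp only [if_neg hb, zero_add] at key ⊢
      exact ih (X ∪ E n C) a (fun x hx hx0 m => by
        have e : (by classical exact ((range m).filter fun k => β (x k) ≠ β (x (k + 1))).card : ℕ)
            = ((range m).filter fun k => β (x k) ≠ β (x (k + 1))).card := by congr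
        rw [e]
        exact key x hx hx0 m)

end

end Pool.Agent.TeleNeg
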