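import Mathlib

/-!
# Walsh characters on the cube of subsets of a finite type
-/

namespace Pool.Agent.TeleNeg

open Finset
open scoped BigOperators

set_option linter.unusedSectionVars false

section

variable {V : Type*} [DecidableEq V]

/-- Walsh characters: `(-1) ^ |U ∩ C|`. -/
def chi (U C : Finset V) : ℝ := (-1) ^ (U ∩ C).card

lemma chi_comm (U C : Finset V) : chi U C = chi C U := by
  unfold chi; rw [inter_comm]

lemma chi_empty (C : Finset V) : chi ∅ C = 1 := by simp [chi]

lemma chi_eq_prod (U C : Finset V) : chi U C = ∏ i ∈ C, (if i ∈ U then (-1 : ℝ) else 1) := by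
  unfold chi
  rw [Finset.prod_ite, Finset.prod_const, Finset.prod_const_one, mul_one, filter_mem_eq_inter,
    inter_comm]

lemma chi_sq (U C : Finset V) : chi U C * chi U C = 1 := by
  unfold chi
  rw [← mul_pow]; norm_num

lemma chi_abs (U C : Finset V) : |chi U C| = 1 := by
  unfold chi
  rw [abs_pow]; norm_num

lemma chi_mul (U W C : Finset V) : chi U C * chi W C = chi (symmDiff U W) C := by
  rw [chi_eq_prod, chi_eq_prod, chi_eq_prod, ← Finset.prod_mul_distrib]
  refine Finset.prod_congr rfl fun i _ => ?_
  by_cases h1 : i ∈ U <;> by_cases h2 : i ∈ W <;> simp [h1, h2, Finset.mem_symmDiff]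

lemma chi_insert_left {a : V} {U C : Finset V} (ha : a ∉ C) : chi (insert a U) C = chi U C := by
  unfold chi
  rw [insert_inter_of_notMem ha]

lemma chi_insert_right {a : V} {U C : Finset V} (ha : a ∉ U) : chi U (insert a C) = chi U C := by
  rw [chi_comm, chi_insert_left ha, chi_comm]

lemma chi_insert_both {a : V} {U C : Finset V} (hU : a ∉ U) :
    chi (insert a U) (insert a C) = - chi U C := by
  unfold chi
  rw [← insert_inter_distrib, card_insert_of_notMem, pow_succ]
  · ring
  · simp [hU]

end

section

variable {V : Type*} [Fintype V] [DecidableEq V]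

lemma sum_chi (U : Finset V) :
    ∑ C : Finset V, chi U C = if U = ∅ then (2 : ℝ) ^ Fintype.card V else 0 := by
  simp_rw [chi_eq_prod]
  have h := Finset.prod_one_add (univ : Finset V) (f := fun i : V => if i ∈ U then (-1 : ℝ) else 1)
  rw [Finset.powerset_univ] at h
  rw [← h]
  split_ifs with hU
  · subst hU
    simp only [notMem_empty, if_false, prod_const, Finset.card_univ]
    norm_num
  · obtain ⟨i, hi⟩ := Finset.nonempty_iff_ne_empty.mpr hU
    exact Finset.prod_eq_zero (mem_univ i) (by simp [hi])

lemma sum_chi_mul (U W : Finset V) :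
    ∑ C : Finset V, chi U C * chi W C = if U = W then (2 : ℝ) ^ Fintype.card V else 0 := by
  simp_rw [chi_mul]
  rw [sum_chi]
  have : symmDiff U W = ∅ ↔ U = W := by
    rw [← Finset.bot_eq_empty, symmDiff_eq_bot]
  simp only [this]

/-- Average over the cube. -/
noncomputable def avg (f : Finset V → ℝ) : ℝ := (∑ C : Finset V, f C) / 2 ^ Fintype.card V

/-- Walsh coefficients. -/
noncomputable def hat (f : Finset V → ℝ) (U : Finset V) : ℝ := avg fun C => f C * chi U C

lemma card_cube : (Fintype.card (Finset V) : ℝ) = 2 ^ Fintype.card V := by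
  rw [Fintype.card_finset]; push_cast; rfl

lemma avg_mono {f g : Finset V → ℝ} (h : ∀ C, f C ≤ g C) : avg f ≤ avg g := by
  unfold avg
  apply div_le_div_of_nonneg_right (Finset.sum_le_sum fun C _ => h C) (by positivity)

lemma avg_nonneg {f : Finset V → ℝ} (h : ∀ C, 0 ≤ f C) : 0 ≤ avg f := by
  unfold avg
  exact div_nonneg (Finset.sum_nonneg fun C _ => h C) (by positivity)

lemma avg_const (c : ℝ) : avg (fun _ : Finset V => c) = c := by
  unfold avg
  rw [Finset.sum_const, nsmul_eq_mul, Finset.card_univ, card_cube]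
  field_simp

lemma avg_add (f g : Finset V → ℝ) : avg (fun C => f C + g C) = avg f + avg g := by
  unfold avg
  rw [Finset.sum_add_distrib, add_div]

lemma avg_sub (f g : Finset V → ℝ) : avg (fun C => f C - g C) = avg f - avg g := by
  unfold avg
  rw [Finset.sum_sub_distrib, sub_div]

lemma avg_smul (c : ℝ) (f : Finset V → ℝ) : avg (fun C => c * f C) = c * avg f := by
  unfold avg
  rw [← Finset.mul_sum, mul_div_assoc]

lemma avg_sum {ι : Type*} (s : Finset ι) (f : ι → Finset V → ℝ) :
    avg (fun C => ∑ i ∈ s, f i C) = ∑ i ∈ s, avg (f i) := by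
  unfold avg
  rw [Finset.sum_comm, Finset.sum_div]

lemma avg_abs_le (f : Finset V → ℝ) : |avg f| ≤ avg fun C => |f C| := by
  unfold avg
  rw [abs_div, abs_of_pos (by positivity : (0 : ℝ) < 2 ^ Fintype.card V)]
  exact div_le_div_of_nonneg_right (Finset.abs_sum_le_sum_abs _ _) (by positivity)

lemma avg_chi_mul (U W : Finset V) :
    avg (fun C => chi U C * chi W C) = if U = W then 1 else 0 := by
  unfold avg
  rw [sum_chi_mul]
  split_ifs <;> simp

lemma avg_chi (U : Finset V) : avg (fun C => chi U C) = if U = ∅ then 1 else 0 := by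
  unfold avg
  rw [sum_chi]
  split_ifs <;> simp

/-- Walsh inversion. -/
lemma hat_inversion (f : Finset V → ℝ) (B : Finset V) :
    f B = ∑ U : Finset V, hat f U * chi U B := by
  unfold hat avg
  simp_rw [div_mul_eq_mul_div, Finset.sum_mul]
  rw [← Finset.sum_div, Finset.sum_comm]
  have h1 : ∀ C : Finset V, ∑ U : Finset V, f C * chi U C * chi U B
      = f C * (if C = B then (2 : ℝ) ^ Fintype.card V else 0) := by
    intro C
    rw [← sum_chi_mul, Finset.mul_sum]
    refine Finset.sum_congr rfl fun U _ => ?_
    rw [chi_comm U C, chi_comm U B]; ring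
  simp_rw [h1]
  simp

end

end Pool.Agent.TeleNeg
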