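import Pool.Agent.TeleNeg.Tele

/-!
# Telescoping with levels of NOT gates
-/

namespace Pool.Agent.TeleNeg

open Finset
open scoped BigOperators

set_option linter.unusedSectionVars false

section

variable {I : Type*} [Fintype I] [DecidableEq I] {M : ℕ} {ι : Type*}
  (E : ℕ → Finset (I × Fin M) → Set ι) (P : ℕ → (I → Fin M) → Set ι)

open Classical in
/-- Expected number of steps of the random chain of cut graphs at which `β` changes. -/
noncomputable def mainC {B : Type*} (β : Set ι → B) : ℕ → Set ι → ℝ
  | 0, _ => 0
  | n + 1, X => avg (fun C => (if β X ≠ β (X ∪ E n C) then (1 : ℝ) else 0)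
      + mainC β n (X ∪ E n C))

open Classical in
/-- Expected number of steps at which `β` changes when a random minterm is added. -/
noncomputable def sideC {B : Type*} (β : Set ι → B) : ℕ → Set ι → ℝ
  | 0, _ => 0
  | n + 1, X => avgY (fun y => if β X ≠ β (X ∪ P n y) then (1 : ℝ) else 0)
      + avg (fun C => sideC β n (X ∪ E n C))

open Classical in
/-- Expected number of steps at which the function `u`, with its first argument frozen, changes
from false to true. -/
noncomputable def froz {B : Type*} (β : Set ι → B) (u : B → Set ι → Prop) : ℕ → Set ι → ℝ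
  | 0, _ => 0
  | n + 1, X => avg (fun C => (if ¬ u (β X) X ∧ u (β X) (X ∪ E n C) then (1 : ℝ) else 0)
      + froz β u n (X ∪ E n C))

lemma mainC_nonneg {B : Type*} (β : Set ι → B) (n : ℕ) : ∀ X, 0 ≤ mainC E β n X := by
  induction n with
  | zero => intro X; exact le_rfl
  | succ n ih =>
    intro X
    refine avg_nonneg fun C => add_nonneg ?_ (ih _)
    split_ifs <;> norm_num

open Classical in
lemma froz_le {B : Type*} (β : Set ι → B) (u : B → Set ι → Prop)
    (hu : ∀ b X X', X ⊆ X' → u b X → u b X') (n : ℕ) : ∀ X,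
    froz E β u n X ≤ mainC E β n X + if u (β X) X then 0 else 1 := by
  induction n with
  | zero =>
    intro X
    simp only [froz, mainC, zero_add]
    split_ifs <;> norm_num
  | succ n ih =>
    intro X
    unfold froz mainC
    set δ : ℝ := if u (β X) X then 0 else 1 with hδ
    have h1 : avg (fun C => (if β X ≠ β (X ∪ E n C) then (1 : ℝ) else 0) + mainC E β n (X ∪ E n C))
          + δ = avg (fun C => ((if β X ≠ β (X ∪ E n C) then (1 : ℝ) else 0)
            + mainC E β n (X ∪ E n C)) + δ) := by
      rw [avg_add (fun C => (if β X ≠ β (X ∪ E n C) then (1 : ℝ) else 0)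
            + mainC E β n (X ∪ E n C)) (fun _ => δ), avg_const]
    rw [h1]
    refine avg_mono fun C => ?_
    have h2 := ih (X ∪ E n C)
    by_cases hβ : β X = β (X ∪ E n C)
    · rw [if_neg (not_not.mpr hβ)]
      rw [← hβ] at h2
      by_cases hX : u (β X) X
      · have hX' : u (β X) (X ∪ E n C) := hu _ _ _ Set.subset_union_left hX
        rw [if_neg (fun h => h.1 hX)]
        rw [if_pos hX'] at h2
        rw [hδ, if_pos hX]
        linarith
      · rw [hδ, if_neg hX]
        by_cases hX' : u (β X) (X ∪ E n C)
        · rw [if_pos ⟨hX, hX'⟩]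
          rw [if_pos hX'] at h2
          linarith
        · rw [if_neg (fun h => hX' h.2)]
          rw [if_neg hX'] at h2
          linarith
    · rw [if_pos hβ]
      have h3 : froz E β u n (X ∪ E n C) ≤ mainC E β n (X ∪ E n C) + 1 := by
        refine h2.trans (add_le_add le_rfl ?_)
        split_ifs <;> norm_num
      by_cases hX : u (β X) X
      · rw [if_neg (fun h => h.1 hX), hδ, if_pos hX]
        linarith
      · rw [hδ, if_neg hX]
        have h4 : (if ¬ u (β X) X ∧ u (β X) (X ∪ E n C) then (1 : ℝ) else 0) ≤ 1 := by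
          split_ifs <;> norm_num
        linarith

lemma froz_le' {B : Type*} (β : Set ι → B) (u : B → Set ι → Prop)
    (hu : ∀ b X X', X ⊆ X' → u b X → u b X') (n : ℕ) (X : Set ι) :
    froz E β u n X ≤ mainC E β n X + 1 := by
  classical
  refine (froz_le E β u hu n X).trans (add_le_add le_rfl ?_)
  split_ifs <;> norm_num

/-- The new pattern `β'` is determined by `β` and the gates `u v`. -/
def Refines {B B' : Type*} (β : Set ι → B) (β' : Set ι → B') {J : Type*}
    (u : J → B → Set ι → Prop) : Prop :=
  ∀ X X', β X = β X' → (∀ v, u v (β X) X ↔ u v (β X) X') → β' X = β' X'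

lemma mainC_step {B B' : Type*} {β : Set ι → B} {β' : Set ι → B'} {J : Type*} [Fintype J]
    {u : J → B → Set ι → Prop} (hu : ∀ v b X X', X ⊆ X' → u v b X → u v b X')
    (hr : Refines β β' u) (n : ℕ) : ∀ X,
    mainC E β' n X ≤ mainC E β n X + ∑ v, froz E β (u v) n X := by
  classical
  induction n with
  | zero => intro X; simp [mainC, froz]
  | succ n ih =>
    intro X
    unfold mainC froz
    rw [← avg_sum, ← avg_add]
    refine avg_mono fun C => ?_
    have h1 := ih (X ∪ E n C)
    rw [Finset.sum_add_distrib]
    have h2 : (if β' X ≠ β' (X ∪ E n C) then (1 : ℝ) else 0)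
        ≤ (if β X ≠ β (X ∪ E n C) then (1 : ℝ) else 0)
          + ∑ v, (if ¬ u v (β X) X ∧ u v (β X) (X ∪ E n C) then (1 : ℝ) else 0) := by
      have hnn : 0 ≤ ∑ v, (if ¬ u v (β X) X ∧ u v (β X) (X ∪ E n C) then (1 : ℝ) else 0) :=
        Finset.sum_nonneg fun v _ => by split_ifs <;> norm_num
      by_cases hβ : β X = β (X ∪ E n C)
      · rw [if_neg (not_not.mpr hβ), zero_add]
        by_cases hall : ∀ v, u v (β X) X ↔ u v (β X) (X ∪ E n C)
        · rw [if_neg (not_not.mpr (hr _ _ hβ hall))]
          exact hnn
        · push Not at hall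
          obtain ⟨v, hv⟩ := hall
          have hv' : ¬ u v (β X) X ∧ u v (β X) (X ∪ E n C) := by
            rcases hv with ⟨h3, h4⟩ | ⟨h3, h4⟩
            · exact absurd (hu v _ _ _ Set.subset_union_left h3) h4
            · exact ⟨h3, h4⟩
          have h5 := Finset.single_le_sum
            (f := fun v => if ¬ u v (β X) X ∧ u v (β X) (X ∪ E n C) then (1 : ℝ) else 0)
            (fun v _ => by positivity) (mem_univ v)
          rw [if_pos hv'] at h5
          refine le_trans ?_ h5
          split_ifs <;> norm_num
      · rw [if_pos hβ]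
        have : (if β' X ≠ β' (X ∪ E n C) then (1 : ℝ) else 0) ≤ 1 := by split_ifs <;> norm_num
        linarith
    linarith

lemma sideC_step {B B' : Type*} {β : Set ι → B} {β' : Set ι → B'} {J : Type*} [Fintype J]
    {u : J → B → Set ι → Prop} (hu : ∀ v b X X', X ⊆ X' → u v b X → u v b X')
    (hr : Refines β β' u) {η : ℝ} (hη : 0 ≤ η) (hd : ∀ v b, Dominated E P η (u v b)) (n : ℕ) :
    ∀ X, sideC E P β' n X
      ≤ sideC E P β n X + ∑ v, (2 * froz E β (u v) n X + 2 * η * n) := by
  classical
  induction n with
  | zero => intro X; simp [sideC, froz]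
  | succ n ih =>
    intro X
    unfold sideC froz
    -- side step
    have h1 : avgY (fun y => if β' X ≠ β' (X ∪ P n y) then (1 : ℝ) else 0)
        ≤ avgY (fun y => if β X ≠ β (X ∪ P n y) then (1 : ℝ) else 0)
          + ∑ v, (2 * avg (fun C => if ¬ u v (β X) X ∧ u v (β X) (X ∪ E n C) then (1 : ℝ) else 0)
            + 2 * η) := by
      have h2 : avgY (fun y => if β' X ≠ β' (X ∪ P n y) then (1 : ℝ) else 0)
          ≤ avgY (fun y => (if β X ≠ β (X ∪ P n y) then (1 : ℝ) else 0)
            + ∑ v, (if ¬ u v (β X) X ∧ u v (β X) (X ∪ P n y) then (1 : ℝ) else 0)) := by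
        refine avgY_mono fun y => ?_
        have hnn : 0 ≤ ∑ v, (if ¬ u v (β X) X ∧ u v (β X) (X ∪ P n y) then (1 : ℝ) else 0) :=
          Finset.sum_nonneg fun v _ => by split_ifs <;> norm_num
        by_cases hβ : β X = β (X ∪ P n y)
        · rw [if_neg (not_not.mpr hβ), zero_add]
          by_cases hall : ∀ v, u v (β X) X ↔ u v (β X) (X ∪ P n y)
          · rw [if_neg (not_not.mpr (hr _ _ hβ hall))]
            exact hnn
          · push Not at hall
            obtain ⟨v, hv⟩ := hall
            have hv' : ¬ u v (β X) X ∧ u v (β X) (X ∪ P n y) := by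
              rcases hv with ⟨h3, h4⟩ | ⟨h3, h4⟩
              · exact absurd (hu v _ _ _ Set.subset_union_left h3) h4
              · exact ⟨h3, h4⟩
            have h5 := Finset.single_le_sum
              (f := fun v => if ¬ u v (β X) X ∧ u v (β X) (X ∪ P n y) then (1 : ℝ) else 0)
              (fun v _ => by positivity) (mem_univ v)
            rw [if_pos hv'] at h5
            refine le_trans ?_ h5
            split_ifs <;> norm_num
        · rw [if_pos hβ]
          have : (if β' X ≠ β' (X ∪ P n y) then (1 : ℝ) else 0) ≤ 1 := by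
            split_ifs <;> norm_num
          linarith
      rw [avgY_add, avgY_sum] at h2
      refine h2.trans (add_le_add le_rfl (Finset.sum_le_sum fun v _ => ?_))
      by_cases hX : u v (β X) X
      · have e1 : (fun y => if ¬ u v (β X) X ∧ u v (β X) (X ∪ P n y) then (1 : ℝ) else 0)
            = fun _ => 0 := by
          funext y; rw [if_neg fun h => h.1 hX]
        rw [e1]
        have e2 : avgY (fun _ : I → Fin M => (0 : ℝ)) = 0 := by simp [avgY]
        rw [e2]
        have : 0 ≤ avg (fun C => if ¬ u v (β X) X ∧ u v (β X) (X ∪ E n C) then (1 : ℝ) else 0) :=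
          avg_nonneg fun C => by split_ifs <;> norm_num
        linarith
      · have h3 := hd v (β X) n X
        have e1 : (fun y => if ¬ u v (β X) X ∧ u v (β X) (X ∪ P n y) then (1 : ℝ) else 0)
            = fun y => if u v (β X) (X ∪ P n y) then (1 : ℝ) else 0 := by
          funext y
          by_cases h : u v (β X) (X ∪ P n y)
          · rw [if_pos ⟨hX, h⟩, if_pos h]
          · rw [if_neg fun h' => h h'.2, if_neg h]
        have e2 : (fun C => if ¬ u v (β X) X ∧ u v (β X) (X ∪ E n C) then (1 : ℝ) else 0)
            = ind {C | u v (β X) (X ∪ E n C)} := by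
          funext C
          unfold ind
          by_cases h : u v (β X) (X ∪ E n C)
          · rw [if_pos ⟨hX, h⟩, if_pos (show C ∈ {C | u v (β X) (X ∪ E n C)} from h)]
          · rw [if_neg fun h' => h h'.2, if_neg (show C ∉ {C | u v (β X) (X ∪ E n C)} from h)]
        rw [e1, e2]
        exact h3
    have h2 : avg (fun C => sideC E P β' n (X ∪ E n C))
        ≤ avg (fun C => sideC E P β n (X ∪ E n C))
          + ∑ v, (2 * avg (fun C => froz E β (u v) n (X ∪ E n C)) + 2 * η * n) := by
      refine (avg_mono fun C => ih (X ∪ E n C)).trans (le_of_eq ?_)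
      rw [avg_add, avg_sum]
      congr 1
      refine Finset.sum_congr rfl fun v _ => ?_
      rw [avg_add (fun C => 2 * froz E β (u v) n (X ∪ E n C)) (fun _ => 2 * η * n), avg_smul,
        avg_const]
    have h3 : ∀ v, 2 * avg (fun C => (if ¬ u v (β X) X ∧ u v (β X) (X ∪ E n C) then (1 : ℝ) else 0)
          + froz E β (u v) n (X ∪ E n C)) + 2 * η * ((n + 1 : ℕ) : ℝ)
        = (2 * avg (fun C => if ¬ u v (β X) X ∧ u v (β X) (X ∪ E n C) then (1 : ℝ) else 0) + 2 * η)
          + (2 * avg (fun C => froz E β (u v) n (X ∪ E n C)) + 2 * η * n) := by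
      intro v
      rw [avg_add]; push_cast; ring
    simp_rw [h3]
    rw [Finset.sum_add_distrib]
    linarith

/-- If every minterm changes `β`, there are many side changes. -/
lemma sideC_ge (hM : 0 < M) {B : Type*} (β : Set ι → B) (Good : ℕ → Set ι → Prop)
    (hflip : ∀ n X, Good (n + 1) X → ∀ y, β X ≠ β (X ∪ P n y))
    (hgood : ∀ n X, Good (n + 1) X → ∀ C, Good n (X ∪ E n C)) (n : ℕ) :
    ∀ X, Good n X → (n : ℝ) ≤ sideC E P β n X := by
  classical
  induction n with
  | zero => intro X _; simp [sideC]
  | succ n ih =>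
    intro X hX
    unfold sideC
    have h2 : (1 : ℝ) ≤ avgY (fun y => if β X ≠ β (X ∪ P n y) then (1 : ℝ) else 0) := by
      refine le_trans (le_of_eq (avgY_const (I := I) hM 1).symm) (avgY_mono fun y => ?_)
      rw [if_pos (hflip n X hX y)]
    have h3 : (n : ℝ) ≤ avg (fun C => sideC E P β n (X ∪ E n C)) := by
      refine le_trans (le_of_eq (avg_const (V := I × Fin M) (n : ℝ)).symm) ?_
      exact avg_mono fun C => ih _ (hgood n X hX C)
    push_cast
    linarith

end

section levels

variable {I : Type*} [Fintype I] [DecidableEq I] {M : ℕ} {ι : Type*}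
  (E : ℕ → Finset (I × Fin M) → Set ι) (P : ℕ → (I → Fin M) → Set ι)
  {𝒢 : Type*} (u : 𝒢 → List Bool → Set ι → Prop)

open Classical in
/-- The outputs of levels of NOT gates, added to a list of values. -/
noncomputable def levVals (X : Set ι) : List (List 𝒢) → List Bool → List Bool
  | [], v => v
  | l :: ls, v => levVals X ls (v ++ l.map fun N => !decide (u N v X))

/-- The product of the numbers of gates in the levels, each increased by one. -/
def levProd (ls : List (List 𝒢)) : ℕ := (ls.map fun l => l.length + 1).prod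

/-- The number of gates. -/
def levSum (ls : List (List 𝒢)) : ℕ := (ls.map List.length).sum

lemma levProd_pos (ls : List (List 𝒢)) : 1 ≤ levProd ls := by
  induction ls with
  | nil => simp [levProd]
  | cons l ls ih =>
    have : levProd (l :: ls) = (l.length + 1) * levProd ls := by simp [levProd]
    rw [this]
    exact Nat.mul_pos (by omega) ih

lemma levSum_lt (ls : List (List 𝒢)) : levSum ls + 1 ≤ levProd ls := by
  induction ls with
  | nil => simp [levProd, levSum]
  | cons l ls ih =>
    have e1 : levProd (l :: ls) = (l.length + 1) * levProd ls := by simp [levProd]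
    have e2 : levSum (l :: ls) = l.length + levSum ls := by simp [levSum]
    rw [e1, e2]
    have := levProd_pos ls
    nlinarith

variable {E P u} in
/-- **Levels.** -/
theorem levels_bound (hu : ∀ N b X X', X ⊆ X' → u N b X → u N b X') {η : ℝ} (hη : 0 ≤ η)
    (hd : ∀ N b, Dominated E P η (u N b)) (n : ℕ) (X : Set ι) (ls : List (List 𝒢)) :
    ∀ β : Set ι → List Bool,
      mainC E (fun X => levVals u X ls (β X)) n X + 1 ≤ (mainC E β n X + 1) * levProd ls ∧
      sideC E P (fun X => levVals u X ls (β X)) n X ≤ sideC E P β n X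
        + 2 * (mainC E β n X + 1) * (levProd ls - 1) + 2 * η * n * levSum ls := by
  classical
  induction ls with
  | nil =>
    intro β
    simp [levVals, levProd, levSum]
  | cons l ls ih =>
    intro β
    set β' : Set ι → List Bool := fun X => β X ++ l.map (fun N => !decide (u N (β X) X)) with hβ'
    set w : Fin l.length → List Bool → Set ι → Prop := fun i b X => u (l.get i) b X with hw
    have hr : Refines β β' w := by
      intro X X' h1 h2
      simp only [hβ']
      rw [← h1]
      congr 1
      refine List.map_congr_left fun N hN => ?_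
      obtain ⟨i, hi⟩ := List.get_of_mem hN
      have := h2 i
      simp only [hw, hi] at this
      rw [decide_eq_decide.mpr this]
    have hwm : ∀ v b X X', X ⊆ X' → w v b X → w v b X' := fun v b X X' h1 h2 => hu _ _ _ _ h1 h2
    have hwd : ∀ v b, Dominated E P η (w v b) := fun v b => hd _ _
    have h1 := mainC_step E hwm hr n X
    have h2 := sideC_step E P hwm hr hη hwd n X
    have hfr : ∀ v, froz E β (w v) n X ≤ mainC E β n X + 1 :=
      fun v => froz_le' E β (w v) (hwm v) n X
    set m := mainC E β n X with hm
    have hm0 : 0 ≤ m := mainC_nonneg E β n X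
    have h3 : ∑ v, froz E β (w v) n X ≤ l.length * (m + 1) := by
      refine (Finset.sum_le_sum fun v _ => hfr v).trans ?_
      rw [Finset.sum_const, nsmul_eq_mul, Finset.card_univ, Fintype.card_fin]
    have h4 : ∑ v, (2 * froz E β (w v) n X + 2 * η * n)
        ≤ l.length * (2 * (m + 1) + 2 * η * n) := by
      refine (Finset.sum_le_sum (g := fun _ => 2 * (m + 1) + 2 * η * (n : ℝ)) fun v _ => by
        have := hfr v; linarith).trans ?_
      rw [Finset.sum_const, nsmul_eq_mul, Finset.card_univ, Fintype.card_fin]
    obtain ⟨h5, h6⟩ := ih β'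
    have e1 : levProd (l :: ls) = (l.length + 1) * levProd ls := by simp [levProd]
    have e2 : levSum (l :: ls) = l.length + levSum ls := by simp [levSum]
    have hP : (1 : ℝ) ≤ levProd ls := by exact_mod_cast levProd_pos ls
    have e3 : (fun X => levVals u X (l :: ls) (β X)) = fun X => levVals u X ls (β' X) := rfl
    rw [e3, e1, e2]
    push_cast
    have hL : (0 : ℝ) ≤ (l.length : ℝ) := by positivity
    have h7 : mainC E β' n X + 1 ≤ (m + 1) * (l.length + 1) := by linarith
    refine ⟨?_, ?_⟩
    · refine h5.trans ?_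
      calc (mainC E β' n X + 1) * (levProd ls : ℝ) ≤ ((m + 1) * (l.length + 1)) * levProd ls :=
            mul_le_mul_of_nonneg_right h7 (by linarith)
        _ = _ := by ring
    · have h8 : 2 * (mainC E β' n X + 1) * ((levProd ls : ℝ) - 1)
          ≤ 2 * ((m + 1) * (l.length + 1)) * ((levProd ls : ℝ) - 1) := by
        apply mul_le_mul_of_nonneg_right _ (by linarith)
        linarith
      calc _ ≤ sideC E P β' n X + 2 * (mainC E β' n X + 1) * ((levProd ls : ℝ) - 1)
            + 2 * η * n * levSum ls := h6
        _ ≤ (sideC E P β n X + l.length * (2 * (m + 1) + 2 * η * n))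
            + 2 * ((m + 1) * (l.length + 1)) * ((levProd ls : ℝ) - 1) + 2 * η * n * levSum ls := by
            linarith
        _ = _ := by ring

variable {E P u} in
/-- **Few NOT gates in levels cannot notice all flips.** If the pattern of the `T` outputs changes
with every minterm, then `r ≤ 3 ((T + 1) ∏ (tᵢ + 1) - 1)`. -/
theorem levels_main (hM : 0 < M) (hu : ∀ N b X X', X ⊆ X' → u N b X → u N b X')
    (r : ℕ) (hr : 0 < r) (hd : ∀ N b, Dominated E P (1 / (2 * (r : ℝ))) (u N b))
    (ls : List (List 𝒢)) (T : ℕ) (outs : Fin T → 𝒢) (Good : ℕ → Set ι → Prop)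
    (hflip : ∀ n X, Good (n + 1) X → ∀ y, ∃ i,
      ¬ (u (outs i) (levVals u X ls []) X ↔
        u (outs i) (levVals u (X ∪ P n y) ls []) (X ∪ P n y)))
    (hgood : ∀ n X, Good (n + 1) X → ∀ C, Good n (X ∪ E n C)) (X : Set ι)
    (hX : Good r X) : r < 3 * ((T + 1) * levProd ls) := by
  classical
  set η : ℝ := 1 / (2 * (r : ℝ)) with hη
  have hrR : (0 : ℝ) < r := by exact_mod_cast hr
  have hη0 : 0 ≤ η := by positivity
  set β : Set ι → List Bool := fun X => levVals u X ls [] with hβ
  set ω : Set ι → (Fin T → Prop) := fun X i => u (outs i) (β X) X with hω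
  set w : Fin T → List Bool → Set ι → Prop := fun i b X => u (outs i) b X with hw
  have hrf : Refines β ω w := by
    intro X X' h1 h2
    funext i
    simp only [hω]
    rw [← h1]
    exact propext (h2 i)
  have h1 := sideC_step E P (u := w) (fun v b X X' h1 h2 => hu _ _ _ _ h1 h2) hrf hη0
    (fun v b => hd _ _) r X
  obtain ⟨h2, h3⟩ := levels_bound (E := E) (P := P) hu hη0 hd r X ls (fun _ => [])
  have hm0 : mainC E (fun _ : Set ι => ([] : List Bool)) r X = 0 := by
    have : ∀ n X, mainC E (fun _ : Set ι => ([] : List Bool)) n X = 0 := by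
      intro n
      induction n with
      | zero => intro X; rfl
      | succ n ih => intro X; unfold mainC; simp [ih, avg]
    exact this r X
  have hs0 : sideC E P (fun _ : Set ι => ([] : List Bool)) r X = 0 := by
    have : ∀ n X, sideC E P (fun _ : Set ι => ([] : List Bool)) n X = 0 := by
      intro n
      induction n with
      | zero => intro X; rfl
      | succ n ih => intro X; unfold sideC; simp [ih, avg, avgY]
    exact this r X
  rw [hm0] at h2 h3
  rw [hs0] at h3
  have hfr : ∀ v, froz E β (w v) r X ≤ mainC E β r X + 1 :=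
    fun v => froz_le' E β (w v) (fun b X X' h1 h2 => hu _ _ _ _ h1 h2) r X
  have h4 : ∑ v, (2 * froz E β (w v) r X + 2 * η * r)
      ≤ T * (2 * (mainC E β r X + 1) + 2 * η * r) := by
    refine (Finset.sum_le_sum (g := fun _ => 2 * (mainC E β r X + 1) + 2 * η * (r : ℝ))
      fun v _ => by have := hfr v; linarith).trans ?_
    rw [Finset.sum_const, nsmul_eq_mul, Finset.card_univ, Fintype.card_fin]
  have h5 : (r : ℝ) ≤ sideC E P ω r X := by
    refine sideC_ge E P hM ω Good ?_ hgood r X hX
    intro n X hX y heq
    obtain ⟨i, hi⟩ := hflip n X hX y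
    exact hi (by have := congrFun heq i; simp only [hω] at this; rw [this])
  have hηr : 2 * η * r = 1 := by rw [hη]; field_simp
  have hS : ((levSum ls : ℕ) : ℝ) + 1 ≤ levProd ls := by exact_mod_cast levSum_lt ls
  have hT0 : (0 : ℝ) ≤ T := by positivity
  set W : ℝ := (levProd ls : ℝ) with hW
  have hW1 : 1 ≤ W := by rw [hW]; exact_mod_cast levProd_pos ls
  rw [hηr] at h3 h4
  have h6 : (T : ℝ) * (2 * (mainC E β r X + 1) + 1) ≤ T * (2 * W + 1) := by
    apply mul_le_mul_of_nonneg_left _ hT0
    have : mainC E β r X + 1 ≤ W := by simpa using h2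
    linarith
  have h7 : sideC E P β r X ≤ 2 * (W - 1) + levSum ls := by
    have := h3
    simp only [zero_add, mul_one, one_mul] at this
    exact this
  have h8 : (r : ℝ) ≤ 2 * (W - 1) + (W - 1) + T * (2 * W + 1) := by
    have h9 : (r : ℝ) ≤ sideC E P β r X + ∑ v, (2 * froz E β (w v) r X + 2 * η * r) := h5.trans h1
    rw [hηr] at h9
    linarith
  have h10 : (T : ℝ) ≤ T * W := by nlinarith
  have h11 : (r : ℝ) < 3 * ((T + 1) * W) := by nlinarith
  rw [hW] at h11
  exact_mod_cast h11

end levels

end Pool.Agent.TeleNeg
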