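import Pool.Agent.TeleNeg.NetTrace
import Pool.Agent.TeleNeg.Lev

/-!
# Networks with frozen values of the NOT gates
-/

namespace Pool.Agent.TeleNeg

open Finset

section

variable {ι : Type} {S : ℕ}

/-- Replace the labels of NOT gates by constants. -/
def Net.subst (N : Net (ι ⊕ ℕ) S) (v : List Bool) : Net ι S where
  contacts := {c | ∃ l', (c.1, c.2.1, l') ∈ N.contacts ∧
    ((l' = none ∧ c.2.2 = none) ∨ (∃ e, l' = some (Sum.inl e) ∧ c.2.2 = some e) ∨
      (∃ k, l' = some (Sum.inr k) ∧ v.getD k false = true ∧ c.2.2 = none))}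
  src := N.src
  tgt := N.tgt

lemma Net.subst_linked (N : Net (ι ⊕ ℕ) S) (v : List Bool) (x : ι → Bool) (a b : Fin S) :
    (N.subst v).Linked x a b ↔ N.Linked (labels x v) a b := by
  constructor
  · rintro ⟨l, h1, h2⟩
    rcases h1 with h1 | h1
    · obtain ⟨l', h3, h4⟩ := h1
      refine ⟨l', Or.inl h3, ?_⟩
      rcases h4 with ⟨rfl, _⟩ | ⟨e, rfl, h5⟩ | ⟨k, rfl, h5, _⟩
      · simp
      · intro e' he'
        rw [Option.mem_def, Option.some.injEq] at he'
        subst he'
        exact h2 e h5
      · intro e' he'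
        rw [Option.mem_def, Option.some.injEq] at he'
        subst he'
        exact h5
    · obtain ⟨l', h3, h4⟩ := h1
      refine ⟨l', Or.inr h3, ?_⟩
      rcases h4 with ⟨rfl, _⟩ | ⟨e, rfl, h5⟩ | ⟨k, rfl, h5, _⟩
      · simp
      · intro e' he'
        rw [Option.mem_def, Option.some.injEq] at he'
        subst he'
        exact h2 e h5
      · intro e' he'
        rw [Option.mem_def, Option.some.injEq] at he'
        subst he'
        exact h5
  · rintro ⟨l', h1, h2⟩
    rcases l' with _ | (e | k)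
    · refine ⟨none, ?_, by simp⟩
      rcases h1 with h1 | h1
      · exact Or.inl ⟨none, h1, Or.inl ⟨rfl, rfl⟩⟩
      · exact Or.inr ⟨none, h1, Or.inl ⟨rfl, rfl⟩⟩
    · have he : x e = true := h2 (Sum.inl e) rfl
      refine ⟨some e, ?_, ?_⟩
      · rcases h1 with h1 | h1
        · exact Or.inl ⟨_, h1, Or.inr (Or.inl ⟨e, rfl, rfl⟩)⟩
        · exact Or.inr ⟨_, h1, Or.inr (Or.inl ⟨e, rfl, rfl⟩)⟩
      · intro e' he'
        rw [Option.mem_def, Option.some.injEq] at he'
        subst he'
        exact he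
    · have hk : v.getD k false = true := h2 (Sum.inr k) rfl
      refine ⟨none, ?_, by simp⟩
      rcases h1 with h1 | h1
      · exact Or.inl ⟨_, h1, Or.inr (Or.inr ⟨k, rfl, hk, rfl⟩)⟩
      · exact Or.inr ⟨_, h1, Or.inr (Or.inr ⟨k, rfl, hk, rfl⟩)⟩

lemma Net.subst_accepts (N : Net (ι ⊕ ℕ) S) (v : List Bool) (x : ι → Bool) :
    (N.subst v).Accepts x ↔ N.Accepts (labels x v) := by
  unfold Net.Accepts
  have : (N.subst v).Linked x = N.Linked (labels x v) := by
    funext a b; exact propext (N.subst_linked v x a b)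
  rw [this]; rfl

lemma Net.subst_val (N : Net (ι ⊕ ℕ) S) (v : List Bool) (x : ι → Bool) :
    (N.subst v).val x = N.val (labels x v) := by
  unfold Net.val
  exact decide_eq_decide.mpr (Net.subst_accepts N v x)

/-- The condition that the network fed by the guessed values `b` of the NOT gates accepts. -/
def netU (N : Net (ι ⊕ ℕ) S) (b : List Bool) (X : Set ι) : Prop := (N.subst b).Accepts (inp X)

lemma netU_iff (N : Net (ι ⊕ ℕ) S) (b : List Bool) (X : Set ι) :
    netU N b X ↔ N.val (labels (inp X) b) = true := by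
  unfold netU Net.val
  rw [Net.subst_accepts]
  simp

lemma netU_mono (N : Net (ι ⊕ ℕ) S) (b : List Bool) (X X' : Set ι) (h : X ⊆ X') :
    netU N b X → netU N b X' :=
  fun hh => Net.accepts_mono (N.subst b) (fun _ he => inp_iff.mpr (h (inp_iff.mp he))) hh

lemma levVals_netU (X : Set ι) (ls : List (List (Net (ι ⊕ ℕ) S))) :
    ∀ v, levVals netU X ls v = notVals (inp X) ls v := by
  classical
  induction ls with
  | nil => intro v; rfl
  | cons l ls ih =>
    intro v
    simp only [levVals, notVals]
    rw [ih]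
    congr 2
    refine List.map_congr_left fun N _ => ?_
    congr 1
    rw [Bool.eq_iff_iff, decide_eq_true_iff]
    exact netU_iff N v X

end

end Pool.Agent.TeleNeg
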