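import Pool.Agent.TeleNeg.NetTrace

/-!
# Monotone formulas are dominated
-/

namespace Pool.Agent.TeleNeg

open Finset
open scoped BigOperators

set_option linter.unusedSectionVars false

/-- Monotone formulas. -/
inductive Fm (ι : Type) : Type
  | tt : Fm ι
  | ff : Fm ι
  | var (e : ι) : Fm ι
  | and (φ ψ : Fm ι) : Fm ι
  | or (φ ψ : Fm ι) : Fm ι

/-- Truth value of a formula. -/
def Fm.Holds {ι : Type} (x : ι → Bool) : Fm ι → Prop
  | .tt => True
  | .ff => False
  | .var e => x e = true
  | .and φ ψ => φ.Holds x ∧ ψ.Holds x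
  | .or φ ψ => φ.Holds x ∨ ψ.Holds x

/-- Number of leaves labelled by variables. -/
def Fm.leaves {ι : Type} : Fm ι → ℕ
  | .tt => 0
  | .ff => 0
  | .var _ => 1
  | .and φ ψ => φ.leaves + ψ.leaves
  | .or φ ψ => φ.leaves + ψ.leaves

lemma Fm.holds_mono {ι : Type} {x x' : ι → Bool} (h : ∀ e, x e = true → x' e = true) (φ : Fm ι) :
    φ.Holds x → φ.Holds x' := by
  induction φ with
  | tt => exact id
  | ff => exact id
  | var e => exact h e
  | and φ ψ ih1 ih2 => exact fun hh => ⟨ih1 hh.1, ih2 hh.2⟩
  | or φ ψ ih1 ih2 => exact fun hh => hh.imp ih1 ih2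

section

variable {I : Type*} [Fintype I] [DecidableEq I] {M : ℕ}
  {rules : Set (Finset I × Option I)} {d : ℕ} {R : Finset I → Prop}

/-- The states of a formula. -/
def fstates {ι : Type} (F : Finset (I × Fin M) → ι → Bool) :
    Fm ι → Set (Finset (I × Fin M)) → List (Set (Finset (I × Fin M)))
  | .tt, _ => []
  | .ff, _ => []
  | .var e, u => [u, u ∩ {C | F C e = true}]
  | .and φ ψ, u => fstates F φ u ++ fstates F ψ (u ∩ {C | φ.Holds (F C)})
  | .or φ ψ, u => fstates F φ (u \ {C | ψ.Holds (F C)}) ++ fstates F ψ (u \ {C | φ.Holds (F C)})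

lemma fstates_length {ι : Type} (F : Finset (I × Fin M) → ι → Bool) (φ : Fm ι) :
    ∀ u, (fstates F φ u).length = 2 * φ.leaves := by
  induction φ with
  | tt => intro u; rfl
  | ff => intro u; rfl
  | var e => intro u; rfl
  | and φ ψ ih1 ih2 =>
    intro u
    simp only [fstates, List.length_append, ih1, ih2, Fm.leaves]; ring
  | or φ ψ ih1 ih2 =>
    intro u
    simp only [fstates, List.length_append, ih1, ih2, Fm.leaves]; ring

lemma pot_split (y : I → Fin M) (u v : Set (Finset (I × Fin M))) :
    pot R d y u = pot R d y (u ∩ v) + pot R d y (u \ v) := by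
  unfold pot
  rw [← avg_add]
  congr 1
  funext C
  have : ind u C = ind (u ∩ v) C + ind (u \ v) C := by
    unfold ind
    by_cases h1 : C ∈ u <;> by_cases h2 : C ∈ v <;> simp [h1, h2]
  rw [this]; ring

/-- Potential drop along a formula. -/
lemma pot_formula {ι : Type} (h : Consistent rules d R) {D κ : ℕ} (hD : D + κ ≤ d)
    (hκ : ∀ A w, (A, w) ∈ rules → (A ∪ w.toFinset).card ≤ κ)
    (F : Finset (I × Fin M) → ι → Bool) (x : ι → Bool) (y : I → Fin M)
    (hF : ∀ e, x e = true → (∀ C, F C e = true) ∨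
      ∃ A w, (A, w) ∈ rules ∧ ∀ C, F C e ≠ true → cross A w (pull y C) = 1)
    (φ : Fm ι) : ∀ u, φ.Holds x →
      |pot R d y u - pot R d y (u ∩ {C | φ.Holds (F C)})|
        ≤ ((fstates F φ u).map (wt d D y)).sum := by
  induction φ with
  | tt =>
    intro u _
    have : u ∩ {C | (Fm.tt : Fm ι).Holds (F C)} = u := by
      ext C; simp [Fm.Holds]
    rw [this]; simp [fstates]
  | ff => intro u hx; exact absurd hx id
  | var e =>
    intro u hx
    have e1 : ((fstates F (Fm.var e) u).map (wt d D y)).sum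
        = wt d D y u + wt d D y (u ∩ {C | F C e = true}) := by
      simp [fstates]
    rw [e1]
    change |pot R d y u - pot R d y (u ∩ {C | F C e = true})| ≤ _
    rcases hF e hx with h1 | ⟨A, w, hr, hcr⟩
    · have : u ∩ {C | F C e = true} = u := by
        ext C; simp [h1]
      rw [this, sub_self, abs_zero]
      exact add_nonneg (wt_nonneg _ _ _ _) (wt_nonneg _ _ _ _)
    · refine pot_sub_le h hD y hr (hκ _ _ hr) _ _ ?_
      intro C hC
      have h2 : F C e = true := by
        by_contra h3
        exact hC (hcr C h3)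
      constructor
      · intro h4; exact ⟨h4, h2⟩
      · intro h4; exact h4.1
  | and φ ψ ih1 ih2 =>
    intro u hx
    have h1 := ih1 u hx.1
    have h2 := ih2 (u ∩ {C | φ.Holds (F C)}) hx.2
    have e1 : u ∩ {C | (φ.and ψ).Holds (F C)}
        = u ∩ {C | φ.Holds (F C)} ∩ {C | ψ.Holds (F C)} := by
      ext C; simp [Fm.Holds, and_assoc]
    rw [e1]
    simp only [fstates, List.map_append, List.sum_append]
    refine (abs_sub_le _ (pot R d y (u ∩ {C | φ.Holds (F C)})) _).trans (add_le_add h1 h2)
  | or φ ψ ih1 ih2 =>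
    intro u hx
    simp only [fstates, List.map_append, List.sum_append]
    have nn : ∀ L : List (Set (Finset (I × Fin M))), 0 ≤ (L.map (wt d D y)).sum := by
      intro L
      apply List.sum_nonneg
      intro a ha
      obtain ⟨b, _, rfl⟩ := List.mem_map.mp ha
      exact wt_nonneg _ _ _ _
    have key : ∀ θ ω : Fm ι, u ∩ {C | (φ.or ψ).Holds (F C)}
          = u ∩ ({C | ω.Holds (F C)} ∪ {C | θ.Holds (F C)}) →
        pot R d y u - pot R d y (u ∩ {C | (φ.or ψ).Holds (F C)})
        = pot R d y (u \ {C | ω.Holds (F C)})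
          - pot R d y ((u \ {C | ω.Holds (F C)}) ∩ {C | θ.Holds (F C)}) := by
      intro θ ω hθ
      rw [hθ]
      have h1 := pot_split (R := R) (d := d) y u {C | ω.Holds (F C)}
      have h2 := pot_split (R := R) (d := d) y
        (u ∩ ({C | ω.Holds (F C)} ∪ {C | θ.Holds (F C)})) {C | ω.Holds (F C)}
      have e1 : u ∩ ({C | ω.Holds (F C)} ∪ {C | θ.Holds (F C)}) ∩ {C | ω.Holds (F C)}
          = u ∩ {C | ω.Holds (F C)} := by
        ext C
        simp only [Set.mem_inter_iff, Set.mem_union]
        tauto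
      have e2 : (u ∩ ({C | ω.Holds (F C)} ∪ {C | θ.Holds (F C)})) \ {C | ω.Holds (F C)}
          = (u \ {C | ω.Holds (F C)}) ∩ {C | θ.Holds (F C)} := by
        ext C
        simp only [Set.mem_inter_iff, Set.mem_union, Set.mem_sdiff]
        tauto
      rw [e1, e2] at h2
      linarith
    rcases hx with hx | hx
    · rw [key φ ψ (by
        ext C
        simp only [Fm.Holds, Set.mem_inter_iff, Set.mem_union, Set.mem_ofPred_eq]
        tauto)]
      have := ih1 (u \ {C | ψ.Holds (F C)}) hx
      linarith [nn (fstates F ψ (u \ {C | φ.Holds (F C)}))]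
    · rw [key ψ φ (by
        ext C
        simp only [Fm.Holds, Set.mem_inter_iff, Set.mem_union, Set.mem_ofPred_eq])]
      have := ih2 (u \ {C | φ.Holds (F C)}) hx
      linarith [nn (fstates F φ (u \ {C | ψ.Holds (F C)}))]

/-- **Formulas are dominated.** -/
theorem Fm.dominated {ι : Type} {S : ℕ} {η : ℝ} (hp : Params rules R M S η)
    {E : ℕ → Finset (I × Fin M) → Set ι} {P : ℕ → (I → Fin M) → Set ι} (hF : Fits rules E P)
    (φ : Fm ι) (hS : φ.leaves ≤ S) : Dominated E P η (fun X => φ.Holds (inp X)) := by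
  classical
  obtain ⟨d, D, κ, s, β, hc, hd, hI, hs, hMs, hD, hκ, hβ0, hβ, hη⟩ := hp.ex
  have hIM : Fintype.card I ≤ M := by
    refine le_trans ?_ hMs
    have : 1 ≤ 81 * (2 * s - 1) := by omega
    nlinarith
  intro n X
  set F : Finset (I × Fin M) → ι → Bool := fun C => inp (X ∪ E n C) with hFdef
  set L := fstates F φ Set.univ with hL
  have hlen : L.length = 2 * φ.leaves := fstates_length F φ _
  refine block_gen hc hd hI s hs hMs {C | φ.Holds (inp (X ∪ E n C))}
    (fun y => φ.Holds (inp (X ∪ P n y))) (fun y => (L.map (wt d D y)).sum) ?_ ?_ (2 * S * β) η ?_ hη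
  · intro y
    apply List.sum_nonneg
    intro a ha
    obtain ⟨b, _, rfl⟩ := List.mem_map.mp ha
    exact wt_nonneg _ _ _ _
  · intro y hy
    have h1 := pot_formula hc hD hκ F (inp (X ∪ P n y)) y ?_ φ Set.univ hy
    · rw [pot_univ hc hd y, Set.univ_inter] at h1
      exact (le_abs_self _).trans h1
    · intro e he
      rcases inp_iff.mp he with he | he
      · exact Or.inl fun C => inp_iff.mpr (Or.inl he)
      · right
        obtain ⟨A, w, hr, hcr⟩ := hF n y e he
        refine ⟨A, w, hr, fun C hC => hcr C fun h => hC (inp_iff.mpr (Or.inr h))⟩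
  · have h1 : ∀ L' : List (Set (Finset (I × Fin M))),
        avgY (fun y => (L'.map (wt d D y)).sum) ≤ L'.length * β := by
      intro L'
      induction L' with
      | nil => simp [avgY]
      | cons u L' ih =>
        simp only [List.map_cons, List.sum_cons, List.length_cons]
        rw [avgY_add]
        have := avgY_wt_le' hI hIM D β hβ0 hβ u
        push_cast
        linarith
    refine (h1 L).trans ?_
    rw [hlen]
    have : ((2 * φ.leaves : ℕ) : ℝ) ≤ 2 * S := by exact_mod_cast Nat.mul_le_mul_left 2 hS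
    exact mul_le_mul_of_nonneg_right this hβ0

end

end Pool.Agent.TeleNeg
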