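import Pool.Agent.TeleNeg.Pseudo

/-!
# Open paths in a grid: a consistent predicate for the grid-shaped derivations
-/

namespace Pool.Agent.TeleNeg

open Finset

/-- There is a monotone lattice path from `(a, b)` to the boundary `a = H ∨ b = H` which avoids
`B`. -/
inductive Op (H : ℕ) (B : Finset (ℕ × ℕ)) : ℕ → ℕ → Prop
  | src (a b : ℕ) (h : a = H ∨ b = H) (hB : (a, b) ∉ B) : Op H B a b
  | fst (a b : ℕ) (ha : a < H) (hb : b < H) (hB : (a, b) ∉ B) (h : Op H B (a + 1) b) : Op H B a b
  | snd (a b : ℕ) (ha : a < H) (hb : b < H) (hB : (a, b) ∉ B) (h : Op H B a (b + 1)) : Op H B a b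

lemma Op.not_mem {H : ℕ} {B : Finset (ℕ × ℕ)} {a b : ℕ} (h : Op H B a b) : (a, b) ∉ B := by
  cases h <;> assumption

/-- Monotonicity and locality: only the points in the cone of `(a, b)` matter. -/
lemma Op.congr {H : ℕ} {B B' : Finset (ℕ × ℕ)} {a b : ℕ} (h : Op H B a b) :
    (∀ a' b', a ≤ a' → b ≤ b' → (a', b') ∈ B' → (a', b') ∈ B) → Op H B' a b := by
  induction h with
  | src a b h hB => intro hh; exact Op.src a b h fun h' => hB (hh a b le_rfl le_rfl h')
  | fst a b ha hb hB _ ih =>
    intro hh
    exact Op.fst a b ha hb (fun h' => hB (hh a b le_rfl le_rfl h'))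
      (ih fun a' b' h1 h2 h3 => hh a' b' (by omega) h2 h3)
  | snd a b ha hb hB _ ih =>
    intro hh
    exact Op.snd a b ha hb (fun h' => hB (hh a b le_rfl le_rfl h'))
      (ih fun a' b' h1 h2 h3 => hh a' b' h1 (by omega) h3)

lemma op_line_snd {H : ℕ} {B : Finset (ℕ × ℕ)} {a : ℕ} (ha : a < H) (n : ℕ) :
    ∀ b, b + n = H → (∀ b', b ≤ b' → b' ≤ H → (a, b') ∉ B) → Op H B a b := by
  induction n with
  | zero => intro b hb h; exact Op.src a b (Or.inr (by omega)) (h b le_rfl (by omega))
  | succ n ih =>
    intro b hb h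
    exact Op.snd a b ha (by omega) (h b le_rfl (by omega))
      (ih (b + 1) (by omega) fun b' h1 h2 => h b' (by omega) h2)

lemma op_line_fst {H : ℕ} {B : Finset (ℕ × ℕ)} {b : ℕ} (hb : b < H) (n : ℕ) :
    ∀ a, a + n = H → (∀ a', a ≤ a' → a' ≤ H → (a', b) ∉ B) → Op H B a b := by
  induction n with
  | zero => intro a ha h; exact Op.src a b (Or.inl (by omega)) (h a le_rfl (by omega))
  | succ n ih =>
    intro a ha h
    exact Op.fst a b (by omega) hb (h a le_rfl (by omega))
      (ih (a + 1) (by omega) fun a' h1 h2 => h a' (by omega) h2)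

/-- The part of `B` in the cone of `(a, b)`. -/
def cone (B : Finset (ℕ × ℕ)) (a b : ℕ) : Finset (ℕ × ℕ) := B.filter fun p => a ≤ p.1 ∧ b ≤ p.2

lemma mem_cone {B : Finset (ℕ × ℕ)} {a b x y : ℕ} :
    (x, y) ∈ cone B a b ↔ (x, y) ∈ B ∧ a ≤ x ∧ b ≤ y := by simp [cone]

/-- If the boundary point `w` closes the last open path, many points are already blocked. -/
lemma close_card {H : ℕ} {B : Finset (ℕ × ℕ)} {w : ℕ × ℕ} (hw : w.1 = H ∨ w.2 = H)
    {a b : ℕ} (h : Op H B a b) : a ≤ H → b ≤ H → ¬ Op H (insert w B) a b →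
      H ≤ (cone B a b).card + max a b := by
  induction h with
  | src a b h hB => intro _ _ _; rcases h with h | h <;> omega
  | fst a b ha hb hB h ih =>
    intro _ _ hn
    have hnw : (a, b) ∉ insert w B := by
      rw [mem_insert, not_or]
      refine ⟨?_, hB⟩
      rintro rfl
      simp only at hw
      omega
    have h1 : ¬ Op H (insert w B) (a + 1) b := fun h' => hn (Op.fst a b ha hb hnw h')
    have h2 : ¬ Op H (insert w B) a (b + 1) := fun h' => hn (Op.snd a b ha hb hnw h')
    have h3 := ih (by omega) (by omega) h1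
    -- a blocked point on the line `(a, b')`, `b' > b`
    have h4 : ∃ b', b < b' ∧ (a, b') ∈ B := by
      by_contra hcon
      push Not at hcon
      have h5 : w.1 = a ∧ w.2 = H := by
        by_contra hne
        refine h2 (op_line_snd ha (H - (b + 1)) (b + 1) (by omega) ?_)
        intro b' hb1 hb2 hmem
        rw [mem_insert] at hmem
        rcases hmem with hmem | hmem
        · rw [← hmem] at hw hne
          exact hne ⟨rfl, by simp only at hw; omega⟩
        · exact hcon b' (by omega) hmem
      refine h1 (h.congr fun a' b' h6 h7 h8 => ?_)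
      rw [mem_insert] at h8
      rcases h8 with h8 | h8
      · rw [← h8] at h5
        simp only at h5
        omega
      · exact h8
    obtain ⟨b', hb', hmem⟩ := h4
    have h5 : (cone B (a + 1) b).card + 1 ≤ (cone B a b).card := by
      have h6 : (a, b') ∉ cone B (a + 1) b := by
        intro h7
        have := (mem_cone.mp h7).2.1
        omega
      rw [← card_insert_of_notMem h6]
      apply card_le_card
      intro p hp
      rw [mem_insert] at hp
      rcases hp with rfl | hp
      · rw [mem_cone]; exact ⟨hmem, le_rfl, by omega⟩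
      · obtain ⟨x, y⟩ := p
        rw [mem_cone] at hp ⊢
        exact ⟨hp.1, by omega, hp.2.2⟩
    omega
  | snd a b ha hb hB h ih =>
    intro _ _ hn
    have hnw : (a, b) ∉ insert w B := by
      rw [mem_insert, not_or]
      refine ⟨?_, hB⟩
      rintro rfl
      simp only at hw
      omega
    have h1 : ¬ Op H (insert w B) (a + 1) b := fun h' => hn (Op.fst a b ha hb hnw h')
    have h2 : ¬ Op H (insert w B) a (b + 1) := fun h' => hn (Op.snd a b ha hb hnw h')
    have h3 := ih (by omega) (by omega) h2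
    have h4 : ∃ a', a < a' ∧ (a', b) ∈ B := by
      by_contra hcon
      push Not at hcon
      have h5 : w.2 = b ∧ w.1 = H := by
        by_contra hne
        refine h1 (op_line_fst hb (H - (a + 1)) (a + 1) (by omega) ?_)
        intro a' ha1 ha2 hmem
        rw [mem_insert] at hmem
        rcases hmem with hmem | hmem
        · rw [← hmem] at hw hne
          exact hne ⟨rfl, by simp only at hw; omega⟩
        · exact hcon a' (by omega) hmem
      refine h2 (h.congr fun a' b' h6 h7 h8 => ?_)
      rw [mem_insert] at h8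
      rcases h8 with h8 | h8
      · rw [← h8] at h5
        simp only at h5
        omega
      · exact h8
    obtain ⟨a', ha', hmem⟩ := h4
    have h5 : (cone B a (b + 1)).card + 1 ≤ (cone B a b).card := by
      have h6 : (a', b) ∉ cone B a (b + 1) := by
        intro h7
        have := (mem_cone.mp h7).2.2
        omega
      rw [← card_insert_of_notMem h6]
      apply card_le_card
      intro p hp
      rw [mem_insert] at hp
      rcases hp with rfl | hp
      · rw [mem_cone]; exact ⟨hmem, by omega, le_rfl⟩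
      · obtain ⟨x, y⟩ := p
        rw [mem_cone] at hp ⊢
        exact ⟨hp.1, hp.2.1, by omega⟩
    omega

lemma op_boundary {H : ℕ} {B : Finset (ℕ × ℕ)} {w : ℕ × ℕ} (hw : w.1 = H ∨ w.2 = H)
    (hcard : (insert w B).card ≤ H) : Op H B 0 0 ↔ Op H (insert w B) 0 0 := by
  by_cases hwB : w ∈ B
  · rw [insert_eq_of_mem hwB]
  constructor
  · intro h
    by_contra hn
    have h1 := close_card hw h (Nat.zero_le _) (Nat.zero_le _) hn
    have h2 : (cone B 0 0).card ≤ B.card := card_le_card (filter_subset _ _)
    rw [card_insert_of_notMem hwB] at hcard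
    simp only [max_self, add_zero] at h1
    omega
  · intro h
    exact h.congr fun a' b' _ _ h3 => mem_insert_of_mem h3

/-- Blocking a point both successors of which are blocked changes nothing. -/
lemma op_inner {H : ℕ} {B : Finset (ℕ × ℕ)} {u v : ℕ} (hu : u < H) (hv : v < H)
    (h1 : (u + 1, v) ∈ B) (h2 : (u, v + 1) ∈ B) {a b : ℕ} :
    Op H B a b → (a, b) ≠ (u, v) → Op H (insert (u, v) B) a b := by
  intro h
  induction h with
  | src a b h hB =>
    intro hne
    exact Op.src a b h (by rw [mem_insert, not_or]; exact ⟨hne, hB⟩)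
  | fst a b ha hb hB h ih =>
    intro hne
    refine Op.fst a b ha hb (by rw [mem_insert, not_or]; exact ⟨hne, hB⟩) (ih ?_)
    intro heq
    rw [Prod.mk.injEq] at heq
    obtain ⟨rfl, rfl⟩ := heq
    -- the next point `(u, v)` is open in `B` but its successors are blocked
    cases h with
    | src _ _ h' _ => omega
    | fst _ _ _ _ _ h' => exact h'.not_mem h1
    | snd _ _ _ _ _ h' => exact h'.not_mem h2
  | snd a b ha hb hB h ih =>
    intro hne
    refine Op.snd a b ha hb (by rw [mem_insert, not_or]; exact ⟨hne, hB⟩) (ih ?_)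
    intro heq
    rw [Prod.mk.injEq] at heq
    obtain ⟨rfl, rfl⟩ := heq
    cases h with
    | src _ _ h' _ => omega
    | fst _ _ _ _ _ h' => exact h'.not_mem h1
    | snd _ _ _ _ _ h' => exact h'.not_mem h2

lemma op_inner_iff {H : ℕ} {B : Finset (ℕ × ℕ)} {u v : ℕ} (hu : u < H) (hv : v < H)
    (h1 : (u + 1, v) ∈ B) (h2 : (u, v + 1) ∈ B) :
    Op H B 0 0 ↔ Op H (insert (u, v) B) 0 0 := by
  constructor
  · intro h
    refine op_inner hu hv h1 h2 h ?_
    intro heq
    rw [Prod.mk.injEq] at heq
    obtain ⟨rfl, rfl⟩ := heq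
    cases h with
    | src _ _ h' _ => omega
    | fst _ _ _ _ _ h' => exact h'.not_mem h1
    | snd _ _ _ _ _ h' => exact h'.not_mem h2
  · intro h
    exact h.congr fun a' b' _ _ h3 => mem_insert_of_mem h3

/-- Grid positions. -/
abbrev Gp (H : ℕ) : Type := Fin (H + 1) × Fin (H + 1)

/-- The rules of the grid. -/
def gridRules (H : ℕ) : Set (Finset (Gp H) × Option (Gp H)) :=
  {q | (∃ v : Gp H, (v.1 = Fin.last H ∨ v.2 = Fin.last H) ∧ q = (∅, some v)) ∨
    (∃ a b : Fin H, q = ({(a.succ, b.castSucc), (a.castSucc, b.succ)},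
      some (a.castSucc, b.castSucc))) ∨ q = ({(0, 0)}, none)}

lemma gridRules_card {H : ℕ} {A : Finset (Gp H)} {w : Option (Gp H)}
    (h : (A, w) ∈ gridRules H) : (A ∪ w.toFinset).card ≤ 3 := by
  rcases h with ⟨v, _, h⟩ | ⟨a, b, h⟩ | h
  · rw [Prod.mk.injEq] at h
    obtain ⟨rfl, rfl⟩ := h
    simp
  · rw [Prod.mk.injEq] at h
    obtain ⟨rfl, rfl⟩ := h
    refine (card_union_le _ _).trans ?_
    have : ({(a.succ, b.castSucc), (a.castSucc, b.succ)} : Finset (Gp H)).card ≤ 2 := card_le_two
    simp only [Option.toFinset_some, card_singleton]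
    omega
  · rw [Prod.mk.injEq] at h
    obtain ⟨rfl, rfl⟩ := h
    simp

/-- Grid positions as pairs of natural numbers. -/
def gpn {H : ℕ} (B : Finset (Gp H)) : Finset (ℕ × ℕ) := B.image fun q => (q.1.val, q.2.val)

lemma gpn_inj {H : ℕ} : Function.Injective fun q : Gp H => (q.1.val, q.2.val) := by
  intro q q' h
  rw [Prod.mk.injEq] at h
  exact Prod.ext (Fin.ext h.1) (Fin.ext h.2)

lemma card_gpn {H : ℕ} (B : Finset (Gp H)) : (gpn B).card = B.card :=
  card_image_of_injective _ gpn_inj

lemma gpn_insert {H : ℕ} (v : Gp H) (B : Finset (Gp H)) :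
    gpn (insert v B) = insert (v.1.val, v.2.val) (gpn B) := by
  unfold gpn; rw [image_insert]

lemma mem_gpn {H : ℕ} {q : Gp H} {B : Finset (Gp H)} (h : q ∈ B) : (q.1.val, q.2.val) ∈ gpn B :=
  mem_image_of_mem (fun q : Gp H => (q.1.val, q.2.val)) h

/-- Open configurations form a consistent predicate. -/
theorem grid_consistent (H : ℕ) (hH : 1 ≤ H) :
    Consistent (gridRules H) (H + 1) (fun B => Op H (gpn B) 0 0) := by
  constructor
  · show Op H (gpn ∅) 0 0
    have : gpn (∅ : Finset (Gp H)) = ∅ := by simp [gpn]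
    rw [this]
    exact op_line_snd (by omega) H 0 (by omega) (by simp)
  · intro A v B hr hAB hcard
    rw [gpn_insert]
    have hcard' : (insert (v.1.val, v.2.val) (gpn B)).card ≤ H := by
      rw [← gpn_insert, card_gpn]; omega
    rcases hr with ⟨v', hv', h⟩ | ⟨a, b, h⟩ | h
    · rw [Prod.mk.injEq, Option.some.injEq] at h
      obtain ⟨rfl, rfl⟩ := h
      refine op_boundary ?_ hcard'
      rcases hv' with h | h
      · left; simp [h]
      · right; simp [h]
    · rw [Prod.mk.injEq, Option.some.injEq] at h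
      obtain ⟨rfl, rfl⟩ := h
      have h1 : (a.succ, b.castSucc) ∈ B := hAB (by simp)
      have h2 : (a.castSucc, b.succ) ∈ B := hAB (by simp)
      have h1' := mem_gpn h1
      have h2' := mem_gpn h2
      exact op_inner_iff a.isLt b.isLt (by simpa using h1') (by simpa using h2')
    · rw [Prod.mk.injEq] at h
      exact absurd h.2 (by simp)
  · intro A B hr hAB hcard hP
    rcases hr with ⟨v', hv', h⟩ | ⟨a, b, h⟩ | h
    · rw [Prod.mk.injEq] at h
      exact absurd h.2 (by simp)
    · rw [Prod.mk.injEq] at h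
      exact absurd h.2 (by simp)
    · rw [Prod.mk.injEq] at h
      obtain ⟨rfl, -⟩ := h
      have h1 : ((0, 0) : Gp H) ∈ B := hAB (mem_singleton_self _)
      exact hP.not_mem (mem_gpn h1)

end Pool.Agent.TeleNeg
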