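import Pool.Agent.TeleNeg.Tele
import Pool.Agent.TeleNeg.NetDefs

/-!
# Switching networks are dominated
-/

namespace Pool.Agent.TeleNeg

open Finset
open scoped BigOperators

set_option linter.unusedSectionVars false

section graph

variable {Q : Type*} [Fintype Q] [DecidableEq Q]

lemma walk_bound (G : SimpleGraph Q) (Φ w : Q → ℝ)
    (h : ∀ a b, G.Adj a b → |Φ a - Φ b| ≤ w a + w b) {a c : Q} (p : G.Walk a c) :
    |Φ a - Φ c| + w a + w c ≤ 2 * (p.support.map w).sum := by
  induction p with
  | nil => simp; linarith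
  | @cons a b c hab p ih =>
    rw [SimpleGraph.Walk.support_cons, List.map_cons, List.sum_cons]
    have h1 := h a b hab
    have h2 : |Φ a - Φ c| ≤ |Φ a - Φ b| + |Φ b - Φ c| := abs_sub_le _ _ _
    linarith

lemma potential (r : Q → Q → Prop) (Φ w : Q → ℝ) (hw : ∀ a, 0 ≤ w a)
    (h : ∀ a b, r a b → |Φ a - Φ b| ≤ w a + w b) {a c : Q} (hac : Relation.ReflTransGen r a c) :
    |Φ a - Φ c| ≤ 2 * ∑ b, w b := by
  have h1 : ∀ a b, (SimpleGraph.fromRel r).Adj a b → |Φ a - Φ b| ≤ w a + w b := by
    intro a b hab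
    rw [SimpleGraph.fromRel_adj] at hab
    rcases hab.2 with h' | h'
    · exact h a b h'
    · rw [abs_sub_comm, add_comm]; exact h b a h'
  have h2 : (SimpleGraph.fromRel r).Reachable a c := by
    induction hac with
    | refl => exact SimpleGraph.Reachable.refl _
    | @tail b c _ hbc ih =>
      by_cases hne : b = c
      · rw [← hne]; exact ih
      · exact ih.trans (SimpleGraph.Adj.reachable
          ((SimpleGraph.fromRel_adj _ _ _).mpr ⟨hne, Or.inl hbc⟩))
  obtain ⟨p⟩ := h2
  have h3 := walk_bound _ Φ w h1 p.toPath.val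
  have h4 : ((p.toPath.val.support).map w).sum ≤ ∑ b, w b := by
    rw [← List.sum_toFinset w p.toPath.property.support_nodup]
    exact Finset.sum_le_univ_sum_of_nonneg hw
  have := hw a
  have := hw c
  linarith

end graph

section

variable {I : Type*} [Fintype I] [DecidableEq I] {M : ℕ}
  {rules : Set (Finset I × Option I)} {d : ℕ} {R : Finset I → Prop}

/-- The potential of a set of cuts: its correlation with the pseudo-density at the section `y`. -/
noncomputable def pot (R : Finset I → Prop) (d : ℕ) (y : I → Fin M)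
    (𝒵 : Set (Finset (I × Fin M))) : ℝ :=
  avg (fun C => ind 𝒵 C * dens (mom R) d (pull y C))

lemma pot_univ (h : Consistent rules d R) (hd : 1 ≤ d) (y : I → Fin M) :
    pot R d y Set.univ = 1 := by
  unfold pot
  rw [avg_mul_pull y (ind Set.univ) (dens (mom R) d)]
  have h1 : ∀ Z : Finset I, hat (ind (Set.univ : Set (Finset (I × Fin M)))) (sec y Z)
      = if Z = ∅ then 1 else 0 := by
    intro Z
    unfold hat
    have : (fun C : Finset (I × Fin M) => ind Set.univ C * chi (sec y Z) C)
        = fun C => chi (sec y Z) C := by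
      funext C; simp [ind]
    rw [this, avg_chi]
    simp [sec]
  simp_rw [h1]
  rw [Finset.sum_eq_single ∅]
  · rw [if_pos rfl, mul_one]
    unfold hat
    rw [avg_dens_chi, if_pos (by rw [card_empty]; omega), coef_empty]
    unfold mom
    rw [if_pos h.empty]
  · intro Z _ hZ; rw [if_neg hZ, mul_zero]
  · intro h; exact absurd (mem_univ _) h

lemma cross_corr_le (h : Consistent rules d R) {D κ : ℕ} (hD : D + κ ≤ d)
    (y : I → Fin M) {A : Finset I} {w : Option I} (hr : (A, w) ∈ rules)
    (hκ : (A ∪ w.toFinset).card ≤ κ) (𝒵 : Set (Finset (I × Fin M))) :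
    |avg (fun C => ind 𝒵 C * (dens (mom R) d (pull y C) * cross A w (pull y C)))|
      ≤ wt d D y 𝒵 := by
  rw [avg_mul_pull y (ind 𝒵) (fun B => dens (mom R) d B * cross A w B)]
  refine (Finset.abs_sum_le_sum_abs _ _).trans ?_
  unfold wt
  rw [Finset.sum_filter]
  refine Finset.sum_le_sum fun Z _ => ?_
  change |gam R d A w Z * hat (ind 𝒵) (sec y Z)| ≤ _
  split_ifs with hZ
  · rw [abs_mul]
    exact mul_le_mul_of_nonneg_right (gam_abs A w Z) (abs_nonneg _)
  · rw [gam_eq_zero h hr, zero_mul, abs_zero]
    have := card_union_le Z (A ∪ w.toFinset)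
    omega

/-- If two sets of cuts differ only on cuts which violate the rule `(A, w)`, then their
potentials are close. -/
lemma pot_sub_le (h : Consistent rules d R) {D κ : ℕ} (hD : D + κ ≤ d)
    (y : I → Fin M) {A : Finset I} {w : Option I} (hr : (A, w) ∈ rules)
    (hκ : (A ∪ w.toFinset).card ≤ κ) (𝒵 𝒵' : Set (Finset (I × Fin M)))
    (hZ : ∀ C, cross A w (pull y C) ≠ 1 → (C ∈ 𝒵 ↔ C ∈ 𝒵')) :
    |pot R d y 𝒵 - pot R d y 𝒵'| ≤ wt d D y 𝒵 + wt d D y 𝒵' := by
  have h1 : pot R d y 𝒵 - pot R d y 𝒵'
      = avg (fun C => ind 𝒵 C * (dens (mom R) d (pull y C) * cross A w (pull y C)))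
        - avg (fun C => ind 𝒵' C * (dens (mom R) d (pull y C) * cross A w (pull y C))) := by
    unfold pot
    rw [← avg_sub, ← avg_sub]
    congr 1
    funext C
    by_cases hc : cross A w (pull y C) = 1
    · rw [hc]; ring
    · have h2 := hZ C hc
      have h3 : ind 𝒵 C = ind 𝒵' C := by
        unfold ind
        by_cases h4 : C ∈ 𝒵
        · rw [if_pos h4, if_pos (h2.mp h4)]
        · rw [if_neg h4, if_neg fun h5 => h4 (h2.mpr h5)]
      rw [h3]; ring
  rw [h1]
  refine (abs_sub _ _).trans (add_le_add ?_ ?_)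
  · exact cross_corr_le h hD y hr hκ 𝒵
  · exact cross_corr_le h hD y hr hκ 𝒵'

/-- The minterms and the cut graphs of the blocks fit the rules: a variable of the minterm given
by `y` which is missing in the cut graph of `C` belongs to a rule which `C` violates. -/
def Fits {ι : Type*} (rules : Set (Finset I × Option I)) (E : ℕ → Finset (I × Fin M) → Set ι)
    (P : ℕ → (I → Fin M) → Set ι) : Prop :=
  ∀ n y, ∀ e ∈ P n y, ∃ A w, (A, w) ∈ rules ∧ ∀ C, e ∉ E n C → cross A w (pull y C) = 1

open Classical in
/-- A set of variables as an input. -/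
noncomputable def inp {ι : Type*} (X : Set ι) : ι → Bool := fun e => decide (e ∈ X)

lemma inp_iff {ι : Type*} {X : Set ι} {e : ι} : inp X e = true ↔ e ∈ X := by simp [inp]

lemma Net.accepts_mono {ι : Type} {S : ℕ} (N : Net ι S) {x x' : ι → Bool}
    (h : ∀ e, x e = true → x' e = true) {a b : Fin S}
    (hx : Relation.ReflTransGen (N.Linked x) a b) : Relation.ReflTransGen (N.Linked x') a b := by
  refine Relation.ReflTransGen.mono ?_ _ _ hx
  rintro a b ⟨l, h1, h2⟩
  exact ⟨l, h1, fun e he => h e (h2 e he)⟩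

/-- Parameters for which everything with `S` states is dominated with error `η`. -/
structure Params (rules : Set (Finset I × Option I)) (R : Finset I → Prop) (M S : ℕ)
    (η : ℝ) : Prop where
  ex : ∃ (d D κ s : ℕ) (β : ℝ), Consistent rules d R ∧ 1 ≤ d ∧ 0 < Fintype.card I ∧ 1 ≤ s ∧
    81 * (2 * s - 1) * Fintype.card I ≤ M ∧ D + κ ≤ d ∧
    (∀ A w, (A, w) ∈ rules → (A ∪ w.toFinset).card ≤ κ) ∧ 0 ≤ β ∧
    9 ^ d * (3 * ((Fintype.card I : ℝ) / M) ^ D) ≤ β ^ 2 ∧ (1 / 2) ^ s / 2 + 2 * S * β ≤ η

/-- **Networks are dominated.** -/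
theorem Net.dominated {ι : Type} {S : ℕ} {η : ℝ} (hp : Params rules R M S η)
    {E : ℕ → Finset (I × Fin M) → Set ι} {P : ℕ → (I → Fin M) → Set ι} (hF : Fits rules E P)
    (N : Net ι S) : Dominated E P η (fun X => N.Accepts (inp X)) := by
  classical
  obtain ⟨d, D, κ, s, β, hc, hd, hI, hs, hMs, hD, hκ, hβ0, hβ, hη⟩ := hp.ex
  intro n X
  set A : Fin S → Set (Finset (I × Fin M)) := fun a =>
    {C | Relation.ReflTransGen (N.Linked (inp (X ∪ E n C))) N.src a} with hA
  have hsym : ∀ (x : ι → Bool) (a b : Fin S), N.Linked x a b → N.Linked x b a := by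
    rintro x a b ⟨l, h1, h2⟩
    exact ⟨l, h1.symm, h2⟩
  refine block hc hd hI s hs hMs D S {C | N.Accepts (inp (X ∪ E n C))}
    (fun y => N.Accepts (inp (X ∪ P n y))) A ?_ β η hβ0 hβ hη
  intro y hacc
  have h1 : ∀ a b, N.Linked (inp (X ∪ P n y)) a b →
      |pot R d y (A a) - pot R d y (A b)| ≤ wt d D y (A a) + wt d D y (A b) := by
    rintro a b ⟨l, h1, h2⟩
    -- cuts for which the contact is closed give the same membership
    have hclosed : ∀ C, (∀ e ∈ l, e ∈ X ∪ E n C) → (C ∈ A a ↔ C ∈ A b) := by
      intro C hC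
      have hl : N.Linked (inp (X ∪ E n C)) a b := ⟨l, h1, fun e he => inp_iff.mpr (hC e he)⟩
      constructor
      · intro h; exact Relation.ReflTransGen.tail h hl
      · intro h; exact Relation.ReflTransGen.tail h (hsym _ _ _ hl)
    have hw0 : 0 ≤ wt d D y (A a) + wt d D y (A b) :=
      add_nonneg (wt_nonneg _ _ _ _) (wt_nonneg _ _ _ _)
    cases l with
    | none =>
      have : A a = A b := by
        ext C; exact hclosed C (by simp)
      rw [this, sub_self, abs_zero]
      rw [this] at hw0
      exact hw0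
    | some e =>
      have he := inp_iff.mp (h2 e rfl)
      rcases he with he | he
      · have : A a = A b := by
          ext C
          refine hclosed C ?_
          intro e' he'
          rw [Option.mem_def, Option.some.injEq] at he'
          subst he'
          exact Or.inl he
        rw [this, sub_self, abs_zero]
        rw [this] at hw0
        exact hw0
      · obtain ⟨A', w, hr, hcr⟩ := hF n y e he
        refine pot_sub_le hc hD y hr (hκ _ _ hr) _ _ ?_
        intro C hC
        refine hclosed C ?_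
        intro e' he'
        rw [Option.mem_def, Option.some.injEq] at he'
        subst he'
        by_contra hcon
        exact hC (hcr C fun h => hcon (Or.inr h))
  have h2 := potential (N.Linked (inp (X ∪ P n y))) (fun a => pot R d y (A a))
    (fun a => wt d D y (A a)) (fun a => wt_nonneg _ _ _ _) h1 hacc
  have h3 : A N.src = Set.univ := by
    ext C
    simp only [hA, Set.mem_univ, iff_true]
    exact Relation.ReflTransGen.refl
  have h4 : pot R d y (A N.src) = 1 := by rw [h3]; exact pot_univ hc hd y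
  have h5 : pot R d y (A N.src) - pot R d y (A N.tgt) ≤ 2 * ∑ a, wt d D y (A a) :=
    (le_abs_self _).trans h2
  rw [h4] at h5
  exact h5

end

end Pool.Agent.TeleNeg
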