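import Pool.Agent.TeleNeg.Changes
import Pool.Agent.TeleNeg.NetTrace

/-!
# The hard distribution, and the number of changes along a chain
-/

namespace Pool.Agent.TeleNeg

open Finset
open scoped BigOperators

set_option linter.unusedSectionVars false

section

variable {I : Type*} [Fintype I] [DecidableEq I] {M : ℕ} {ι : Type*}
  (E : ℕ → Finset (I × Fin M) → Set ι) (P : ℕ → (I → Fin M) → Set ι)

/-- The sum over the steps of the chain of the expectation of `φ` at the state before the step,
with or without (with probability one half each) a random minterm. -/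
noncomputable def tot (φ : Set ι → ℝ) : ℕ → Set ι → ℝ
  | 0, _ => 0
  | n + 1, X => (φ X + avgY (fun y => φ (X ∪ P n y))) / 2 + avg (fun C => tot φ n (X ∪ E n C))

lemma tot_nonneg {φ : Set ι → ℝ} (h : ∀ X, 0 ≤ φ X) (n : ℕ) : ∀ X, 0 ≤ tot E P φ n X := by
  induction n with
  | zero => intro X; exact le_rfl
  | succ n ih =>
    intro X
    have h1 := avgY_nonneg (f := fun y => φ (X ∪ P n y)) fun y => h _
    have h2 := avg_nonneg (f := fun C => tot E P φ n (X ∪ E n C)) fun C => ih _
    have h3 := h X
    unfold tot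
    linarith

lemma tot_sum {κ : Type*} (s : Finset κ) (φ : κ → Set ι → ℝ) (n : ℕ) : ∀ X,
    tot E P (fun X => ∑ i ∈ s, φ i X) n X = ∑ i ∈ s, tot E P (φ i) n X := by
  induction n with
  | zero => intro X; simp [tot]
  | succ n ih =>
    intro X
    unfold tot
    simp_rw [ih]
    rw [avgY_sum, avg_sum, Finset.sum_add_distrib, ← Finset.sum_div, ← Finset.sum_add_distrib]

lemma tot_one (hM : 0 < M) (n : ℕ) : ∀ X, tot E P (fun _ : Set ι => (1 : ℝ)) n X = n := by
  induction n with
  | zero => intro X; simp [tot]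
  | succ n ih =>
    intro X
    unfold tot
    simp_rw [ih]
    rw [avgY_const hM, avg_const]
    push_cast
    ring

open Classical in
theorem tot_correct {B : Type*} (β : Set ι → B) (Good : ℕ → Set ι → Prop) (φ : Set ι → ℝ)
    (hM : 0 < M)
    (hφ : ∀ n X, Good (n + 1) X → ∀ y, φ X + φ (X ∪ P n y)
      ≤ 1 + if β X ≠ β (X ∪ P n y) then (1 : ℝ) else 0)
    (hgood : ∀ n X, Good (n + 1) X → ∀ C, Good n (X ∪ E n C)) (n : ℕ) : ∀ X, Good n X →
    tot E P φ n X ≤ n / 2 + sideC E P β n X / 2 := by
  induction n with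
  | zero => intro X _; simp [tot, sideC]
  | succ n ih =>
    intro X hX
    unfold tot sideC
    have h1 : φ X + avgY (fun y => φ (X ∪ P n y))
        ≤ 1 + avgY (fun y => if β X ≠ β (X ∪ P n y) then (1 : ℝ) else 0) := by
      have h2 := avgY_mono (f := fun y => φ X + φ (X ∪ P n y))
        (g := fun y => 1 + if β X ≠ β (X ∪ P n y) then (1 : ℝ) else 0) (fun y => hφ n X hX y)
      rw [avgY_add (fun _ => φ X) (fun y => φ (X ∪ P n y)), avgY_const hM,
        avgY_add (fun _ => (1 : ℝ)) _, avgY_const hM] at h2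
      exact h2
    have h3 : avg (fun C => tot E P φ n (X ∪ E n C))
        ≤ n / 2 + avg (fun C => sideC E P β n (X ∪ E n C)) / 2 := by
      refine (avg_mono fun C => ih (X ∪ E n C) (hgood n X hX C)).trans (le_of_eq ?_)
      have e1 : (fun C => (n : ℝ) / 2 + sideC E P β n (X ∪ E n C) / 2)
          = fun C => (n : ℝ) / 2 + (1 / 2) * sideC E P β n (X ∪ E n C) := by
        funext C; ring
      rw [e1, avg_add (fun _ => (n : ℝ) / 2) (fun C => (1 / 2) * sideC E P β n (X ∪ E n C)),
        avg_const, avg_smul]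
      ring
    push_cast
    linarith

open Classical in
/-- The hard distribution. -/
noncomputable def muOf (r : ℕ) (x : ι → Bool) : ℝ :=
  tot E P (fun X => if inp X = x then (1 : ℝ) else 0) r ∅ / r

lemma muOf_nonneg (r : ℕ) (x : ι → Bool) : 0 ≤ muOf E P r x := by
  classical
  refine div_nonneg (tot_nonneg E P (fun X => ?_) r ∅) (Nat.cast_nonneg r)
  by_cases h : inp X = x
  · rw [if_pos h]; norm_num
  · rw [if_neg h]

lemma muOf_filter [Fintype (ι → Bool)] (r : ℕ) (p : (ι → Bool) → Prop) [DecidablePred p] :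
    ∑ x ∈ univ.filter p, muOf E P r x
      = tot E P (fun X => if p (inp X) then (1 : ℝ) else 0) r ∅ / r := by
  classical
  unfold muOf
  rw [← Finset.sum_div, ← tot_sum]
  congr 2
  funext X
  rw [Finset.sum_ite_eq]
  simp

lemma muOf_total [Fintype (ι → Bool)] (hM : 0 < M) (r : ℕ) (hr : 0 < r) :
    ∑ x, muOf E P r x = 1 := by
  classical
  have h1 := muOf_filter E P r (fun _ : ι → Bool => True)
  rw [Finset.filter_true] at h1
  rw [h1]
  simp only [if_true]
  rw [tot_one E P hM]
  have : (0 : ℝ) < r := by exact_mod_cast hr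
  field_simp

end

section

variable {I : Type*} [Fintype I] [DecidableEq I] {M : ℕ} {ι : Type*}
  {E : ℕ → Finset (I × Fin M) → Set ι} {P : ℕ → (I → Fin M) → Set ι}
  {𝒢 : Type*} {u : 𝒢 → List Bool → Set ι → Prop}

/-- **Average case, few changes of the NOT gates.** -/
theorem changes_avg [Fintype (ι → Bool)] (hM : 0 < M)
    (hu : ∀ N b X X', X ⊆ X' → u N b X → u N b X') (r : ℕ) (hr : 0 < r)
    (ls : List (List 𝒢)) (hd : ∀ ps : List (𝒢 × List Bool), ps.length ≤ levSum ls + 1 →
      Dominated E P (1 / (2 * (r : ℝ))) (fun X => ∃ p ∈ ps, u p.1 p.2 X))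
    (T : ℕ) (outs : Fin T → 𝒢) (a : ℕ) (Good : ℕ → Set ι → Prop) (f : (ι → Bool) → Prop)
    (hf0 : ∀ n X, Good (n + 1) X → ¬ f (inp X))
    (hf1 : ∀ n X, Good (n + 1) X → ∀ y, f (inp (X ∪ P n y)))
    (hgood : ∀ n X, Good (n + 1) X → ∀ C, Good n (X ∪ E n C)) (hX0 : Good r ∅)
    (hmain : mainC E (fun X => levVals u X ls []) r ∅ ≤ a) (ans : (ι → Bool) → Prop)
    (hans : ∀ X X' : Set ι, (∀ i, u (outs i) (levVals u X ls []) X ↔
      u (outs i) (levVals u X' ls []) X') → (ans (inp X) ↔ ans (inp X')))
    [DecidablePred (fun x => (ans x ↔ f x))] :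
    ∑ x ∈ univ.filter (fun x => (ans x ↔ f x)), muOf E P r x
      ≤ 1 / 2 + 3 * ((T + 1) * (a + 1)) / (2 * r) := by
  classical
  rw [muOf_filter E P r (fun x => (ans x ↔ f x))]
  set ω : Set ι → (Fin T → Prop) := fun X i => u (outs i) (levVals u X ls []) X with hω
  have hrR : (0 : ℝ) < r := by exact_mod_cast hr
  have h1 := tot_correct E P ω Good
    (fun X => if (ans (inp X) ↔ f (inp X)) then (1 : ℝ) else 0) hM (by
      intro n X hX y
      have hX1 := hf0 n X hX
      have hX2 := hf1 n X hX y
      by_cases hω' : ω X = ω (X ∪ P n y)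
      · rw [if_neg (not_not.mpr hω')]
        have h3 := hans X (X ∪ P n y) (fun i => by
          have := congrFun hω' i
          simp only [hω] at this
          rw [this])
        by_cases h4 : ans (inp X)
        · rw [if_neg (fun h5 => hX1 (h5.mp h4)), if_pos (iff_of_true (h3.mp h4) hX2)]
          norm_num
        · rw [if_pos (iff_of_false h4 hX1), if_neg (fun h5 => h4 (h3.mpr (h5.mpr hX2)))]
      · rw [if_pos hω']
        have h5 : (if (ans (inp X) ↔ f (inp X)) then (1 : ℝ) else 0) ≤ 1 := by
          split_ifs <;> norm_num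
        have h6 : (if (ans (inp (X ∪ P n y)) ↔ f (inp (X ∪ P n y))) then (1 : ℝ) else 0) ≤ 1 := by
          split_ifs <;> norm_num
        linarith) hgood r ∅ hX0
  have h2 := sideC_outs (E := E) (P := P) hu (η := 1 / (2 * (r : ℝ))) (by positivity) ls hd T outs
    r ∅
  have e1 : 2 * (1 / (2 * (r : ℝ))) * r = 1 := by field_simp
  rw [e1] at h2
  have h3 : sideC E P ω r ∅ ≤ 3 * ((T + 1) * (a + 1)) := by
    refine h2.trans ?_
    have hT : (0 : ℝ) ≤ T := Nat.cast_nonneg T
    have ha : (0 : ℝ) ≤ a := Nat.cast_nonneg a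
    have h4 : ((T : ℝ) + 1) * (mainC E (fun X => levVals u X ls []) r ∅ + 1)
        ≤ (T + 1) * (a + 1) := by
      apply mul_le_mul_of_nonneg_left _ (by linarith)
      linarith
    nlinarith
  have h4 := h1.trans (show (r : ℝ) / 2 + sideC E P ω r ∅ / 2
    ≤ r / 2 + 3 * ((T + 1) * (a + 1)) / 2 by linarith)
  rw [div_le_iff₀ hrR]
  have e2 : (1 / 2 + 3 * (((T : ℝ) + 1) * (a + 1)) / (2 * r)) * r
      = r / 2 + 3 * ((T + 1) * (a + 1)) / 2 := by
    field_simp
  rw [e2]
  exact h4

end

section chains

variable {ι : Type*} {𝒢 : Type*} {u : 𝒢 → List Bool → Set ι → Prop}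

open Classical in
/-- Number of changes of a sequence. -/
noncomputable def seqCh {B : Type*} (β : ℕ → B) (n : ℕ) : ℕ :=
  ∑ k ∈ range n, if β k ≠ β (k + 1) then 1 else 0

open Classical in
/-- Number of frozen changes. -/
noncomputable def seqFr {B : Type*} (β : ℕ → B) (w : B → Set ι → Prop) (x : ℕ → Set ι) (n : ℕ) : ℕ :=
  ∑ k ∈ range n, if ¬ w (β k) (x k) ∧ w (β k) (x (k + 1)) then 1 else 0

open Classical in
lemma seqFr_le {B : Type*} (w : B → Set ι → Prop) (hw : ∀ b X X', X ⊆ X' → w b X → w b X')
    (n : ℕ) : ∀ (β : ℕ → B) (x : ℕ → Set ι), Monotone x →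
    seqFr β w x n ≤ seqCh β n + if w (β 0) (x 0) then 0 else 1 := by
  induction n with
  | zero => intro β x _; simp [seqFr]
  | succ n ih =>
    intro β x hx
    have h1 := ih (fun k => β (k + 1)) (fun k => x (k + 1)) (fun i j hij => hx (by omega))
    have e1 : seqFr β w x (n + 1) = seqFr (fun k => β (k + 1)) w (fun k => x (k + 1)) n
        + if ¬ w (β 0) (x 0) ∧ w (β 0) (x 1) then 1 else 0 := by
      unfold seqFr
      rw [Finset.sum_range_succ']
    have e2 : seqCh β (n + 1) = seqCh (fun k => β (k + 1)) n + if β 0 ≠ β 1 then 1 else 0 := by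
      unfold seqCh
      rw [Finset.sum_range_succ']
    rw [e1, e2]
    by_cases hb : β 0 = β 1
    · rw [if_neg (not_not.mpr hb), add_zero]
      simp only [zero_add] at h1
      by_cases h0 : w (β 0) (x 0)
      · have h2 : w (β 1) (x 1) := by rw [← hb]; exact hw _ _ _ (hx (by omega)) h0
        rw [if_pos h2] at h1
        rw [if_neg (fun h => h.1 h0), if_pos h0]
        omega
      · rw [if_neg h0]
        by_cases h2 : w (β 0) (x 1)
        · rw [if_pos ⟨h0, h2⟩]
          rw [if_pos (by rw [← hb]; exact h2)] at h1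
          omega
        · rw [if_neg fun h => h2 h.2]
          rw [if_neg (by rw [← hb]; exact h2)] at h1
          omega
    · rw [if_pos hb]
      simp only [zero_add] at h1
      have h3 : (if w (β 1) (x 1) then 0 else 1) ≤ 1 := by split_ifs <;> omega
      by_cases h0 : w (β 0) (x 0)
      · rw [if_neg (fun h => h.1 h0), if_pos h0]
        omega
      · rw [if_neg h0]
        have h4 : (if ¬ w (β 0) (x 0) ∧ w (β 0) (x 1) then 1 else 0) ≤ 1 := by
          split_ifs <;> omega
        omega

open Classical in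
lemma seqCh_levVals (hu : ∀ N b X X', X ⊆ X' → u N b X → u N b X') (x : ℕ → Set ι)
    (hx : Monotone x) (n : ℕ) (ls : List (List 𝒢)) : ∀ β : ℕ → List Bool,
    seqCh (fun k => levVals u (x k) ls (β k)) n + 1 ≤ (seqCh β n + 1) * levProd ls := by
  induction ls with
  | nil => intro β; simp [levVals, levProd]
  | cons l ls ih =>
    intro β
    set β' : ℕ → List Bool := fun k => β k ++ l.map (fun N => !decide (u N (β k) (x k))) with hβ'
    have h1 := ih β'
    have e1 : levProd (l :: ls) = (l.length + 1) * levProd ls := by simp [levProd]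
    have e3 : (fun k => levVals u (x k) (l :: ls) (β k)) = fun k => levVals u (x k) ls (β' k) := rfl
    rw [e3, e1]
    have h2 : seqCh β' n ≤ seqCh β n + ∑ i : Fin l.length, seqFr β (u (l.get i)) x n := by
      unfold seqCh seqFr
      rw [Finset.sum_comm, ← Finset.sum_add_distrib]
      refine Finset.sum_le_sum fun k _ => ?_
      by_cases hb : β k = β (k + 1)
      · rw [if_neg (not_not.mpr hb), zero_add]
        by_cases hall : ∀ N ∈ l, (u N (β k) (x k) ↔ u N (β k) (x (k + 1)))
        · have h3 : β' k = β' (k + 1) := by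
            simp only [hβ']
            rw [← hb]
            congr 1
            refine List.map_congr_left fun N hN => ?_
            rw [decide_eq_decide.mpr (hall N hN)]
          rw [if_neg (not_not.mpr h3)]
          exact Nat.zero_le _
        · push Not at hall
          obtain ⟨N, hN, hNu⟩ := hall
          obtain ⟨i, hi⟩ := List.get_of_mem hN
          have h4 : ¬ u (l.get i) (β k) (x k) ∧ u (l.get i) (β k) (x (k + 1)) := by
            rw [hi]
            rcases hNu with ⟨h3, h4⟩ | ⟨h3, h4⟩
            · exact absurd (hu N _ _ _ (hx (Nat.le_succ k)) h3) h4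
            · exact ⟨h3, h4⟩
          have h5 := Finset.single_le_sum
            (f := fun i : Fin l.length =>
              if ¬ u (l.get i) (β k) (x k) ∧ u (l.get i) (β k) (x (k + 1)) then 1 else 0)
            (fun i _ => Nat.zero_le _) (mem_univ i)
          simp only [if_pos h4] at h5
          refine le_trans ?_ h5
          split_ifs <;> omega
      · rw [if_pos hb]
        refine le_trans ?_ (Nat.le_add_right 1 _)
        split_ifs <;> omega
    have h3 : ∑ i : Fin l.length, seqFr β (u (l.get i)) x n ≤ l.length * (seqCh β n + 1) := by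
      refine (Finset.sum_le_sum (g := fun _ => seqCh β n + 1) fun i _ => ?_).trans ?_
      · refine (seqFr_le (u (l.get i)) (hu _) n β x hx).trans ?_
        split_ifs <;> omega
      · rw [Finset.sum_const, Finset.card_univ, Fintype.card_fin, smul_eq_mul]
    refine h1.trans ?_
    calc (seqCh β' n + 1) * levProd ls ≤ ((seqCh β n + 1) * (l.length + 1)) * levProd ls := by
          apply Nat.mul_le_mul_right
          calc seqCh β' n + 1 ≤ seqCh β n + l.length * (seqCh β n + 1) + 1 := by omega
            _ = (seqCh β n + 1) * (l.length + 1) := by ring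
      _ = (seqCh β n + 1) * ((l.length + 1) * levProd ls) := by ring

end chains

end Pool.Agent.TeleNeg
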