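import Pool.Agent.TeleNeg.Decomp
import Pool.Agent.TeleNeg.Tot
import Pool.Agent.TeleNeg.ChangeDefs

/-!
# Networks in parallel
-/

namespace Pool.Agent.TeleNeg

open Finset
open scoped BigOperators

set_option linter.unusedSectionVars false

section

variable {ι : Type} {S m : ℕ}

/-- Networks in parallel: all sources are joined, and all targets are joined. -/
def parNet (f : Fin m → Net ι S) (i₀ : Fin m) : Net ι (m * S) where
  contacts := {c | ∃ (i j : Fin m) (a b : Fin S), c.1 = finProdFinEquiv (i, a) ∧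
    c.2.1 = finProdFinEquiv (j, b) ∧ ((i = j ∧ (a, b, c.2.2) ∈ (f i).contacts) ∨
      (c.2.2 = none ∧ a = (f i).src ∧ b = (f j).src) ∨
      (c.2.2 = none ∧ a = (f i).tgt ∧ b = (f j).tgt))}
  src := finProdFinEquiv (i₀, (f i₀).src)
  tgt := finProdFinEquiv (i₀, (f i₀).tgt)

lemma parNet_linked {f : Fin m → Net ι S} {i₀ : Fin m} {x : ι → Bool} {i j : Fin m}
    {a b : Fin S} (h : (parNet f i₀).Linked x (finProdFinEquiv (i, a)) (finProdFinEquiv (j, b))) :
    (i = j ∧ (f i).Linked x a b) ∨ (a = (f i).src ∧ b = (f j).src) ∨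
      (a = (f i).tgt ∧ b = (f j).tgt) := by
  obtain ⟨l, h1, h2⟩ := h
  rcases h1 with h1 | h1
  · obtain ⟨i', j', a', b', e1, e2, h3⟩ := h1
    have e3 : (i, a) = (i', a') := finProdFinEquiv.injective e1
    have e4 : (j, b) = (j', b') := finProdFinEquiv.injective e2
    obtain ⟨rfl, rfl⟩ := Prod.mk.inj e3
    obtain ⟨rfl, rfl⟩ := Prod.mk.inj e4
    rcases h3 with ⟨h4, h5⟩ | ⟨_, h5⟩ | ⟨_, h5⟩
    · exact Or.inl ⟨h4, l, Or.inl h5, h2⟩
    · exact Or.inr (Or.inl h5)
    · exact Or.inr (Or.inr h5)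
  · obtain ⟨i', j', a', b', e1, e2, h3⟩ := h1
    have e3 : (j, b) = (i', a') := finProdFinEquiv.injective e1
    have e4 : (i, a) = (j', b') := finProdFinEquiv.injective e2
    obtain ⟨rfl, rfl⟩ := Prod.mk.inj e3
    obtain ⟨rfl, rfl⟩ := Prod.mk.inj e4
    rcases h3 with ⟨h4, h5⟩ | ⟨_, h5⟩ | ⟨_, h5⟩
    · subst h4
      exact Or.inl ⟨rfl, l, Or.inr h5, h2⟩
    · exact Or.inr (Or.inl ⟨h5.2, h5.1⟩)
    · exact Or.inr (Or.inr ⟨h5.2, h5.1⟩)

lemma parNet_accepts (f : Fin m → Net ι S) (i₀ : Fin m) (x : ι → Bool) :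
    (parNet f i₀).Accepts x ↔ ∃ i, (f i).Accepts x := by
  constructor
  · intro h
    by_contra hcon
    push Not at hcon
    have key : ∀ v : Fin (m * S), Relation.ReflTransGen ((parNet f i₀).Linked x)
        (parNet f i₀).src v → ∀ i a, v = finProdFinEquiv (i, a) →
        Relation.ReflTransGen ((f i).Linked x) (f i).src a := by
      intro v hv
      induction hv with
      | refl =>
        intro i a hia
        have e3 : (i₀, (f i₀).src) = (i, a) := finProdFinEquiv.injective hia
        obtain ⟨rfl, rfl⟩ := Prod.mk.inj e3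
        exact Relation.ReflTransGen.refl
      | @tail v w _ hvw ih =>
        intro j b hjb
        obtain ⟨⟨i, a⟩, hia⟩ := finProdFinEquiv.surjective v
        have h1 := ih i a hia.symm
        rw [← hia, hjb] at hvw
        rcases parNet_linked hvw with ⟨rfl, h2⟩ | ⟨_, h3⟩ | ⟨h2, h3⟩
        · exact h1.tail h2
        · rw [h3]
        · exact absurd (by rw [h2] at h1; exact h1) (hcon i)
    exact hcon i₀ (key _ h i₀ _ rfl)
  · rintro ⟨i, hi⟩
    have h1 : (parNet f i₀).Linked x (finProdFinEquiv (i₀, (f i₀).src))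
        (finProdFinEquiv (i, (f i).src)) :=
      ⟨none, Or.inl ⟨i₀, i, _, _, rfl, rfl, Or.inr (Or.inl ⟨rfl, rfl, rfl⟩)⟩, by simp⟩
    have h2 : (parNet f i₀).Linked x (finProdFinEquiv (i, (f i).tgt))
        (finProdFinEquiv (i₀, (f i₀).tgt)) :=
      ⟨none, Or.inl ⟨i, i₀, _, _, rfl, rfl, Or.inr (Or.inr ⟨rfl, rfl, rfl⟩)⟩, by simp⟩
    have h3 : Relation.ReflTransGen ((parNet f i₀).Linked x) (finProdFinEquiv (i, (f i).src))
        (finProdFinEquiv (i, (f i).tgt)) := by
      refine Relation.ReflTransGen.lift (p := (parNet f i₀).Linked x)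
        (fun a : Fin S => (finProdFinEquiv (i, a) : Fin (m * S))) ?_ _ _ hi
      rintro a b ⟨l, h4, h5⟩
      rcases h4 with h4 | h4
      · exact ⟨l, Or.inl ⟨i, i, a, b, rfl, rfl, Or.inl ⟨rfl, h4⟩⟩, h5⟩
      · exact ⟨l, Or.inr ⟨i, i, b, a, rfl, rfl, Or.inl ⟨rfl, h4⟩⟩, h5⟩
    exact (Relation.ReflTransGen.head h1 h3).tail h2

end

section

variable {I : Type*} [Fintype I] [DecidableEq I] {M : ℕ}
  {rules : Set (Finset I × Option I)} {R : Finset I → Prop}

lemma Params.mono {S S' : ℕ} {η : ℝ} (h : S ≤ S') (hp : Params rules R M S' η) :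
    Params rules R M S η := by
  obtain ⟨d, D, κ, s, β, hc, hd, hI, hs, hMs, hD, hκ, hβ0, hβ, hη⟩ := hp.ex
  refine ⟨d, D, κ, s, β, hc, hd, hI, hs, hMs, hD, hκ, hβ0, hβ, le_trans ?_ hη⟩
  have h1 : (S : ℝ) ≤ S' := by exact_mod_cast h
  have h2 : 2 * (S : ℝ) * β ≤ 2 * S' * β := by
    apply mul_le_mul_of_nonneg_right _ hβ0
    linarith
  linarith

lemma dominated_false {ι : Type*} {E : ℕ → Finset (I × Fin M) → Set ι}
    {P : ℕ → (I → Fin M) → Set ι} {η : ℝ} (hη : 0 ≤ η) {g : Set ι → Prop} (hg : ∀ X, ¬ g X) :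
    Dominated E P η g := by
  classical
  intro n X
  have e1 : (fun y : I → Fin M => if g (X ∪ P n y) then (1 : ℝ) else 0) = fun _ => 0 := by
    funext y; rw [if_neg (hg _)]
  rw [e1]
  have e2 : avgY (fun _ : I → Fin M => (0 : ℝ)) = 0 := by simp [avgY]
  rw [e2]
  have := avg_nonneg (ind_nonneg {C : Finset (I × Fin M) | g (X ∪ E n C)})
  linarith

/-- A disjunction of networks with frozen values of the NOT gates is dominated. -/
theorem nets_dominated {ι : Type} {S K : ℕ} {η : ℝ} (hη : 0 ≤ η) (hp : Params rules R M K η)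
    {E : ℕ → Finset (I × Fin M) → Set ι} {P : ℕ → (I → Fin M) → Set ι} (hF : Fits rules E P)
    (ps : List (Net (ι ⊕ ℕ) S × List Bool)) (hK : ps.length * S ≤ K) :
    Dominated E P η (fun X => ∃ p ∈ ps, netU p.1 p.2 X) := by
  classical
  rcases Nat.eq_zero_or_pos ps.length with h0 | h0
  · have : ps = [] := List.length_eq_zero_iff.mp h0
    subst this
    exact dominated_false hη fun X => by simp
  · set f : Fin ps.length → Net ι S := fun i => (ps.get i).1.subst (ps.get i).2 with hf
    have h1 := Net.dominated (hp.mono hK) hF (parNet f ⟨0, h0⟩)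
    have h2 : (fun X => (parNet f ⟨0, h0⟩).Accepts (inp X))
        = fun X => ∃ p ∈ ps, netU p.1 p.2 X := by
      funext X
      rw [parNet_accepts]
      refine propext ⟨?_, ?_⟩
      · rintro ⟨i, hi⟩
        exact ⟨ps.get i, List.get_mem ps i, hi⟩
      · rintro ⟨p, hp, hpX⟩
        obtain ⟨i, hi⟩ := List.get_of_mem hp
        refine ⟨i, ?_⟩
        simp only [hf]
        rw [hi]
        exact hpX
    rwa [h2] at h1

end

section

variable {ι : Type} {S T : ℕ}

/-- The changes along the random chain are at most the changes along the worst chain. -/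
lemma Device.mainC_le {I : Type*} [Fintype I] [DecidableEq I] {M : ℕ}
    (E : ℕ → Finset (I × Fin M) → Set ι) (D : Device ι S T) {a : ℕ} (ha : D.ChangesAtMost a)
    (n : ℕ) (X : Set ι) : mainC E (fun X => levVals netU X D.levels []) n X ≤ a := by
  classical
  refine mainC_le_of_chains _ n X a ?_
  intro x hx _ m
  have h1 := ha (fun k => inp (x k)) (by
    intro i j hij e
    by_cases he : e ∈ x i
    · have : e ∈ x j := hx hij he
      simp [inp, he, this]
    · simp [inp, he]) m
  refine le_trans (le_of_eq ?_) h1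
  rw [Finset.card_filter, Finset.card_filter]
  refine Finset.sum_congr rfl fun k _ => ?_
  rw [levVals_netU, levVals_netU]
  by_cases h : notVals (inp (x k)) D.levels [] ≠ notVals (inp (x (k + 1))) D.levels []
  · rw [if_pos h, if_pos h]
  · rw [if_neg h, if_neg h]

lemma seqCh_eq_card {B : Type*} [DecidableEq B] (β : ℕ → B) (n : ℕ) :
    ((range n).filter fun k => β k ≠ β (k + 1)).card = seqCh β n := by
  classical
  unfold seqCh
  rw [Finset.card_filter]
  refine Finset.sum_congr rfl fun k _ => ?_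
  by_cases h : β k ≠ β (k + 1)
  · rw [if_pos h, if_pos h]
  · rw [if_neg h, if_neg h]

/-- The set of the true variables. -/
lemma inp_setOf (x : ι → Bool) : inp {e | x e = true} = x := by
  funext e
  rw [Bool.eq_iff_iff, inp_iff]
  rfl

lemma seqCh_const {B : Type*} (b : B) (n : ℕ) : seqCh (fun _ => b) n = 0 := by
  unfold seqCh; simp

/-- `∏ (tᵢ + 1) - 1` changes are always enough. -/
theorem Device.changesAtMost_weight (D : Device ι S T) : D.ChangesAtMost (D.weight - 1) := by
  classical
  intro x hx n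
  have h1 := seqCh_levVals (u := netU) netU_mono (fun k => {e : ι | x k e = true})
    (by
      intro i j hij e he
      have h2 : x i ≤ x j := hx hij
      have h3 := h2 e
      have h4 : x i e = true := he
      show x j e = true
      rw [h4] at h3
      exact top_le_iff.mp h3) n D.levels (fun _ => [])
  rw [seqCh_const, zero_add, one_mul] at h1
  rw [seqCh_eq_card (fun k => notVals (x k) D.levels []) n]
  have e1 : (fun k => levVals netU {e : ι | x k e = true} D.levels [])
      = fun k => notVals (x k) D.levels [] := by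
    funext k
    rw [levVals_netU, inp_setOf]
  rw [e1] at h1
  have e2 : D.weight = levProd D.levels := rfl
  omega

end

end Pool.Agent.TeleNeg
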