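import Pool.Agent.TeleNeg.GridFinal
import Pool.Agent.TeleNeg.Par

/-!
# Layered path systems are hard on average for directed networks whose NOT gates rarely change
-/

namespace Pool.Agent.TeleNeg

open Finset
open scoped BigOperators

instance Rule.instFinite (r H M : ℕ) : Finite (Rule r H M) :=
  Finite.of_equiv _ (ruleEquiv r H M).symm

/-- There are finitely many rules. -/
noncomputable instance Rule.instFintype (r H M : ℕ) : Fintype (Rule r H M) := Fintype.ofFinite _

section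

variable {I : Type*} [Fintype I] [DecidableEq I] {M : ℕ}
  {rules : Set (Finset I × Option I)} {R : Finset I → Prop}

/-- A disjunction of directed networks with frozen values of the NOT gates is dominated. -/
theorem dnets_dominated {ι : Type} [Fintype ι] {S K : ℕ} {η : ℝ} (hp : Params rules R M K η)
    {E : ℕ → Finset (I × Fin M) → Set ι} {P : ℕ → (I → Fin M) → Set ι} (hF : Fits rules E P)
    (ps : List (Net (ι ⊕ ℕ) S × List Bool))
    (hK : ps.length * ((2 * S) ^ Nat.clog 2 S * Fintype.card ι) ≤ K) :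
    Dominated E P η (fun X => ∃ p ∈ ps, dnetU p.1 p.2 X) := by
  classical
  have h0 : ∀ p : Net (ι ⊕ ℕ) S × List Bool, ∃ φ : Fm ι,
      φ.leaves ≤ (2 * S) ^ Nat.clog 2 S * Fintype.card ι ∧
        ∀ x : ι → Bool, φ.Holds x ↔ (p.1.subst p.2).DAccepts x :=
    fun p => savitch (p.1.subst p.2) (Nat.clog 2 S) (Nat.le_pow_clog (by norm_num) S)
  choose φ hφl hφ using h0
  have hlen : (bigOr (ps.map φ)).leaves ≤ K := by
    rw [bigOr_leaves, List.map_map]
    refine le_trans ?_ hK
    refine (List.sum_le_card_nsmul _ ((2 * S) ^ Nat.clog 2 S * Fintype.card ι) ?_).trans ?_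
    · intro k hk
      obtain ⟨p, _, rfl⟩ := List.mem_map.mp hk
      exact hφl p
    · rw [List.length_map, smul_eq_mul]
  have h1 := Fm.dominated hp hF (bigOr (ps.map φ)) hlen
  have h2 : (fun X : Set ι => (bigOr (ps.map φ)).Holds (inp X))
      = fun X => ∃ p ∈ ps, dnetU p.1 p.2 X := by
    funext X
    rw [bigOr_holds]
    refine propext ⟨?_, ?_⟩
    · rintro ⟨ψ, hψ, hX⟩
      obtain ⟨p, hp, rfl⟩ := List.mem_map.mp hψ
      exact ⟨p, hp, (hφ p _).mp hX⟩
    · rintro ⟨p, hp, hX⟩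
      exact ⟨φ p, List.mem_map.mpr ⟨p, hp, rfl⟩, (hφ p _).mpr hX⟩
  rwa [h2] at h1

end

section

variable {ι : Type} {S T : ℕ}

/-- The changes along the random chain are at most the changes along the worst chain. -/
lemma Device.dmainC_le {I : Type*} [Fintype I] [DecidableEq I] {M : ℕ}
    (E : ℕ → Finset (I × Fin M) → Set ι) (D : Device ι S T) {a : ℕ} (ha : D.DChangesAtMost a)
    (n : ℕ) (X : Set ι) : mainC E (fun X => levVals dnetU X D.levels []) n X ≤ a := by
  classical
  refine mainC_le_of_chains _ n X a ?_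
  intro x hx _ m
  have h1 := ha (fun k => inp (x k)) (by
    intro i j hij e
    by_cases he : e ∈ x i
    · have : e ∈ x j := hx hij he
      simp [inp, he, this]
    · simp [inp, he]) m
  refine le_trans (le_of_eq ?_) h1
  rw [Finset.card_filter, Finset.card_filter]
  refine Finset.sum_congr rfl fun k _ => ?_
  rw [levVals_dnetU, levVals_dnetU]
  by_cases h : dnotVals (inp (x k)) D.levels [] ≠ dnotVals (inp (x (k + 1))) D.levels []
  · rw [if_pos h, if_pos h]
  · rw [if_neg h, if_neg h]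

/-- `∏ (tᵢ + 1) - 1` changes are always enough. -/
theorem Device.dchangesAtMost_weight (D : Device ι S T) : D.DChangesAtMost (D.weight - 1) := by
  classical
  intro x hx n
  have h1 := seqCh_levVals (u := dnetU) dnetU_mono (fun k => {e : ι | x k e = true})
    (by
      intro i j hij e he
      have h2 : x i ≤ x j := hx hij
      have h3 := h2 e
      have h4 : x i e = true := he
      show x j e = true
      rw [h4] at h3
      exact top_le_iff.mp h3) n D.levels (fun _ => [])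
  rw [seqCh_const, zero_add, one_mul] at h1
  rw [seqCh_eq_card (fun k => dnotVals (x k) D.levels []) n]
  have e1 : (fun k => levVals dnetU {e : ι | x k e = true} D.levels [])
      = fun k => dnotVals (x k) D.levels [] := by
    funext k
    rw [levVals_dnetU, inp_setOf]
  rw [e1] at h1
  have e2 : D.weight = levProd D.levels := rfl
  omega

end

section

open Classical in
/-- **Master inequality for path systems**, average case. -/
theorem grid_changes (r H M S T s F a : ℕ) (hH : 2 ≤ H) (hs : 2 * r ≤ 2 ^ s)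
    (hs1 : 1 ≤ s) (hM : 81 * (2 * s - 1) * (H + 1) ^ 2 ≤ M) (hr : 0 < r) (hF0 : 0 < F)
    (D : Device (Rule r H M) S T)
    (hF : (D.negs + 1) * ((2 * S) ^ Nat.clog 2 S * Nat.card (Rule r H M)) ≤ F)
    (h : (Fin T → Bool) → Bool) (hD : D.DChangesAtMost a)
    (hsize : 192 * 9 ^ (H + 1) * (r * F) ^ 2 * ((H + 1) ^ 2) ^ (H - 2) ≤ M ^ (H - 2)) :
    ∑ x with (h (D.dval x) = true ↔ Solvable x), muOf (cutR r H M) (pathR r H M) r x
      ≤ 1 / 2 + 3 * ((T + 1) * (a + 1)) / (2 * r) := by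
  have hM0 : 0 < M := by
    refine lt_of_lt_of_le ?_ hM
    have : 0 < 2 * s - 1 := by omega
    positivity
  have hcard : Nat.card (Rule r H M) = Fintype.card (Rule r H M) := Nat.card_eq_fintype_card
  have hrR : (0 : ℝ) < r := by exact_mod_cast hr
  have hFR : (0 : ℝ) < F := by exact_mod_cast hF0
  have hMR : (0 : ℝ) < M := by exact_mod_cast hM0
  set β : ℝ := 1 / (8 * r * F) with hβ
  have hcardI : Fintype.card (Gp H) = (H + 1) ^ 2 := by
    simp only [Gp, Fintype.card_prod, Fintype.card_fin]; ring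
  have hparams : Params (gridRules H) (fun B => Op H (gpn B) 0 0) M F (1 / (2 * (r : ℝ))) := by
    refine ⟨H + 1, H - 2, 3, s, β, grid_consistent H (by omega), by omega, ?_, hs1, ?_, by omega,
      fun A w hA => gridRules_card hA, by positivity, ?_, ?_⟩
    · rw [hcardI]; positivity
    · rw [hcardI]; exact hM
    · rw [hcardI]
      have h1 : (192 : ℝ) * 9 ^ (H + 1) * (r * F) ^ 2 * (((H + 1) ^ 2 : ℕ) : ℝ) ^ (H - 2)
          ≤ (M : ℝ) ^ (H - 2) := by exact_mod_cast hsize
      rw [hβ, div_pow, div_pow, mul_div_assoc', mul_div_assoc', div_le_div_iff₀ (by positivity)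
        (by positivity), one_pow, one_mul]
      calc (9 : ℝ) ^ (H + 1) * (3 * (((H + 1) ^ 2 : ℕ) : ℝ) ^ (H - 2)) * (8 * r * F) ^ 2
          = 192 * 9 ^ (H + 1) * (r * F) ^ 2 * (((H + 1) ^ 2 : ℕ) : ℝ) ^ (H - 2) := by ring
        _ ≤ _ := h1
    · have h1 : (1 / 2 : ℝ) ^ s / 2 ≤ 1 / (4 * r) := by
        have h2 : (2 : ℝ) * r ≤ 2 ^ s := by exact_mod_cast hs
        rw [one_div, inv_pow, div_eq_mul_inv, ← mul_inv, one_div]
        apply inv_anti₀ (by positivity)
        linarith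
      have h2 : 2 * (F : ℝ) * β = 1 / (4 * r) := by
        rw [hβ]; field_simp; norm_num
      have h3 : 1 / (4 * (r : ℝ)) + 1 / (4 * r) = 1 / (2 * r) := by
        field_simp; norm_num
      linarith
  set Good : ℕ → Set (Rule r H M) → Prop := fun n X => n ≤ r ∧
    ∃ C : ℕ → Finset (Gp H × Fin M), ∀ e ∈ X, n ≤ e.blk ∧ e.okCut (C e.blk) with hGood
  refine changes_avg hM0 dnetU_mono r hr D.levels ?_ T D.outs a Good Solvable ?_ ?_ ?_
    ⟨le_rfl, fun _ => ∅, fun e he => absurd he (Set.notMem_empty _)⟩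
    (Device.dmainC_le (cutR r H M) D hD r ∅) (fun x => h (D.dval x) = true) ?_
  · intro ps hps
    refine dnets_dominated hparams fits_grid ps (le_trans ?_ hF)
    rw [hcard]
    exact Nat.mul_le_mul_right _ hps
  · rintro n X ⟨hn, C, hC⟩
    exact not_solvable_of_cuts X C fun e he => (hC e he).2
  · rintro n X ⟨hn, C, hC⟩ y
    exact solvable_of_path _ n (by omega) y Set.subset_union_right
  · rintro n X ⟨hn, C, hC⟩ C'
    refine ⟨by omega, Function.update C n C', ?_⟩
    intro e he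
    rcases he with he | he
    · have h1 := hC e he
      refine ⟨by omega, ?_⟩
      rw [Function.update_of_ne (by omega)]
      exact h1.2
    · refine ⟨he.1.ge, ?_⟩
      rw [he.1, Function.update_self]
      exact he.2
  · intro X X' hXX'
    have h2 : D.dval (inp X) = D.dval (inp X') := by
      funext i
      have h1 := hXX' i
      rw [dnetU_iff, dnetU_iff, levVals_dnetU, levVals_dnetU] at h1
      exact Bool.eq_iff_iff.mpr h1
    rw [h2]

open Classical in
/-- **Average case, path systems.** -/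
theorem grid_avg (r H : ℕ) (hH : 6 ≤ H) (hr : 0 < r) :
    ∃ μ : (Rule r H (2 ^ 8 * (H + 1) ^ 3) → Bool) → ℝ, (∀ x, 0 ≤ μ x) ∧ ∑ x, μ x = 1 ∧
      ∀ (S T a : ℕ) (D : Device (Rule r H (2 ^ 8 * (H + 1) ^ 3)) S T)
        (h : (Fin T → Bool) → Bool), 1 ≤ S → D.DChangesAtMost a →
        r ^ 2 * (2 ^ 24 * (H + 1) ^ 11) * ((D.negs + 1) * (2 * S) ^ Nat.clog 2 S) ≤ 2 ^ H →
        ∑ x with (h (D.dval x) = true ↔ Solvable x), μ x
          ≤ 1 / 2 + 3 * ((T + 1) * (a + 1)) / (2 * r) := by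
  refine ⟨muOf (cutR r _ _) (pathR r _ _) r, muOf_nonneg _ _ r,
    muOf_total _ _ (by positivity) r hr, ?_⟩
  intro S T a D h hS hD hcon
  set F := (D.negs + 1) * ((2 * S) ^ Nat.clog 2 S * (r * (2 ^ 24 * (H + 1) ^ 11))) with hF
  have hrF : r * F ≤ 2 ^ H := by
    calc r * F = r ^ 2 * (2 ^ 24 * (H + 1) ^ 11) * ((D.negs + 1) * (2 * S) ^ Nat.clog 2 S) := by
          rw [hF]; ring
      _ ≤ 2 ^ H := hcon
  have hF0 : 0 < F := by rw [hF]; positivity
  have hr2 : r ≤ 2 ^ H := (Nat.le_mul_of_pos_right r hF0).trans hrF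
  have h2r : 2 * r ≤ 2 ^ (H + 1) := by
    have : 2 ^ (H + 1) = 2 ^ H * 2 := pow_succ 2 H
    omega
  have hMM : 81 * (2 * (H + 1) - 1) * (H + 1) ^ 2 ≤ 2 ^ 8 * (H + 1) ^ 3 := by
    calc 81 * (2 * (H + 1) - 1) * (H + 1) ^ 2 ≤ (2 ^ 8 * (H + 1)) * (H + 1) ^ 2 := by
          apply Nat.mul_le_mul_right
          omega
      _ = 2 ^ 8 * (H + 1) ^ 3 := by ring
  have h44 : (2 ^ H) ^ 2 = 4 ^ H := by
    have e0 : (4 : ℕ) = 2 ^ 2 := by norm_num
    rw [e0, ← pow_mul, ← pow_mul, mul_comm]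
  have hsz : 192 * 9 ^ (H + 1) * (r * F) ^ 2 * ((H + 1) ^ 2) ^ (H - 2)
      ≤ (2 ^ 8 * (H + 1) ^ 3) ^ (H - 2) := by
    have e1 : (r * F) ^ 2 ≤ 4 ^ H := by
      rw [← h44]
      exact Nat.pow_le_pow_left hrF 2
    calc 192 * 9 ^ (H + 1) * (r * F) ^ 2 * ((H + 1) ^ 2) ^ (H - 2)
        ≤ 192 * 9 ^ (H + 1) * 4 ^ H * ((H + 1) ^ 2) ^ (H - 2) := by
          apply Nat.mul_le_mul_right
          exact Nat.mul_le_mul_left _ e1
      _ ≤ (2 ^ 8 * (H + 1)) ^ (H - 2) * ((H + 1) ^ 2) ^ (H - 2) :=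
          Nat.mul_le_mul_right _ (size_aux H hH)
      _ = (2 ^ 8 * (H + 1) ^ 3) ^ (H - 2) := by
        have e2 : 2 ^ 8 * (H + 1) * (H + 1) ^ 2 = 2 ^ 8 * (H + 1) ^ 3 := by ring
        rw [← mul_pow, e2]
  have hFl : (D.negs + 1) * ((2 * S) ^ Nat.clog 2 S * Nat.card (Rule r H (2 ^ 8 * (H + 1) ^ 3)))
      ≤ F := by
    rw [hF]
    exact Nat.mul_le_mul_left _ (Nat.mul_le_mul_left _ (card_rule_le r H))
  exact grid_changes r H (2 ^ 8 * (H + 1) ^ 3) S T (H + 1) F a (by omega) h2r (by omega) hMM hr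
    hF0 D hFl h hD hsz

end

end Pool.Agent.TeleNeg
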