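import Pool.Agent.TeleNeg.GridMain

/-!
# Layered path systems need many NOT gates in directed networks: the final form
-/

namespace Pool.Agent.TeleNeg

open Finset

/-- The number of variables. -/
lemma card_rule_le (r H : ℕ) :
    Nat.card (Rule r H (2 ^ 8 * (H + 1) ^ 3)) ≤ r * (2 ^ 24 * (H + 1) ^ 11) := by
  rw [card_rule]
  apply Nat.mul_le_mul_left
  set M := 2 ^ 8 * (H + 1) ^ 3 with hM
  have h1 : 2 ^ 24 * (H + 1) ^ 11 = (H + 1) ^ 2 * M ^ 3 := by rw [hM]; ring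
  have hM1 : 2 ≤ M := by
    rw [hM]
    have : 1 ≤ (H + 1) ^ 3 := Nat.one_le_pow _ _ (by omega)
    omega
  have h2 : 3 * M ≤ M ^ 3 := by
    have : 4 ≤ M ^ 2 := by nlinarith
    calc 3 * M ≤ M ^ 2 * M := Nat.mul_le_mul_right _ (by omega)
      _ = M ^ 3 := by ring
  rw [h1]
  nlinarith [Nat.mul_le_mul_left H h2]

lemma size_aux (H : ℕ) (hH : 6 ≤ H) :
    192 * 9 ^ (H + 1) * 4 ^ H ≤ (2 ^ 8 * (H + 1)) ^ (H - 2) := by
  induction H, hH using Nat.le_induction with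
  | base => norm_num
  | succ H hH ih =>
    have e1 : H + 1 - 2 = (H - 2) + 1 := by omega
    rw [e1, pow_succ (2 ^ 8 * (H + 1 + 1))]
    calc 192 * 9 ^ (H + 1 + 1) * 4 ^ (H + 1) = (192 * 9 ^ (H + 1) * 4 ^ H) * 36 := by ring
      _ ≤ (2 ^ 8 * (H + 1)) ^ (H - 2) * (2 ^ 8 * (H + 1 + 1)) := by
        apply Nat.mul_le_mul ih
        omega
      _ ≤ (2 ^ 8 * (H + 1 + 1)) ^ (H - 2) * (2 ^ 8 * (H + 1 + 1)) := by
        apply Nat.mul_le_mul_right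
        apply Nat.pow_le_pow_left
        omega

/-- **Few NOT gates, path systems.** -/
theorem grid_final (r H S T : ℕ) (hH : 6 ≤ H) (D : Device (Rule r H (2 ^ 8 * (H + 1) ^ 3)) S T)
    (h : (Fin T → Bool) → Bool)
    (hD : ∀ x : Rule r H (2 ^ 8 * (H + 1) ^ 3) → Bool, h (D.dval x) = true ↔ Solvable x)
    (ht : 3 * ((T + 1) * D.weight) ≤ r) :
    2 ^ H < r ^ 2 * (2 ^ 24 * (H + 1) ^ 11) * (2 * S) ^ Nat.clog 2 S := by
  by_contra hcon
  push Not at hcon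
  have hw1 : 1 ≤ D.weight := levProd_pos D.levels
  have hr : 0 < r := by
    have : 0 < 3 * ((T + 1) * D.weight) := by positivity
    omega
  rcases Nat.eq_zero_or_pos S with hS | hS
  · -- no nodes
    subst hS
    have hM0 : 0 < 2 ^ 8 * (H + 1) ^ 3 := by positivity
    have hT : ∀ x x' : Rule r H (2 ^ 8 * (H + 1) ^ 3) → Bool, D.dval x = D.dval x' := by
      intro x x'
      funext i
      exact (IsEmpty.false (D.outs i).src).elim
    have h1 : ¬ Solvable (inp (∅ : Set (Rule r H (2 ^ 8 * (H + 1) ^ 3)))) :=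
      not_solvable_of_cuts ∅ (fun _ => ∅) (fun e he => absurd he (Set.notMem_empty _))
    have h2 : Solvable (inp (Set.univ : Set (Rule r H (2 ^ 8 * (H + 1) ^ 3)))) :=
      solvable_of_path Set.univ 0 hr (fun _ => ⟨0, hM0⟩) (Set.subset_univ _)
    rw [← hD] at h1 h2
    rw [hT (inp Set.univ) (inp ∅)] at h2
    exact h1 h2
  set F := (2 * S) ^ Nat.clog 2 S * (r * (2 ^ 24 * (H + 1) ^ 11)) with hF
  have hrF : r * F ≤ 2 ^ H := by
    calc r * F = r ^ 2 * (2 ^ 24 * (H + 1) ^ 11) * (2 * S) ^ Nat.clog 2 S := by rw [hF]; ring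
      _ ≤ 2 ^ H := hcon
  have hF0 : 0 < F := by rw [hF]; positivity
  have hr2 : r ≤ 2 ^ H := (Nat.le_mul_of_pos_right r hF0).trans hrF
  have h2r : 2 * r ≤ 2 ^ (H + 1) := by
    have : 2 ^ (H + 1) = 2 ^ H * 2 := pow_succ 2 H
    omega
  have hMM : 81 * (2 * (H + 1) - 1) * (H + 1) ^ 2 ≤ 2 ^ 8 * (H + 1) ^ 3 := by
    calc 81 * (2 * (H + 1) - 1) * (H + 1) ^ 2 ≤ (2 ^ 8 * (H + 1)) * (H + 1) ^ 2 := by
          apply Nat.mul_le_mul_right
          omega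
      _ = 2 ^ 8 * (H + 1) ^ 3 := by ring
  have h44 : (2 ^ H) ^ 2 = 4 ^ H := by
    have e0 : (4 : ℕ) = 2 ^ 2 := by norm_num
    rw [e0, ← pow_mul, ← pow_mul, mul_comm]
  have hsz : 192 * 9 ^ (H + 1) * (r * F) ^ 2 * ((H + 1) ^ 2) ^ (H - 2)
      ≤ (2 ^ 8 * (H + 1) ^ 3) ^ (H - 2) := by
    have e1 : (r * F) ^ 2 ≤ 4 ^ H := by
      rw [← h44]
      exact Nat.pow_le_pow_left hrF 2
    calc 192 * 9 ^ (H + 1) * (r * F) ^ 2 * ((H + 1) ^ 2) ^ (H - 2)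
        ≤ 192 * 9 ^ (H + 1) * 4 ^ H * ((H + 1) ^ 2) ^ (H - 2) := by
          apply Nat.mul_le_mul_right
          exact Nat.mul_le_mul_left _ e1
      _ ≤ (2 ^ 8 * (H + 1)) ^ (H - 2) * ((H + 1) ^ 2) ^ (H - 2) :=
          Nat.mul_le_mul_right _ (size_aux H hH)
      _ = (2 ^ 8 * (H + 1) ^ 3) ^ (H - 2) := by
        have e2 : 2 ^ 8 * (H + 1) * (H + 1) ^ 2 = 2 ^ 8 * (H + 1) ^ 3 := by ring
        rw [← mul_pow, e2]
  have hFl : (2 * S) ^ Nat.clog 2 S * Nat.card (Rule r H (2 ^ 8 * (H + 1) ^ 3)) ≤ F := by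
    rw [hF]
    exact Nat.mul_le_mul_left _ (card_rule_le r H)
  have h5 := grid_master r H (2 ^ 8 * (H + 1) ^ 3) S T (H + 1) F (by omega) h2r (by omega) hMM hS
    hFl D h hD hsz
  omega

end Pool.Agent.TeleNeg
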