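import Pool.Agent.TeleNeg.Formula
import Pool.Agent.TeleNeg.DirDefs

/-!
# Directed networks have quasipolynomial monotone formulas (Savitch)
-/

namespace Pool.Agent.TeleNeg

open Finset

set_option linter.unusedSectionVars false

section

variable {ι : Type}

/-- Disjunction of a list of formulas. -/
def bigOr : List (Fm ι) → Fm ι
  | [] => .ff
  | φ :: L => .or φ (bigOr L)

lemma bigOr_holds (x : ι → Bool) (L : List (Fm ι)) :
    (bigOr L).Holds x ↔ ∃ φ ∈ L, φ.Holds x := by
  induction L with
  | nil => simp [bigOr, Fm.Holds]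
  | cons φ L ih => simp [bigOr, Fm.Holds, ih]

lemma bigOr_leaves (L : List (Fm ι)) : (bigOr L).leaves = (L.map Fm.leaves).sum := by
  induction L with
  | nil => rfl
  | cons φ L ih => simp [bigOr, Fm.leaves, ih]

end

section

variable {ι : Type} [Fintype ι] {S : ℕ}

open Classical in
/-- One step of a directed network, or none. -/
noncomputable def stepF (N : Net ι S) (a b : Fin S) : Fm ι :=
  if a = b ∨ (a, b, none) ∈ N.contacts then .tt
  else bigOr (((univ : Finset ι).filter fun e => (a, b, some e) ∈ N.contacts).toList.map Fm.var)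

lemma stepF_holds (N : Net ι S) (x : ι → Bool) (a b : Fin S) :
    (stepF N a b).Holds x ↔ a = b ∨ N.Step x a b := by
  classical
  unfold stepF
  split_ifs with h
  · refine ⟨fun _ => ?_, fun _ => trivial⟩
    rcases h with h | h
    · exact Or.inl h
    · exact Or.inr ⟨none, h, by simp⟩
  · rw [bigOr_holds]
    constructor
    · rintro ⟨φ, hφ, hx⟩
      rw [List.mem_map] at hφ
      obtain ⟨e, he, rfl⟩ := hφ
      rw [Finset.mem_toList, Finset.mem_filter] at he
      refine Or.inr ⟨some e, he.2, ?_⟩
      intro e' he'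
      rw [Option.mem_def, Option.some.injEq] at he'
      subst he'
      exact hx
    · rintro (h' | ⟨l, hl, hx⟩)
      · exact absurd (Or.inl h') h
      · cases l with
        | none => exact absurd (Or.inr hl) h
        | some e =>
          refine ⟨Fm.var e, List.mem_map.mpr ⟨e, ?_, rfl⟩, hx e rfl⟩
          rw [Finset.mem_toList, Finset.mem_filter]
          exact ⟨mem_univ _, hl⟩

lemma stepF_leaves (N : Net ι S) (a b : Fin S) : (stepF N a b).leaves ≤ Fintype.card ι := by
  classical
  unfold stepF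
  split_ifs with h
  · exact Nat.zero_le _
  · rw [bigOr_leaves, List.map_map]
    have h1 : (Fm.leaves ∘ Fm.var : ι → ℕ) = fun _ => 1 := by funext e; rfl
    rw [h1]
    simp only [List.map_const', List.sum_replicate, smul_eq_mul, mul_one, Finset.length_toList]
    exact card_le_univ _

/-- Reachability in at most `2 ^ k` steps. -/
noncomputable def reachF (N : Net ι S) : ℕ → Fin S → Fin S → Fm ι
  | 0, a, b => stepF N a b
  | k + 1, a, b => bigOr ((List.finRange S).map fun c => .and (reachF N k a c) (reachF N k c b))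

lemma reachF_leaves (N : Net ι S) (k : ℕ) : ∀ a b,
    (reachF N k a b).leaves ≤ (2 * S) ^ k * Fintype.card ι := by
  induction k with
  | zero => intro a b; rw [pow_zero, one_mul]; exact stepF_leaves N a b
  | succ k ih =>
    intro a b
    unfold reachF
    rw [bigOr_leaves, List.map_map]
    have h1 : ((List.finRange S).map (Fm.leaves ∘ fun c => (reachF N k a c).and (reachF N k c b))).sum
        ≤ ((List.finRange S).map fun _ => 2 * ((2 * S) ^ k * Fintype.card ι)).sum := by
      apply List.sum_le_sum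
      intro c _
      simp only [Function.comp_apply, Fm.leaves]
      have := ih a c
      have := ih c b
      omega
    refine h1.trans (le_of_eq ?_)
    simp only [List.map_const', List.length_finRange, List.sum_replicate, smul_eq_mul]
    rw [pow_succ]; ring

/-- Walks with `m` steps. -/
inductive Wlk (N : Net ι S) (x : ι → Bool) (a : Fin S) : ℕ → Fin S → Prop
  | zero : Wlk N x a 0 a
  | succ (m : ℕ) (b c : Fin S) (h : Wlk N x a m b) (hs : N.Step x b c) : Wlk N x a (m + 1) c

lemma Wlk.split {N : Net ι S} {x : ι → Bool} {a : Fin S} (m₁ : ℕ) : ∀ (m₂ : ℕ) (b : Fin S),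
    Wlk N x a (m₁ + m₂) b → ∃ c, Wlk N x a m₁ c ∧ Wlk N x c m₂ b := by
  intro m₂
  induction m₂ with
  | zero => intro b h; exact ⟨b, h, Wlk.zero⟩
  | succ m₂ ih =>
    intro b h
    cases h with
    | succ _ b' _ h hs =>
      obtain ⟨c, h1, h2⟩ := ih b' h
      exact ⟨c, h1, Wlk.succ _ _ _ h2 hs⟩

lemma reachF_sound (N : Net ι S) (x : ι → Bool) (k : ℕ) : ∀ a b,
    (reachF N k a b).Holds x → Relation.ReflTransGen (N.Step x) a b := by
  induction k with
  | zero =>
    intro a b h
    rcases (stepF_holds N x a b).mp h with rfl | h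
    · exact Relation.ReflTransGen.refl
    · exact Relation.ReflTransGen.single h
  | succ k ih =>
    intro a b h
    unfold reachF at h
    rw [bigOr_holds] at h
    obtain ⟨φ, hφ, hx⟩ := h
    rw [List.mem_map] at hφ
    obtain ⟨c, _, rfl⟩ := hφ
    exact (ih a c hx.1).trans (ih c b hx.2)

lemma reachF_complete (N : Net ι S) (x : ι → Bool) (k : ℕ) : ∀ a b m, m ≤ 2 ^ k →
    Wlk N x a m b → (reachF N k a b).Holds x := by
  induction k with
  | zero =>
    intro a b m hm h
    refine (stepF_holds N x a b).mpr ?_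
    cases h with
    | zero => exact Or.inl rfl
    | succ m' b' _ h hs =>
      have hm' : m' = 0 := by simpa using hm
      subst hm'
      cases h
      exact Or.inr hs
  | succ k ih =>
    intro a b m hm h
    unfold reachF
    rw [bigOr_holds]
    rw [pow_succ] at hm
    obtain ⟨m₁, m₂, h1, h2, rfl⟩ : ∃ m₁ m₂, m₁ ≤ 2 ^ k ∧ m₂ ≤ 2 ^ k ∧ m = m₁ + m₂ := by
      refine ⟨min m (2 ^ k), m - min m (2 ^ k), min_le_right _ _, by omega, by omega⟩
    obtain ⟨c, h3, h4⟩ := Wlk.split m₁ m₂ b h
    exact ⟨_, List.mem_map.mpr ⟨c, List.mem_finRange c, rfl⟩, ih a c m₁ h1 h3, ih c b m₂ h2 h4⟩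

open Classical in
/-- Nodes reachable by at most `m` steps. -/
noncomputable def ball (N : Net ι S) (x : ι → Bool) (a : Fin S) (m : ℕ) : Finset (Fin S) :=
  univ.filter fun b => ∃ j ≤ m, Wlk N x a j b

lemma mem_ball {N : Net ι S} {x : ι → Bool} {a b : Fin S} {m : ℕ} :
    b ∈ ball N x a m ↔ ∃ j ≤ m, Wlk N x a j b := by
  simp [ball]

lemma short_walk (N : Net ι S) (x : ι → Bool) (a b : Fin S)
    (h : Relation.ReflTransGen (N.Step x) a b) : ∃ m, m < S ∧ Wlk N x a m b := by
  have hsub : ∀ m, ball N x a m ⊆ ball N x a (m + 1) := by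
    intro m c hc
    obtain ⟨j, hj, hw⟩ := mem_ball.mp hc
    exact mem_ball.mpr ⟨j, by omega, hw⟩
  have hex : ∃ m, m < S ∧ ball N x a m = ball N x a (m + 1) := by
    by_contra hcon
    push Not at hcon
    have h1 : ∀ m, m ≤ S → m + 1 ≤ (ball N x a m).card := by
      intro m
      induction m with
      | zero =>
        intro _
        exact card_pos.mpr ⟨a, mem_ball.mpr ⟨0, le_rfl, Wlk.zero⟩⟩
      | succ m ih =>
        intro hm
        have h2 := ih (by omega)
        have h3 : ball N x a m ⊂ ball N x a (m + 1) :=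
          (hsub m).ssubset_of_ne (hcon m (by omega))
        have := card_lt_card h3
        omega
    have h2 := h1 S le_rfl
    have h3 := card_le_univ (ball N x a S)
    rw [Fintype.card_fin] at h3
    omega
  obtain ⟨m, hm, heq⟩ := hex
  have h1 : ∀ c, Relation.ReflTransGen (N.Step x) a c → c ∈ ball N x a m := by
    intro c hc
    induction hc with
    | refl => exact mem_ball.mpr ⟨0, Nat.zero_le _, Wlk.zero⟩
    | @tail c c' _ hs ih =>
      rw [heq]
      obtain ⟨j, hj, hw⟩ := mem_ball.mp ih
      exact mem_ball.mpr ⟨j + 1, by omega, Wlk.succ _ _ _ hw hs⟩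
  obtain ⟨j, hj, hw⟩ := mem_ball.mp (h1 b h)
  exact ⟨j, by omega, hw⟩

/-- **Savitch**, for monotone networks. -/
theorem savitch (N : Net ι S) (k : ℕ) (hk : S ≤ 2 ^ k) : ∃ φ : Fm ι,
    φ.leaves ≤ (2 * S) ^ k * Fintype.card ι ∧ ∀ x : ι → Bool, φ.Holds x ↔ N.DAccepts x := by
  refine ⟨reachF N k N.src N.tgt, reachF_leaves N k _ _, fun x => ⟨reachF_sound N x k _ _, ?_⟩⟩
  intro h
  obtain ⟨m, hm, hw⟩ := short_walk N x _ _ h
  exact reachF_complete N x k _ _ m (by omega) hw

end

end Pool.Agent.TeleNeg
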