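import Pool.Agent.TeleNeg.Decomp
import Pool.Agent.TeleNeg.Savitch
import Pool.Agent.TeleNeg.Grid

/-!
# Layered path systems need many NOT gates in directed networks
-/

namespace Pool.Agent.TeleNeg

open Finset

section decomp

variable {ι : Type} {S : ℕ}

lemma Net.subst_step (N : Net (ι ⊕ ℕ) S) (v : List Bool) (x : ι → Bool) (a b : Fin S) :
    (N.subst v).Step x a b ↔ N.Step (labels x v) a b := by
  constructor
  · rintro ⟨l, ⟨l', h3, h4⟩, h2⟩
    refine ⟨l', h3, ?_⟩
    rcases h4 with ⟨rfl, _⟩ | ⟨e, rfl, h5⟩ | ⟨k, rfl, h5, _⟩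
    · simp
    · intro e' he'
      rw [Option.mem_def, Option.some.injEq] at he'
      subst he'
      exact h2 e h5
    · intro e' he'
      rw [Option.mem_def, Option.some.injEq] at he'
      subst he'
      exact h5
  · rintro ⟨l', h1, h2⟩
    rcases l' with _ | (e | k)
    · exact ⟨none, ⟨none, h1, Or.inl ⟨rfl, rfl⟩⟩, by simp⟩
    · have he : x e = true := h2 (Sum.inl e) rfl
      refine ⟨some e, ⟨_, h1, Or.inr (Or.inl ⟨e, rfl, rfl⟩)⟩, ?_⟩
      intro e' he'
      rw [Option.mem_def, Option.some.injEq] at he'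
      subst he'
      exact he
    · have hk : v.getD k false = true := h2 (Sum.inr k) rfl
      exact ⟨none, ⟨_, h1, Or.inr (Or.inr ⟨k, rfl, hk, rfl⟩)⟩, by simp⟩

lemma Net.subst_daccepts (N : Net (ι ⊕ ℕ) S) (v : List Bool) (x : ι → Bool) :
    (N.subst v).DAccepts x ↔ N.DAccepts (labels x v) := by
  unfold Net.DAccepts
  have : (N.subst v).Step x = N.Step (labels x v) := by
    funext a b; exact propext (N.subst_step v x a b)
  rw [this]; rfl

lemma Net.subst_dval (N : Net (ι ⊕ ℕ) S) (v : List Bool) (x : ι → Bool) :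
    (N.subst v).dval x = N.dval (labels x v) := by
  unfold Net.dval
  exact decide_eq_decide.mpr (Net.subst_daccepts N v x)

/-- The condition that the directed network fed by the guessed values `b` accepts. -/
def dnetU (N : Net (ι ⊕ ℕ) S) (b : List Bool) (X : Set ι) : Prop := (N.subst b).DAccepts (inp X)

lemma dnetU_iff (N : Net (ι ⊕ ℕ) S) (b : List Bool) (X : Set ι) :
    dnetU N b X ↔ N.dval (labels (inp X) b) = true := by
  unfold dnetU Net.dval
  rw [Net.subst_daccepts]
  simp

lemma dnetU_mono (N : Net (ι ⊕ ℕ) S) (b : List Bool) (X X' : Set ι) (h : X ⊆ X') :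
    dnetU N b X → dnetU N b X' := by
  intro hh
  refine Relation.ReflTransGen.mono ?_ _ _ hh
  rintro a c ⟨l, h1, h2⟩
  exact ⟨l, h1, fun e he => inp_iff.mpr (h (inp_iff.mp (h2 e he)))⟩

lemma levVals_dnetU (X : Set ι) (ls : List (List (Net (ι ⊕ ℕ) S))) :
    ∀ v, levVals dnetU X ls v = dnotVals (inp X) ls v := by
  classical
  induction ls with
  | nil => intro v; rfl
  | cons l ls ih =>
    intro v
    simp only [levVals, dnotVals]
    rw [ih]
    congr 2
    refine List.map_congr_left fun N _ => ?_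
    congr 1
    rw [Bool.eq_iff_iff, decide_eq_true_iff]
    exact dnetU_iff N v X

end decomp

section

variable {r H M : ℕ}

/-- The block of a rule. -/
def Rule.blk : Rule r H M → ℕ
  | .top k _ _ => k
  | .side k _ _ => k
  | .inner k _ _ _ _ _ => k
  | .goal k _ => k

/-- The rule is respected by the cut `C` of its block. -/
def Rule.okCut (C : Finset (Gp H × Fin M)) : Rule r H M → Prop
  | .top _ b c => ((Fin.last H, b), c) ∈ C
  | .side _ a c => ((a, Fin.last H), c) ∈ C
  | .inner _ a b c c₁ c₂ => ((a.succ, b.castSucc), c₁) ∈ C → ((a.castSucc, b.succ), c₂) ∈ C →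
      ((a.castSucc, b.castSucc), c) ∈ C
  | .goal _ c => ((0, 0), c) ∉ C

/-- The rule belongs to the derivation given by `y`. -/
def Rule.onPath (y : Gp H → Fin M) : Rule r H M → Prop
  | .top _ b c => c = y (Fin.last H, b)
  | .side _ a c => c = y (a, Fin.last H)
  | .inner _ a b c c₁ c₂ => c = y (a.castSucc, b.castSucc) ∧ c₁ = y (a.succ, b.castSucc) ∧
      c₂ = y (a.castSucc, b.succ)
  | .goal _ c => c = y (0, 0)

/-- The cut systems. -/
def cutR (r H M : ℕ) (n : ℕ) (C : Finset (Gp H × Fin M)) : Set (Rule r H M) :=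
  {e | e.blk = n ∧ e.okCut C}

/-- The derivations. -/
def pathR (r H M : ℕ) (n : ℕ) (y : Gp H → Fin M) : Set (Rule r H M) :=
  {e | e.blk = n ∧ e.onPath y}

lemma mem_pull {y : Gp H → Fin M} {C : Finset (Gp H × Fin M)} {q : Gp H} :
    q ∈ pull y C ↔ (q, y q) ∈ C := by simp [pull]

lemma fits_grid : Fits (gridRules H) (cutR r H M) (pathR r H M) := by
  intro n y e he
  obtain ⟨hb, hp⟩ := he
  cases e with
  | top k b c =>
    refine ⟨∅, some (Fin.last H, b), Or.inl ⟨_, Or.inl rfl, rfl⟩, fun C hC => ?_⟩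
    have h1 : ((Fin.last H, b), c) ∉ C := fun h => hC ⟨hb, h⟩
    rw [cross_eq, if_pos]
    refine ⟨empty_subset _, ?_⟩
    intro v hv
    rw [Option.mem_def, Option.some.injEq] at hv
    subst hv
    have h2 : c = y (Fin.last H, b) := hp
    rw [mem_pull, ← h2]
    exact h1
  | side k a c =>
    refine ⟨∅, some (a, Fin.last H), Or.inl ⟨_, Or.inr rfl, rfl⟩, fun C hC => ?_⟩
    have h1 : ((a, Fin.last H), c) ∉ C := fun h => hC ⟨hb, h⟩
    rw [cross_eq, if_pos]
    refine ⟨empty_subset _, ?_⟩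
    intro v hv
    rw [Option.mem_def, Option.some.injEq] at hv
    subst hv
    have h2 : c = y (a, Fin.last H) := hp
    rw [mem_pull, ← h2]
    exact h1
  | inner k a b c c₁ c₂ =>
    refine ⟨{(a.succ, b.castSucc), (a.castSucc, b.succ)}, some (a.castSucc, b.castSucc),
      Or.inr (Or.inl ⟨a, b, rfl⟩), fun C hC => ?_⟩
    have h1 : ¬ (((a.succ, b.castSucc), c₁) ∈ C → ((a.castSucc, b.succ), c₂) ∈ C →
      ((a.castSucc, b.castSucc), c) ∈ C) := fun h => hC ⟨hb, h⟩
    push Not at h1
    obtain ⟨h2, h3, h4⟩ : c = y (a.castSucc, b.castSucc) ∧ c₁ = y (a.succ, b.castSucc) ∧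
      c₂ = y (a.castSucc, b.succ) := hp
    rw [cross_eq, if_pos]
    refine ⟨?_, ?_⟩
    · intro q hq
      rw [mem_insert, mem_singleton] at hq
      rcases hq with rfl | rfl
      · rw [mem_pull, ← h3]; exact h1.1
      · rw [mem_pull, ← h4]; exact h1.2.1
    · intro v hv
      rw [Option.mem_def, Option.some.injEq] at hv
      subst hv
      rw [mem_pull, ← h2]; exact h1.2.2
  | goal k c =>
    refine ⟨{(0, 0)}, none, Or.inr (Or.inr rfl), fun C hC => ?_⟩
    have h1 : ((0, 0), c) ∈ C := by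
      by_contra h
      exact hC ⟨hb, h⟩
    have h2 : c = y (0, 0) := hp
    rw [cross_eq, if_pos]
    refine ⟨?_, by simp⟩
    rw [singleton_subset_iff, mem_pull, ← h2]
    exact h1

/-- A union of cut systems is not solvable. -/
lemma not_solvable_of_cuts (X : Set (Rule r H M)) (C : ℕ → Finset (Gp H × Fin M))
    (hX : ∀ e ∈ X, e.okCut (C e.blk)) : ¬ Solvable (inp X) := by
  rintro ⟨k, c, hc, hd⟩
  have key : ∀ v : Atom r H M, Derivable (inp X) v → ((v.a, v.b), v.c) ∈ C v.k := by
    intro v hv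
    induction hv with
    | top k b c h => exact hX _ (inp_iff.mp h)
    | side k a c h => exact hX _ (inp_iff.mp h)
    | inner k a b c c₁ c₂ h h₁ h₂ ih₁ ih₂ => exact hX _ (inp_iff.mp h) ih₁ ih₂
  exact hX _ (inp_iff.mp hc) (key _ hd)

/-- The derivation of a block solves the system. -/
lemma solvable_of_path (X : Set (Rule r H M)) (n : ℕ) (hn : n < r) (y : Gp H → Fin M)
    (hX : pathR r H M n y ⊆ X) : Solvable (inp X) := by
  have hin : ∀ e : Rule r H M, e.blk = n → e.onPath y → inp X e = true :=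
    fun e h1 h2 => inp_iff.mpr (hX ⟨h1, h2⟩)
  set k : Fin r := ⟨n, hn⟩
  have h1 : ∀ m : ℕ, ∀ a b : Fin (H + 1), (H - a.val) + (H - b.val) = m →
      Derivable (inp X) ⟨k, a, b, y (a, b)⟩ := by
    intro m
    induction m using Nat.strong_induction_on with
    | _ m ih =>
      intro a b hab
      by_cases ha : a = Fin.last H
      · subst ha
        exact Derivable.top k b _ (hin _ rfl rfl)
      by_cases hb : b = Fin.last H
      · subst hb
        exact Derivable.side k a _ (hin _ rfl rfl)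
      have ha' : a.val < H := by
        have : a.val ≠ H := fun h => ha (Fin.ext (by simpa using h))
        omega
      have hb' : b.val < H := by
        have : b.val ≠ H := fun h => hb (Fin.ext (by simpa using h))
        omega
      obtain ⟨a₀, rfl⟩ : ∃ a₀ : Fin H, a = a₀.castSucc := ⟨⟨a.val, ha'⟩, by ext; rfl⟩
      obtain ⟨b₀, rfl⟩ : ∃ b₀ : Fin H, b = b₀.castSucc := ⟨⟨b.val, hb'⟩, by ext; rfl⟩
      have ha0 := a₀.isLt
      have hb0 := b₀.isLt
      simp only [Fin.val_castSucc] at hab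
      refine Derivable.inner k a₀ b₀ _ (y (a₀.succ, b₀.castSucc)) (y (a₀.castSucc, b₀.succ))
        (hin _ rfl ⟨rfl, rfl, rfl⟩) ?_ ?_
      · refine ih ((H - a₀.succ.val) + (H - b₀.castSucc.val)) ?_ _ _ rfl
        simp only [Fin.val_castSucc, Fin.val_succ]
        omega
      · refine ih ((H - a₀.castSucc.val) + (H - b₀.succ.val)) ?_ _ _ rfl
        simp only [Fin.val_castSucc, Fin.val_succ]
        omega
  exact ⟨k, y (0, 0), hin _ rfl rfl, h1 _ 0 0 rfl⟩

/-- Rules as tuples. -/
def ruleEquiv (r H M : ℕ) : Rule r H M ≃ (Fin r × Fin (H + 1) × Fin M) ⊕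
    ((Fin r × Fin (H + 1) × Fin M) ⊕ ((Fin r × Fin H × Fin H × Fin M × Fin M × Fin M) ⊕
      (Fin r × Fin M))) where
  toFun := fun e => match e with
    | .top k b c => Sum.inl (k, b, c)
    | .side k a c => Sum.inr (Sum.inl (k, a, c))
    | .inner k a b c c₁ c₂ => Sum.inr (Sum.inr (Sum.inl (k, a, b, c, c₁, c₂)))
    | .goal k c => Sum.inr (Sum.inr (Sum.inr (k, c)))
  invFun := fun e => match e with
    | Sum.inl (k, b, c) => .top k b c
    | Sum.inr (Sum.inl (k, a, c)) => .side k a c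
    | Sum.inr (Sum.inr (Sum.inl (k, a, b, c, c₁, c₂))) => .inner k a b c c₁ c₂
    | Sum.inr (Sum.inr (Sum.inr (k, c))) => .goal k c
  left_inv := by intro e; cases e <;> rfl
  right_inv := by
    intro e
    rcases e with ⟨k, b, c⟩ | ⟨k, a, c⟩ | ⟨k, a, b, c, c₁, c₂⟩ | ⟨k, c⟩ <;> rfl

lemma card_rule (r H M : ℕ) :
    Nat.card (Rule r H M) = r * (2 * ((H + 1) * M) + H ^ 2 * M ^ 3 + M) := by
  rw [Nat.card_congr (ruleEquiv r H M)]
  simp only [Nat.card_eq_fintype_card, Fintype.card_sum, Fintype.card_prod, Fintype.card_fin]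
  ring

/-- **Master inequality for path systems.** -/
theorem grid_master (r H M S T s F : ℕ) (hH : 2 ≤ H) (hs : 2 * r ≤ 2 ^ s)
    (hs1 : 1 ≤ s) (hM : 81 * (2 * s - 1) * (H + 1) ^ 2 ≤ M) (hS0 : 0 < S)
    (hF : (2 * S) ^ Nat.clog 2 S * Nat.card (Rule r H M) ≤ F)
    (D : Device (Rule r H M) S T) (h : (Fin T → Bool) → Bool)
    (hD : ∀ x : Rule r H M → Bool, h (D.dval x) = true ↔ Solvable x)
    (hsize : 192 * 9 ^ (H + 1) * (r * F) ^ 2 * ((H + 1) ^ 2) ^ (H - 2) ≤ M ^ (H - 2)) :
    r < 3 * ((T + 1) * D.weight) := by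
  classical
  have hw1 : 1 ≤ D.weight := levProd_pos D.levels
  rcases Nat.eq_zero_or_pos r with hr | hr
  · exact lt_of_le_of_lt hr.le (by positivity)
  have hM0 : 0 < M := by
    refine lt_of_lt_of_le ?_ hM
    have : 0 < 2 * s - 1 := by omega
    positivity
  have _inst : Fintype (Rule r H M) := Fintype.ofEquiv _ (ruleEquiv r H M).symm
  have hcard : Nat.card (Rule r H M) = Fintype.card (Rule r H M) := Nat.card_eq_fintype_card
  have hF0 : 0 < F := by
    refine lt_of_lt_of_le ?_ hF
    rw [card_rule]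
    have : 0 < r * (2 * ((H + 1) * M) + H ^ 2 * M ^ 3 + M) := by positivity
    positivity
  have hrR : (0 : ℝ) < r := by exact_mod_cast hr
  have hFR : (0 : ℝ) < F := by exact_mod_cast hF0
  have hMR : (0 : ℝ) < M := by exact_mod_cast hM0
  set β : ℝ := 1 / (8 * r * F) with hβ
  have hcardI : Fintype.card (Gp H) = (H + 1) ^ 2 := by
    simp only [Gp, Fintype.card_prod, Fintype.card_fin]; ring
  have hparams : Params (gridRules H) (fun B => Op H (gpn B) 0 0) M F (1 / (2 * (r : ℝ))) := by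
    refine ⟨H + 1, H - 2, 3, s, β, grid_consistent H (by omega), by omega, ?_, hs1, ?_, by omega,
      fun A w hA => gridRules_card hA, by positivity, ?_, ?_⟩
    · rw [hcardI]; positivity
    · rw [hcardI]; exact hM
    · rw [hcardI]
      have h1 : (192 : ℝ) * 9 ^ (H + 1) * (r * F) ^ 2 * (((H + 1) ^ 2 : ℕ) : ℝ) ^ (H - 2)
          ≤ (M : ℝ) ^ (H - 2) := by exact_mod_cast hsize
      rw [hβ, div_pow, div_pow, mul_div_assoc', mul_div_assoc', div_le_div_iff₀ (by positivity)
        (by positivity), one_pow, one_mul]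
      calc (9 : ℝ) ^ (H + 1) * (3 * (((H + 1) ^ 2 : ℕ) : ℝ) ^ (H - 2)) * (8 * r * F) ^ 2
          = 192 * 9 ^ (H + 1) * (r * F) ^ 2 * (((H + 1) ^ 2 : ℕ) : ℝ) ^ (H - 2) := by ring
        _ ≤ _ := h1
    · have h1 : (1 / 2 : ℝ) ^ s / 2 ≤ 1 / (4 * r) := by
        have h2 : (2 : ℝ) * r ≤ 2 ^ s := by exact_mod_cast hs
        rw [one_div, inv_pow, div_eq_mul_inv, ← mul_inv, one_div]
        apply inv_anti₀ (by positivity)
        linarith
      have h2 : 2 * (F : ℝ) * β = 1 / (4 * r) := by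
        rw [hβ]; field_simp; norm_num
      have h3 : 1 / (4 * (r : ℝ)) + 1 / (4 * r) = 1 / (2 * r) := by
        field_simp; norm_num
      linarith
  have hdom : ∀ (N : Net (Rule r H M ⊕ ℕ) S) (b : List Bool),
      Dominated (cutR r H M) (pathR r H M) (1 / (2 * (r : ℝ))) (dnetU N b) := by
    intro N b
    obtain ⟨φ, hφl, hφ⟩ := savitch (N.subst b) (Nat.clog 2 S) (Nat.le_pow_clog (by norm_num) S)
    have h1 := Fm.dominated hparams fits_grid φ (hφl.trans (by rw [← hcard]; exact hF))
    have h2 : (fun X : Set (Rule r H M) => φ.Holds (inp X)) = dnetU N b := by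
      funext X
      exact propext (hφ (inp X))
    rwa [h2] at h1
  set Good : ℕ → Set (Rule r H M) → Prop := fun n X => n ≤ r ∧
    ∃ C : ℕ → Finset (Gp H × Fin M), ∀ e ∈ X, n ≤ e.blk ∧ e.okCut (C e.blk) with hGood
  refine levels_main hM0 dnetU_mono r hr hdom D.levels T D.outs Good ?_ ?_ ∅
    ⟨le_rfl, fun _ => ∅, fun e he => absurd he (Set.notMem_empty _)⟩
  · rintro n X ⟨hn, C, hC⟩ y
    by_contra hcon
    push Not at hcon
    have h2 : D.dval (inp X) = D.dval (inp (X ∪ pathR r H M n y)) := by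
      funext i
      have h1 := hcon i
      rw [dnetU_iff, dnetU_iff, levVals_dnetU, levVals_dnetU] at h1
      exact Bool.eq_iff_iff.mpr h1
    have h3 : ¬ Solvable (inp X) := not_solvable_of_cuts X C fun e he => (hC e he).2
    have h4 : Solvable (inp (X ∪ pathR r H M n y)) :=
      solvable_of_path _ n (by omega) y Set.subset_union_right
    rw [← hD] at h3 h4
    rw [h2] at h3
    exact h3 h4
  · rintro n X ⟨hn, C, hC⟩ C'
    refine ⟨by omega, Function.update C n C', ?_⟩
    intro e he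
    rcases he with he | he
    · have h1 := hC e he
      refine ⟨by omega, ?_⟩
      rw [Function.update_of_ne (by omega)]
      exact h1.2
    · refine ⟨he.1.ge, ?_⟩
      rw [he.1, Function.update_self]
      exact he.2

end

end Pool.Agent.TeleNeg
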