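import Pool.Agent.TeleNeg.GridAvg

/-!
# Layered path systems are hard on average for undirected networks whose NOT gates rarely change
-/

namespace Pool.Agent.TeleNeg

open Finset
open scoped BigOperators

section

open Classical in
/-- **Master inequality for path systems**, average case, undirected networks. -/
theorem grid_changes_net (r H M S T s K a : ℕ) (hH : 2 ≤ H) (hs : 2 * r ≤ 2 ^ s)
    (hs1 : 1 ≤ s) (hM : 81 * (2 * s - 1) * (H + 1) ^ 2 ≤ M) (hr : 0 < r) (hK0 : 0 < K)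
    (D : Device (Rule r H M) S T)
    (hK : (D.negs + 1) * S ≤ K)
    (h : (Fin T → Bool) → Bool) (hD : D.ChangesAtMost a)
    (hsize : 192 * 9 ^ (H + 1) * (r * K) ^ 2 * ((H + 1) ^ 2) ^ (H - 2) ≤ M ^ (H - 2)) :
    ∑ x with (h (D.val x) = true ↔ Solvable x), muOf (cutR r H M) (pathR r H M) r x
      ≤ 1 / 2 + 3 * ((T + 1) * (a + 1)) / (2 * r) := by
  have hM0 : 0 < M := by
    refine lt_of_lt_of_le ?_ hM
    have : 0 < 2 * s - 1 := by omega
    positivity
  have hrR : (0 : ℝ) < r := by exact_mod_cast hr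
  have hKR : (0 : ℝ) < K := by exact_mod_cast hK0
  have hMR : (0 : ℝ) < M := by exact_mod_cast hM0
  set β : ℝ := 1 / (8 * r * K) with hβ
  have hcardI : Fintype.card (Gp H) = (H + 1) ^ 2 := by
    simp only [Gp, Fintype.card_prod, Fintype.card_fin]; ring
  have hparams : Params (gridRules H) (fun B => Op H (gpn B) 0 0) M K (1 / (2 * (r : ℝ))) := by
    refine ⟨H + 1, H - 2, 3, s, β, grid_consistent H (by omega), by omega, ?_, hs1, ?_, by omega,
      fun A w hA => gridRules_card hA, by positivity, ?_, ?_⟩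
    · rw [hcardI]; positivity
    · rw [hcardI]; exact hM
    · rw [hcardI]
      have h1 : (192 : ℝ) * 9 ^ (H + 1) * (r * K) ^ 2 * (((H + 1) ^ 2 : ℕ) : ℝ) ^ (H - 2)
          ≤ (M : ℝ) ^ (H - 2) := by exact_mod_cast hsize
      rw [hβ, div_pow, div_pow, mul_div_assoc', mul_div_assoc', div_le_div_iff₀ (by positivity)
        (by positivity), one_pow, one_mul]
      calc (9 : ℝ) ^ (H + 1) * (3 * (((H + 1) ^ 2 : ℕ) : ℝ) ^ (H - 2)) * (8 * r * K) ^ 2
          = 192 * 9 ^ (H + 1) * (r * K) ^ 2 * (((H + 1) ^ 2 : ℕ) : ℝ) ^ (H - 2) := by ring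
        _ ≤ _ := h1
    · have h1 : (1 / 2 : ℝ) ^ s / 2 ≤ 1 / (4 * r) := by
        have h2 : (2 : ℝ) * r ≤ 2 ^ s := by exact_mod_cast hs
        rw [one_div, inv_pow, div_eq_mul_inv, ← mul_inv, one_div]
        apply inv_anti₀ (by positivity)
        linarith
      have h2 : 2 * (K : ℝ) * β = 1 / (4 * r) := by
        rw [hβ]; field_simp; norm_num
      have h3 : 1 / (4 * (r : ℝ)) + 1 / (4 * r) = 1 / (2 * r) := by
        field_simp; norm_num
      linarith
  set Good : ℕ → Set (Rule r H M) → Prop := fun n X => n ≤ r ∧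
    ∃ C : ℕ → Finset (Gp H × Fin M), ∀ e ∈ X, n ≤ e.blk ∧ e.okCut (C e.blk) with hGood
  refine changes_avg hM0 netU_mono r hr D.levels ?_ T D.outs a Good Solvable ?_ ?_ ?_
    ⟨le_rfl, fun _ => ∅, fun e he => absurd he (Set.notMem_empty _)⟩
    (Device.mainC_le (cutR r H M) D hD r ∅) (fun x => h (D.val x) = true) ?_
  · intro ps hps
    refine nets_dominated (by positivity) hparams fits_grid ps (le_trans ?_ hK)
    exact Nat.mul_le_mul_right S hps
  · rintro n X ⟨hn, C, hC⟩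
    exact not_solvable_of_cuts X C fun e he => (hC e he).2
  · rintro n X ⟨hn, C, hC⟩ y
    exact solvable_of_path _ n (by omega) y Set.subset_union_right
  · rintro n X ⟨hn, C, hC⟩ C'
    refine ⟨by omega, Function.update C n C', ?_⟩
    intro e he
    rcases he with he | he
    · have h1 := hC e he
      refine ⟨by omega, ?_⟩
      rw [Function.update_of_ne (by omega)]
      exact h1.2
    · refine ⟨he.1.ge, ?_⟩
      rw [he.1, Function.update_self]
      exact he.2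
  · intro X X' hXX'
    have h2 : D.val (inp X) = D.val (inp X') := by
      funext i
      have h1 := hXX' i
      rw [netU_iff, netU_iff, levVals_netU, levVals_netU] at h1
      exact Bool.eq_iff_iff.mpr h1
    rw [h2]

open Classical in
/-- **Average case, path systems, undirected networks and directed networks.** -/
theorem grid_avg_both (r H : ℕ) (hH : 6 ≤ H) (hr : 0 < r) :
    ∃ μ : (Rule r H (2 ^ 8 * (H + 1) ^ 3) → Bool) → ℝ, (∀ x, 0 ≤ μ x) ∧ ∑ x, μ x = 1 ∧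
      (∀ (S T a : ℕ) (D : Device (Rule r H (2 ^ 8 * (H + 1) ^ 3)) S T)
        (h : (Fin T → Bool) → Bool), 1 ≤ S → D.ChangesAtMost a →
        r * ((D.negs + 1) * S) ≤ 2 ^ H →
        ∑ x with (h (D.val x) = true ↔ Solvable x), μ x
          ≤ 1 / 2 + 3 * ((T + 1) * (a + 1)) / (2 * r)) ∧
      ∀ (S T a : ℕ) (D : Device (Rule r H (2 ^ 8 * (H + 1) ^ 3)) S T)
        (h : (Fin T → Bool) → Bool), 1 ≤ S → D.DChangesAtMost a →
        r ^ 2 * (2 ^ 24 * (H + 1) ^ 11) * ((D.negs + 1) * (2 * S) ^ Nat.clog 2 S) ≤ 2 ^ H →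
        ∑ x with (h (D.dval x) = true ↔ Solvable x), μ x
          ≤ 1 / 2 + 3 * ((T + 1) * (a + 1)) / (2 * r) := by
  have hMM : 81 * (2 * (H + 1) - 1) * (H + 1) ^ 2 ≤ 2 ^ 8 * (H + 1) ^ 3 := by
    calc 81 * (2 * (H + 1) - 1) * (H + 1) ^ 2 ≤ (2 ^ 8 * (H + 1)) * (H + 1) ^ 2 := by
          apply Nat.mul_le_mul_right
          omega
      _ = 2 ^ 8 * (H + 1) ^ 3 := by ring
  have h44 : (2 ^ H) ^ 2 = 4 ^ H := by
    have e0 : (4 : ℕ) = 2 ^ 2 := by norm_num
    rw [e0, ← pow_mul, ← pow_mul, mul_comm]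
  have hsz : ∀ F : ℕ, r * F ≤ 2 ^ H → 192 * 9 ^ (H + 1) * (r * F) ^ 2 * ((H + 1) ^ 2) ^ (H - 2)
      ≤ (2 ^ 8 * (H + 1) ^ 3) ^ (H - 2) := by
    intro F hrF
    have e1 : (r * F) ^ 2 ≤ 4 ^ H := by
      rw [← h44]
      exact Nat.pow_le_pow_left hrF 2
    calc 192 * 9 ^ (H + 1) * (r * F) ^ 2 * ((H + 1) ^ 2) ^ (H - 2)
        ≤ 192 * 9 ^ (H + 1) * 4 ^ H * ((H + 1) ^ 2) ^ (H - 2) := by
          apply Nat.mul_le_mul_right
          exact Nat.mul_le_mul_left _ e1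
      _ ≤ (2 ^ 8 * (H + 1)) ^ (H - 2) * ((H + 1) ^ 2) ^ (H - 2) :=
          Nat.mul_le_mul_right _ (size_aux H hH)
      _ = (2 ^ 8 * (H + 1) ^ 3) ^ (H - 2) := by
        have e2 : 2 ^ 8 * (H + 1) * (H + 1) ^ 2 = 2 ^ 8 * (H + 1) ^ 3 := by ring
        rw [← mul_pow, e2]
  have hrr : ∀ F : ℕ, 0 < F → r * F ≤ 2 ^ H → 2 * r ≤ 2 ^ (H + 1) := by
    intro F hF0 hrF
    have hr2 : r ≤ 2 ^ H := (Nat.le_mul_of_pos_right r hF0).trans hrF
    have : 2 ^ (H + 1) = 2 ^ H * 2 := pow_succ 2 H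
    omega
  refine ⟨muOf (cutR r _ _) (pathR r _ _) r, muOf_nonneg _ _ r,
    muOf_total _ _ (by positivity) r hr, ?_, ?_⟩
  · intro S T a D h hS hD hcon
    have hK0 : 0 < (D.negs + 1) * S := Nat.mul_pos (by omega) hS
    exact grid_changes_net r H (2 ^ 8 * (H + 1) ^ 3) S T (H + 1) ((D.negs + 1) * S) a (by omega)
      (hrr _ hK0 hcon) (by omega) hMM hr hK0 D le_rfl h hD (hsz _ hcon)
  · intro S T a D h hS hD hcon
    set F := (D.negs + 1) * ((2 * S) ^ Nat.clog 2 S * (r * (2 ^ 24 * (H + 1) ^ 11))) with hF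
    have hrF : r * F ≤ 2 ^ H := by
      calc r * F = r ^ 2 * (2 ^ 24 * (H + 1) ^ 11) * ((D.negs + 1) * (2 * S) ^ Nat.clog 2 S) := by
            rw [hF]; ring
        _ ≤ 2 ^ H := hcon
    have hF0 : 0 < F := by rw [hF]; positivity
    have hFl : (D.negs + 1) * ((2 * S) ^ Nat.clog 2 S * Nat.card (Rule r H (2 ^ 8 * (H + 1) ^ 3)))
        ≤ F := by
      rw [hF]
      exact Nat.mul_le_mul_left _ (Nat.mul_le_mul_left _ (card_rule_le r H))
    exact grid_changes r H (2 ^ 8 * (H + 1) ^ 3) S T (H + 1) F a (by omega) (hrr F hF0 hrF)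
      (by omega) hMM hr hF0 D hFl h hD (hsz F hrF)

end

end Pool.Agent.TeleNeg
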