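import Pool.Agent.TeleNeg.PathFinal
import Pool.Agent.TeleNeg.Par

/-!
# Reachability in the layered digraph is hard on average for networks whose NOT gates rarely change
-/

namespace Pool.Agent.TeleNeg

open Finset
open scoped BigOperators

instance Arc.instFinite (r L M : ℕ) : Finite (Arc r L M) :=
  Finite.of_equiv _ (arcEquiv r L M).symm

/-- There are finitely many arcs. -/
noncomputable instance Arc.instFintype (r L M : ℕ) : Fintype (Arc r L M) := Fintype.ofFinite _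

section

variable {r L M : ℕ}

open Classical in
/-- **Master inequality**, average case. -/
theorem path_changes (r L M S T p s K a : ℕ) (hL : 2 ^ p ≤ L + 1) (hp : 1 ≤ p)
    (hs : 2 * r ≤ 2 ^ s) (hs1 : 1 ≤ s) (hM : 81 * (2 * s - 1) * (L + 1) ≤ M) (hr : 0 < r)
    (hK0 : 0 < K)
    (hsize : 1728 * 9 ^ p * (r * K) ^ 2 * (L + 1) ^ (p - 1) ≤ M ^ (p - 1))
    (D : Device (Arc r L M) S T) (hK : (D.negs + 1) * S ≤ K) (h : (Fin T → Bool) → Bool)
    (hD : D.ChangesAtMost a) :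
    ∑ x with (h (D.val x) = true ↔ Reach x), muOf (cutG r L M) (pathG r L M) r x
      ≤ 1 / 2 + 3 * ((T + 1) * (a + 1)) / (2 * r) := by
  have hM0 : 0 < M := by
    refine lt_of_lt_of_le ?_ hM
    have : 0 < 2 * s - 1 := by omega
    positivity
  have hrR : (0 : ℝ) < r := by exact_mod_cast hr
  have hKR : (0 : ℝ) < K := by exact_mod_cast hK0
  have hMR : (0 : ℝ) < M := by exact_mod_cast hM0
  set β : ℝ := 1 / (8 * r * K) with hβ
  have hparams : Params (pathRules L) (fun B => Peb p (posn B)) M K (1 / (2 * (r : ℝ))) := by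
    refine ⟨p + 1, p - 1, 2, s, β, path_consistent p L hL, by omega, ?_, hs1, ?_, by omega,
      fun A w hA => pathRules_card hA, by positivity, ?_, ?_⟩
    · rw [Fintype.card_fin]; omega
    · rw [Fintype.card_fin]; exact hM
    · rw [Fintype.card_fin]
      have h1 : (1728 : ℝ) * 9 ^ p * (r * K) ^ 2 * ((L + 1 : ℕ) : ℝ) ^ (p - 1)
          ≤ (M : ℝ) ^ (p - 1) := by exact_mod_cast hsize
      rw [hβ, div_pow, div_pow, mul_div_assoc', mul_div_assoc', div_le_div_iff₀ (by positivity)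
        (by positivity), one_pow, one_mul, pow_succ]
      calc (9 : ℝ) ^ p * 9 * (3 * ((L + 1 : ℕ) : ℝ) ^ (p - 1)) * (8 * r * K) ^ 2
          = 1728 * 9 ^ p * (r * K) ^ 2 * ((L + 1 : ℕ) : ℝ) ^ (p - 1) := by ring
        _ ≤ _ := h1
    · have h1 : (1 / 2 : ℝ) ^ s / 2 ≤ 1 / (4 * r) := by
        have h2 : (2 : ℝ) * r ≤ 2 ^ s := by exact_mod_cast hs
        rw [one_div, inv_pow, div_eq_mul_inv, ← mul_inv, one_div]
        apply inv_anti₀ (by positivity)
        linarith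
      have h2 : 2 * (K : ℝ) * β = 1 / (4 * r) := by
        rw [hβ]; field_simp; norm_num
      have h3 : 1 / (4 * (r : ℝ)) + 1 / (4 * r) = 1 / (2 * r) := by
        field_simp; norm_num
      linarith
  set Good : ℕ → Set (Arc r L M) → Prop := fun n X => n ≤ r ∧
    ∃ C : ℕ → Finset (Fin (L + 1) × Fin M), ∀ e ∈ X, n ≤ e.blk ∧ e.okCut (C e.blk) with hGood
  refine changes_avg hM0 netU_mono r hr D.levels ?_ T D.outs a Good Reach ?_ ?_ ?_
    ⟨le_rfl, fun _ => ∅, fun e he => absurd he (Set.notMem_empty _)⟩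
    (Device.mainC_le (cutG r L M) D hD r ∅) (fun x => h (D.val x) = true) ?_
  · intro ps hps
    refine nets_dominated (by positivity) hparams fits_path ps (le_trans ?_ hK)
    exact Nat.mul_le_mul_right S hps
  · rintro n X ⟨hn, C, hC⟩
    exact not_reach_of_cuts X C fun e he => (hC e he).2
  · rintro n X ⟨hn, C, hC⟩ y
    exact reach_of_path _ n (by omega) y Set.subset_union_right
  · rintro n X ⟨hn, C, hC⟩ C'
    refine ⟨by omega, Function.update C n C', ?_⟩
    intro e he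
    rcases he with he | he
    · have h1 := hC e he
      refine ⟨by omega, ?_⟩
      rw [Function.update_of_ne (by omega)]
      exact h1.2
    · refine ⟨he.1.ge, ?_⟩
      rw [he.1, Function.update_self]
      exact he.2
  · intro X X' hXX'
    have h2 : D.val (inp X) = D.val (inp X') := by
      funext i
      have h1 := hXX' i
      rw [netU_iff, netU_iff, levVals_netU, levVals_netU] at h1
      exact Bool.eq_iff_iff.mpr h1
    rw [h2]

open Classical in
/-- **Average case, directed connectivity.** -/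
theorem path_avg (r p : ℕ) (hr : 0 < r) :
    ∃ μ : (Arc r (2 ^ p - 1) (2 ^ (5 * p)) → Bool) → ℝ, (∀ x, 0 ≤ μ x) ∧ ∑ x, μ x = 1 ∧
      ∀ (S T a : ℕ) (D : Device (Arc r (2 ^ p - 1) (2 ^ (5 * p))) S T)
        (h : (Fin T → Bool) → Bool), 1 ≤ S → D.ChangesAtMost a →
        2 ^ (4 * p + 6) * (r * ((D.negs + 1) * S)) < 2 ^ (2 * p ^ 2) →
        ∑ x with (h (D.val x) = true ↔ Reach x), μ x
          ≤ 1 / 2 + 3 * ((T + 1) * (a + 1)) / (2 * r) := by
  refine ⟨muOf (cutG r _ _) (pathG r _ _) r, muOf_nonneg _ _ r,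
    muOf_total _ _ (by positivity) r hr, ?_⟩
  intro S T a D h hS hD hcon
  set K := (D.negs + 1) * S with hKdef
  have hK : 0 < K := Nat.mul_pos (by omega) hS
  have hrS : 0 < r * K := Nat.mul_pos hr hK
  have h1 : 4 * p + 6 < 2 * p ^ 2 := by
    have h2 : 2 ^ (4 * p + 6) < 2 ^ (2 * p ^ 2) := by
      calc 2 ^ (4 * p + 6) = 2 ^ (4 * p + 6) * 1 := by ring
        _ ≤ 2 ^ (4 * p + 6) * (r * K) := Nat.mul_le_mul_left _ hrS
        _ < _ := hcon
    exact (Nat.pow_lt_pow_iff_right (by norm_num)).mp h2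
  have hp4 : 4 ≤ p := by
    by_contra h0
    have : p = 0 ∨ p = 1 ∨ p = 2 ∨ p = 3 := by omega
    rcases this with rfl | rfl | rfl | rfl <;> omega
  obtain ⟨q, hq⟩ : ∃ q, 2 * p ^ 2 = (4 * p + 6) + q := ⟨2 * p ^ 2 - (4 * p + 6), by omega⟩
  have h3 : r * K < 2 ^ q := by
    have hcon' : 2 ^ (4 * p + 6) * (r * K) < 2 ^ (4 * p + 6) * 2 ^ q := by
      rw [← pow_add, ← hq]; exact hcon
    exact lt_of_mul_lt_mul_left hcon' (Nat.zero_le _)
  have h4 : r < 2 ^ q := lt_of_le_of_lt (Nat.le_mul_of_pos_right r hK) h3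
  refine path_changes r (2 ^ p - 1) (2 ^ (5 * p)) S T p (q + 1) K a ?_ (by omega) ?_ (by omega) ?_
    hr hK ?_ D le_rfl h hD
  · have : 1 ≤ 2 ^ p := Nat.one_le_two_pow
    omega
  · rw [pow_succ]; omega
  · have h6 := bound_aux p hp4
    have h7 : 2 ^ p - 1 + 1 = 2 ^ p := by
      have : 1 ≤ 2 ^ p := Nat.one_le_two_pow
      omega
    rw [h7]
    have h8 : 2 ^ (5 * p) = 2 ^ (4 * p) * 2 ^ p := by rw [← pow_add]; congr 1; ring
    rw [h8]
    apply Nat.mul_le_mul_right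
    have h9 : 2 * (q + 1) - 1 ≤ 2 * (2 * p ^ 2) := by omega
    calc 81 * (2 * (q + 1) - 1) ≤ 81 * (2 * (2 * p ^ 2)) := Nat.mul_le_mul_left _ h9
      _ = 162 * (2 * p ^ 2) := by ring
      _ ≤ _ := h6
  · have h7 : 2 ^ p - 1 + 1 = 2 ^ p := by
      have : 1 ≤ 2 ^ p := Nat.one_le_two_pow
      omega
    rw [h7]
    have h8 : (2 ^ (5 * p)) ^ (p - 1) = 2 ^ (4 * p * (p - 1)) * (2 ^ p) ^ (p - 1) := by
      rw [← pow_mul, ← pow_mul, ← pow_add]; congr 1; ring
    rw [h8]
    apply Nat.mul_le_mul_right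
    have h9 : 9 ^ p ≤ 2 ^ (4 * p) := by
      rw [pow_mul]; exact Nat.pow_le_pow_left (by norm_num) p
    have h10 : (r * K) ^ 2 ≤ 2 ^ (2 * q) := by
      calc (r * K) ^ 2 ≤ (2 ^ q) ^ 2 := Nat.pow_le_pow_left h3.le 2
        _ = _ := by rw [← pow_mul]; congr 1; ring
    calc 1728 * 9 ^ p * (r * K) ^ 2 ≤ 2 ^ 12 * 2 ^ (4 * p) * 2 ^ (2 * q) := by
          gcongr
          norm_num
      _ = 2 ^ (12 + 4 * p + 2 * q) := by rw [← pow_add, ← pow_add]
      _ ≤ 2 ^ (4 * p * (p - 1)) := by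
        apply Nat.pow_le_pow_right (by norm_num)
        obtain ⟨a, rfl⟩ : ∃ a, p = a + 1 := ⟨p - 1, by omega⟩
        simp only [Nat.add_sub_cancel]
        have : 2 * (2 * (a + 1) ^ 2) = 2 * (4 * (a + 1) + 6 + q) := by rw [hq]
        nlinarith

end

end Pool.Agent.TeleNeg
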