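import Pool.Agent.TeleNeg.Pseudo

/-!
# The reversible pebble game on a path
-/

namespace Pool.Agent.TeleNeg

open Finset

/-- Sets of pebbled positions (`1, 2, ...`) reachable in the reversible pebble game on a path with
`p` pebbles: the pebble placed when there are `j` others lies at most `2 ^ (p - j - 1)` after
some pebble or the start `0`. -/
inductive Peb (p : ℕ) : Finset ℕ → Prop
  | nil : Peb p ∅
  | add (B : Finset ℕ) (b : ℕ) (hb : b ∉ B)
      (h : ∃ a ∈ insert 0 B, a < b ∧ b ≤ a + 2 ^ (p - (B.card + 1))) (hB : Peb p B) :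
      Peb p (insert b B)

lemma Peb.remove {p : ℕ} {B : Finset ℕ} (hB : Peb p B) : B.card ≤ p → ∀ b ∈ B,
    (∃ a ∈ insert 0 (B.erase b), a < b ∧ b ≤ a + 2 ^ (p - B.card)) → Peb p (B.erase b) := by
  induction hB with
  | nil => intro _ b hb; exact absurd hb (notMem_empty _)
  | add B c hc h hB ih =>
    intro hcard b hb hex
    rw [card_insert_of_notMem hc] at hcard hex
    obtain ⟨a', ha', ha'c, hca'⟩ := h
    by_cases hbc : b = c
    · subst hbc
      rw [erase_insert hc]; exact hB
    · have hbB : b ∈ B := (mem_insert.mp hb).resolve_left hbc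
      obtain ⟨a, ha, hab, hba⟩ := hex
      have hpow : 2 ^ (p - B.card) = 2 * 2 ^ (p - (B.card + 1)) := by
        have : p - B.card = (p - (B.card + 1)) + 1 := by omega
        rw [this, pow_succ]; ring
      have hpos : 0 < 2 ^ (p - (B.card + 1)) := by positivity
      have mem_of : ∀ x, x ∈ insert 0 ((insert c B).erase b) → x ≠ c → x ∈ insert 0 (B.erase b) := by
        intro x hx hxc
        rw [mem_insert, mem_erase, mem_insert] at hx
        rw [mem_insert, mem_erase]
        rcases hx with hx | ⟨h1, h2 | h2⟩
        · exact Or.inl hx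
        · exact absurd h2 hxc
        · exact Or.inr ⟨h1, h2⟩
      have mem_of' : ∀ x, x ∈ insert 0 B → x ≠ b → x ∈ insert 0 (B.erase b) := by
        intro x hx hxb
        rw [mem_insert] at hx
        rw [mem_insert, mem_erase]
        rcases hx with hx | hx
        · exact Or.inl hx
        · exact Or.inr ⟨hxb, hx⟩
      have h1 : Peb p (B.erase b) := by
        refine ih (by omega) b hbB ?_
        by_cases hac : a = c
        · exact ⟨a', mem_of' a' ha' (by omega), by omega, by omega⟩
        · exact ⟨a, mem_of a ha hac, hab, by omega⟩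
      have e1 : (insert c B).erase b = insert c (B.erase b) := by
        rw [erase_insert_of_ne (Ne.symm hbc)]
      rw [e1]
      refine Peb.add _ c (fun h => hc (mem_of_mem_erase h)) ?_ h1
      have e2 : (B.erase b).card + 1 = B.card := by
        rw [card_erase_of_mem hbB]
        have : 0 < B.card := card_pos.mpr ⟨b, hbB⟩
        omega
      rw [e2]
      by_cases hab' : a' = b
      · subst hab'
        exact ⟨a, mem_of a ha (by omega), by omega, by omega⟩
      · exact ⟨a', mem_of' a' ha' hab', ha'c, by omega⟩

lemma Peb.bound {p : ℕ} {B : Finset ℕ} (hB : Peb p B) : B.card ≤ p → ∀ b ∈ B,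
    b + 2 ^ (p - B.card) ≤ 2 ^ p := by
  induction hB with
  | nil => intro _ b hb; exact absurd hb (notMem_empty _)
  | add B c hc h hB ih =>
    intro hcard b hb
    rw [card_insert_of_notMem hc] at hcard ⊢
    obtain ⟨a', ha', ha'c, hca'⟩ := h
    have hpow : 2 ^ (p - B.card) = 2 * 2 ^ (p - (B.card + 1)) := by
      have : p - B.card = (p - (B.card + 1)) + 1 := by omega
      rw [this, pow_succ]; ring
    have hpos : 0 < 2 ^ (p - (B.card + 1)) := by positivity
    rw [mem_insert] at hb ha'
    rcases hb with rfl | hb
    · rcases ha' with ha' | ha'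
      · have h1 : 2 ^ (p - B.card) ≤ 2 ^ p := Nat.pow_le_pow_right (by norm_num) (by omega)
        omega
      · have := ih (by omega) a' ha'
        omega
    · have := ih (by omega) b hb
      omega

/-- The rules of the path with positions `0, ..., L`. -/
def pathRules (L : ℕ) : Set (Finset (Fin (L + 1)) × Option (Fin (L + 1))) :=
  {q | q = (∅, some 0) ∨ (∃ i : Fin L, q = ({i.castSucc}, some i.succ)) ∨
    q = ({Fin.last L}, none)}

lemma pathRules_card {L : ℕ} {A : Finset (Fin (L + 1))} {w : Option (Fin (L + 1))}
    (h : (A, w) ∈ pathRules L) : (A ∪ w.toFinset).card ≤ 2 := by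
  rcases h with h | ⟨i, h⟩ | h
  · rw [Prod.mk.injEq] at h
    obtain ⟨rfl, rfl⟩ := h
    simp
  · rw [Prod.mk.injEq] at h
    obtain ⟨rfl, rfl⟩ := h
    refine (card_union_le _ _).trans ?_
    simp
  · rw [Prod.mk.injEq] at h
    obtain ⟨rfl, rfl⟩ := h
    simp

/-- Positions of the path as natural numbers `1, ..., L + 1`. -/
def posn {L : ℕ} (B : Finset (Fin (L + 1))) : Finset ℕ := B.image fun i => i.val + 1

lemma posn_inj {L : ℕ} : Function.Injective fun i : Fin (L + 1) => i.val + 1 := by
  intro i j h
  exact Fin.ext (by simpa using h)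

lemma card_posn {L : ℕ} (B : Finset (Fin (L + 1))) : (posn B).card = B.card :=
  card_image_of_injective _ posn_inj

lemma posn_insert {L : ℕ} (v : Fin (L + 1)) (B : Finset (Fin (L + 1))) :
    posn (insert v B) = insert (v.val + 1) (posn B) := by
  unfold posn; rw [image_insert]

lemma mem_posn {L : ℕ} {i : Fin (L + 1)} {B : Finset (Fin (L + 1))} :
    i.val + 1 ∈ posn B ↔ i ∈ B := by
  unfold posn
  rw [mem_image]
  constructor
  · rintro ⟨j, hj, h⟩
    rwa [← posn_inj h]
  · intro h; exact ⟨i, h, rfl⟩

lemma peb_step {p : ℕ} {B : Finset ℕ} {v : ℕ} (hv : 0 < v)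
    (ha : v - 1 ∈ insert 0 B) (hcard : (insert v B).card ≤ p) : Peb p B ↔ Peb p (insert v B) := by
  by_cases hvB : v ∈ B
  · rw [insert_eq_of_mem hvB]
  · constructor
    · intro h
      refine Peb.add B v hvB ⟨v - 1, ha, by omega, ?_⟩ h
      have : 0 < 2 ^ (p - (B.card + 1)) := by positivity
      omega
    · intro h
      have := h.remove hcard v (mem_insert_self _ _) ⟨v - 1, by rwa [erase_insert hvB], by omega, by
        have : 0 < 2 ^ (p - (insert v B).card) := by positivity
        omega⟩
      rwa [erase_insert hvB] at this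

/-- The reachable configurations form a consistent predicate. -/
theorem path_consistent (p L : ℕ) (hL : 2 ^ p ≤ L + 1) :
    Consistent (pathRules L) (p + 1) (fun B => Peb p (posn B)) := by
  constructor
  · show Peb p (posn ∅)
    have : posn (∅ : Finset (Fin (L + 1))) = ∅ := by simp [posn]
    rw [this]; exact Peb.nil
  · intro A v B hr hAB hcard
    rw [posn_insert]
    have hcard' : (insert (v.val + 1) (posn B)).card ≤ p := by
      rw [← posn_insert, card_posn]; omega
    rcases hr with h | ⟨i, h⟩ | h
    · rw [Prod.mk.injEq, Option.some.injEq] at h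
      obtain ⟨rfl, rfl⟩ := h
      exact peb_step (by simp) (by simp) hcard'
    · rw [Prod.mk.injEq, Option.some.injEq] at h
      obtain ⟨rfl, rfl⟩ := h
      refine peb_step (by simp) ?_ hcard'
      rw [mem_insert]
      right
      have hi : i.castSucc ∈ B := hAB (mem_singleton_self _)
      have := mem_posn.mpr hi
      simpa using this
    · rw [Prod.mk.injEq] at h
      exact absurd h.2 (by simp)
  · intro A B hr hAB hcard hP
    rcases hr with h | ⟨i, h⟩ | h
    · rw [Prod.mk.injEq] at h
      exact absurd h.2 (by simp)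
    · rw [Prod.mk.injEq] at h
      exact absurd h.2 (by simp)
    · rw [Prod.mk.injEq] at h
      obtain ⟨rfl, -⟩ := h
      have hi : Fin.last L ∈ B := hAB (mem_singleton_self _)
      have h1 := mem_posn.mpr hi
      have h2 := hP.bound (by rw [card_posn]; omega) _ h1
      have h3 : 0 < 2 ^ (p - (posn B).card) := by positivity
      simp only [Fin.val_last] at h2
      omega

end Pool.Agent.TeleNeg
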