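import Pool.Agent.TeleNeg.Decomp
import Pool.Agent.TeleNeg.Pebble

/-!
# Reachability in the layered digraph needs many NOT gates: the master inequality
-/

namespace Pool.Agent.TeleNeg

open Finset

section

variable {r L M : ℕ}

/-- The block of an arc. -/
def Arc.blk : Arc r L M → ℕ
  | .first k _ => k
  | .mid k _ _ _ => k
  | .last k _ => k

/-- The arc does not cross the cut `C` of its block. -/
def Arc.okCut (C : Finset (Fin (L + 1) × Fin M)) : Arc r L M → Prop
  | .first _ b => (0, b) ∈ C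
  | .mid _ i a b => (i.castSucc, a) ∈ C → (i.succ, b) ∈ C
  | .last _ a => (Fin.last L, a) ∉ C

/-- The arc lies on the path given by `y`. -/
def Arc.onPath (y : Fin (L + 1) → Fin M) : Arc r L M → Prop
  | .first _ b => b = y 0
  | .mid _ i a b => a = y i.castSucc ∧ b = y i.succ
  | .last _ a => a = y (Fin.last L)

/-- The cut graphs. -/
def cutG (r L M : ℕ) (n : ℕ) (C : Finset (Fin (L + 1) × Fin M)) : Set (Arc r L M) :=
  {e | e.blk = n ∧ e.okCut C}

/-- The paths. -/
def pathG (r L M : ℕ) (n : ℕ) (y : Fin (L + 1) → Fin M) : Set (Arc r L M) :=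
  {e | e.blk = n ∧ e.onPath y}

lemma fits_path : Fits (pathRules L) (cutG r L M) (pathG r L M) := by
  intro n y e he
  obtain ⟨hb, hp⟩ := he
  cases e with
  | first k b =>
    refine ⟨∅, some 0, Or.inl rfl, fun C hC => ?_⟩
    have h1 : (0, b) ∉ C := fun h => hC ⟨hb, h⟩
    rw [cross_eq, if_pos]
    refine ⟨empty_subset _, ?_⟩
    intro v hv
    rw [Option.mem_def, Option.some.injEq] at hv
    subst hv
    simp only [pull, mem_filter, mem_univ, true_and]
    have : b = y 0 := hp
    rwa [← this]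
  | mid k i a b =>
    refine ⟨{i.castSucc}, some i.succ, Or.inr (Or.inl ⟨i, rfl⟩), fun C hC => ?_⟩
    have h1 : ¬ ((i.castSucc, a) ∈ C → (i.succ, b) ∈ C) := fun h => hC ⟨hb, h⟩
    push Not at h1
    have h2 : a = y i.castSucc ∧ b = y i.succ := hp
    rw [cross_eq, if_pos]
    refine ⟨?_, ?_⟩
    · rw [singleton_subset_iff]
      simp only [pull, mem_filter, mem_univ, true_and]
      rw [← h2.1]; exact h1.1
    · intro v hv
      rw [Option.mem_def, Option.some.injEq] at hv
      subst hv
      simp only [pull, mem_filter, mem_univ, true_and]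
      rw [← h2.2]; exact h1.2
  | last k a =>
    refine ⟨{Fin.last L}, none, Or.inr (Or.inr rfl), fun C hC => ?_⟩
    have h1 : (Fin.last L, a) ∈ C := by
      by_contra h
      exact hC ⟨hb, h⟩
    have h2 : a = y (Fin.last L) := hp
    rw [cross_eq, if_pos]
    refine ⟨?_, by simp⟩
    rw [singleton_subset_iff]
    simp only [pull, mem_filter, mem_univ, true_and]
    rw [← h2]; exact h1

/-- A union of cut graphs does not reach `t`. -/
lemma not_reach_of_cuts (X : Set (Arc r L M)) (C : ℕ → Finset (Fin (L + 1) × Fin M))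
    (hX : ∀ e ∈ X, e.okCut (C e.blk)) : ¬ Reach (inp X) := by
  intro h
  have key : ∀ v : Vtx r L M, Relation.ReflTransGen
      (fun u v => ∃ e : Arc r L M, inp X e = true ∧ e.tail = u ∧ e.head = v) Vtx.s v →
      (match v with
        | .s => True
        | .t => False
        | .node k i a => (i, a) ∈ C k) := by
    intro v hv
    induction hv with
    | refl => trivial
    | tail _ hstep ih =>
      obtain ⟨e, he, rfl, rfl⟩ := hstep
      have hok := hX e (inp_iff.mp he)
      cases e with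
      | first k b => exact hok
      | mid k i a b => exact hok ih
      | last k a => exact hok ih
  exact key _ h

/-- The path of a block reaches `t`. -/
lemma reach_of_path (X : Set (Arc r L M)) (n : ℕ) (hn : n < r) (y : Fin (L + 1) → Fin M)
    (hX : pathG r L M n y ⊆ X) : Reach (inp X) := by
  set rel : Vtx r L M → Vtx r L M → Prop :=
    fun u v => ∃ e : Arc r L M, inp X e = true ∧ e.tail = u ∧ e.head = v with hrel
  have hin : ∀ e : Arc r L M, e.blk = n → e.onPath y → inp X e = true :=
    fun e h1 h2 => inp_iff.mpr (hX ⟨h1, h2⟩)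
  set k : Fin r := ⟨n, hn⟩
  have h1 : ∀ i : ℕ, ∀ hi : i < L + 1,
      Relation.ReflTransGen rel Vtx.s (Vtx.node k ⟨i, hi⟩ (y ⟨i, hi⟩)) := by
    intro i
    induction i with
    | zero =>
      intro hi
      refine Relation.ReflTransGen.single ⟨Arc.first k (y 0), hin _ rfl rfl, rfl, rfl⟩
    | succ i ih =>
      intro hi
      refine (ih (by omega)).tail
        ⟨Arc.mid k ⟨i, by omega⟩ (y ⟨i, by omega⟩) (y ⟨i + 1, hi⟩), hin _ rfl ⟨rfl, rfl⟩, rfl, rfl⟩
  exact (h1 L (by omega)).tail ⟨Arc.last k (y ⟨L, by omega⟩), hin _ rfl rfl, rfl, rfl⟩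

/-- **Master inequality.** -/
theorem path_master (r L M S T p s : ℕ) (hL : 2 ^ p ≤ L + 1) (hp : 1 ≤ p) (hs : 2 * r ≤ 2 ^ s)
    (hs1 : 1 ≤ s) (hM : 81 * (2 * s - 1) * (L + 1) ≤ M) (hS0 : 0 < S)
    (D : Device (Arc r L M) S T) (h : (Fin T → Bool) → Bool)
    (hD : ∀ x : Arc r L M → Bool, h (D.val x) = true ↔ Reach x)
    (hsize : 1728 * 9 ^ p * (r * S) ^ 2 * (L + 1) ^ (p - 1) ≤ M ^ (p - 1)) :
    r < 3 * ((T + 1) * D.weight) := by
  classical
  have hw1 : 1 ≤ D.weight := levProd_pos D.levels
  rcases Nat.eq_zero_or_pos r with hr | hr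
  · exact lt_of_le_of_lt hr.le (by positivity)
  have hM0 : 0 < M := by
    refine lt_of_lt_of_le ?_ hM
    have : 0 < 2 * s - 1 := by omega
    positivity
  have hrR : (0 : ℝ) < r := by exact_mod_cast hr
  have hSR : (0 : ℝ) < S := by exact_mod_cast hS0
  have hMR : (0 : ℝ) < M := by exact_mod_cast hM0
  set β : ℝ := 1 / (8 * r * S) with hβ
  have hparams : Params (pathRules L) (fun B => Peb p (posn B)) M S (1 / (2 * (r : ℝ))) := by
    refine ⟨p + 1, p - 1, 2, s, β, path_consistent p L hL, by omega, ?_, hs1, ?_, by omega,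
      fun A w hA => pathRules_card hA, by positivity, ?_, ?_⟩
    · rw [Fintype.card_fin]; omega
    · rw [Fintype.card_fin]; exact hM
    · rw [Fintype.card_fin]
      have h1 : (1728 : ℝ) * 9 ^ p * (r * S) ^ 2 * ((L + 1 : ℕ) : ℝ) ^ (p - 1)
          ≤ (M : ℝ) ^ (p - 1) := by exact_mod_cast hsize
      rw [hβ, div_pow, div_pow, mul_div_assoc', mul_div_assoc', div_le_div_iff₀ (by positivity)
        (by positivity), one_pow, one_mul, pow_succ]
      calc (9 : ℝ) ^ p * 9 * (3 * ((L + 1 : ℕ) : ℝ) ^ (p - 1)) * (8 * r * S) ^ 2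
          = 1728 * 9 ^ p * (r * S) ^ 2 * ((L + 1 : ℕ) : ℝ) ^ (p - 1) := by ring
        _ ≤ _ := h1
    · have h1 : (1 / 2 : ℝ) ^ s / 2 ≤ 1 / (4 * r) := by
        have h2 : (2 : ℝ) * r ≤ 2 ^ s := by exact_mod_cast hs
        rw [one_div, inv_pow, div_eq_mul_inv, ← mul_inv, one_div]
        apply inv_anti₀ (by positivity)
        linarith
      have h2 : 2 * (S : ℝ) * β = 1 / (4 * r) := by
        rw [hβ]; field_simp; norm_num
      have h3 : 1 / (4 * (r : ℝ)) + 1 / (4 * r) = 1 / (2 * r) := by
        field_simp; norm_num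
      linarith
  have hdom : ∀ (N : Net (Arc r L M ⊕ ℕ) S) (b : List Bool),
      Dominated (cutG r L M) (pathG r L M) (1 / (2 * (r : ℝ))) (netU N b) :=
    fun N b => Net.dominated hparams fits_path (N.subst b)
  set Good : ℕ → Set (Arc r L M) → Prop := fun n X => n ≤ r ∧
    ∃ C : ℕ → Finset (Fin (L + 1) × Fin M), ∀ e ∈ X, n ≤ e.blk ∧ e.okCut (C e.blk) with hGood
  refine levels_main hM0 netU_mono r hr hdom D.levels T D.outs Good ?_ ?_ ∅
    ⟨le_rfl, fun _ => ∅, fun e he => absurd he (Set.notMem_empty _)⟩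
  · rintro n X ⟨hn, C, hC⟩ y
    by_contra hcon
    push Not at hcon
    have h2 : D.val (inp X) = D.val (inp (X ∪ pathG r L M n y)) := by
      funext i
      have h1 := hcon i
      rw [netU_iff, netU_iff, levVals_netU, levVals_netU] at h1
      exact Bool.eq_iff_iff.mpr h1
    have h3 : ¬ Reach (inp X) := not_reach_of_cuts X C fun e he => (hC e he).2
    have h4 : Reach (inp (X ∪ pathG r L M n y)) :=
      reach_of_path _ n (by omega) y Set.subset_union_right
    rw [← hD] at h3 h4
    rw [h2] at h3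
    exact h3 h4
  · rintro n X ⟨hn, C, hC⟩ C'
    refine ⟨by omega, Function.update C n C', ?_⟩
    intro e he
    rcases he with he | he
    · have h1 := hC e he
      refine ⟨by omega, ?_⟩
      rw [Function.update_of_ne (by omega)]
      exact h1.2
    · refine ⟨he.1.ge, ?_⟩
      rw [he.1, Function.update_self]
      exact he.2

end

end Pool.Agent.TeleNeg
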