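import Pool.Agent.TeleNeg.Bonami

/-!
# Pseudo-expectations from consistent predicates
-/

namespace Pool.Agent.TeleNeg

open Finset
open scoped BigOperators

set_option linter.unusedSectionVars false

section

variable {I : Type*} [DecidableEq I]

/-- The indicator of `B₀ ⊆ B`. -/
noncomputable def mono (B₀ B : Finset I) : ℝ := if B₀ ⊆ B then 1 else 0

lemma prod_ite_subset (B₀ B : Finset I) (c : ℝ) :
    ∏ i ∈ B₀, (if i ∈ B then c else 0) = c ^ B₀.card * mono B₀ B := by
  unfold mono
  split_ifs with h
  · rw [Finset.prod_congr rfl fun i hi => by rw [if_pos (h hi)], Finset.prod_const, mul_one]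
  · obtain ⟨i, hi, hi'⟩ := Finset.not_subset.mp h
    rw [mul_zero]
    exact Finset.prod_eq_zero hi (by rw [if_neg hi'])

lemma chi_eq_prod' (U C : Finset I) : chi U C = ∏ i ∈ U, (if i ∈ C then (-1 : ℝ) else 1) := by
  rw [chi_comm, chi_eq_prod]

lemma mono_eq (B₀ B : Finset I) :
    (2 : ℝ) ^ B₀.card * mono B₀ B = ∑ U ∈ B₀.powerset, (-1) ^ U.card * chi U B := by
  have h1 : ∀ U : Finset I, (-1 : ℝ) ^ U.card * chi U B = ∏ i ∈ U, (if i ∈ B then (1 : ℝ) else -1) := by
    intro U
    rw [chi_eq_prod', ← Finset.prod_const, ← Finset.prod_mul_distrib]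
    refine Finset.prod_congr rfl fun i _ => ?_
    split_ifs <;> norm_num
  simp_rw [h1]
  rw [← Finset.prod_one_add, ← prod_ite_subset]
  refine Finset.prod_congr rfl fun i _ => ?_
  split_ifs <;> norm_num

lemma chi_eq_mono (U B : Finset I) :
    chi U B = ∑ Y ∈ U.powerset, (-2) ^ Y.card * mono Y B := by
  simp_rw [← prod_ite_subset]
  rw [← Finset.prod_one_add, chi_eq_prod']
  refine Finset.prod_congr rfl fun i _ => ?_
  split_ifs <;> norm_num

lemma mono_mul (A B C : Finset I) : mono A C * mono B C = mono (A ∪ B) C := by
  unfold mono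
  by_cases h1 : A ⊆ C <;> by_cases h2 : B ⊆ C <;> simp [h1, h2, Finset.union_subset_iff]

lemma moebius (B : Finset I) : ∀ g : Finset I → ℝ,
    ∑ U ∈ B.powerset, (-1) ^ U.card * ∑ A ∈ U.powerset, (-1) ^ A.card * g A = g B := by
  induction B using Finset.induction_on with
  | empty => intro g; simp
  | insert b B hb ih =>
    intro g
    rw [sum_powerset_insert hb, ih g]
    have h1 : ∀ U ∈ B.powerset, (-1 : ℝ) ^ (insert b U).card *
        ∑ A ∈ (insert b U).powerset, (-1) ^ A.card * g A
        = - ((-1) ^ U.card * ∑ A ∈ U.powerset, (-1) ^ A.card * g A)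
          + (-1) ^ U.card * ∑ A ∈ U.powerset, (-1) ^ A.card * g (insert b A) := by
      intro U hU
      have hbU : b ∉ U := fun h => hb (mem_powerset.mp hU h)
      rw [sum_powerset_insert hbU, card_insert_of_notMem hbU]
      have h2 : ∑ A ∈ U.powerset, (-1 : ℝ) ^ (insert b A).card * g (insert b A)
          = - ∑ A ∈ U.powerset, (-1 : ℝ) ^ A.card * g (insert b A) := by
        rw [← Finset.sum_neg_distrib]
        refine Finset.sum_congr rfl fun A hA => ?_
        rw [card_insert_of_notMem fun h => hbU (mem_powerset.mp hA h)]; ring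
      rw [h2]; ring
    rw [Finset.sum_congr rfl h1, Finset.sum_add_distrib, Finset.sum_neg_distrib, ih g,
      ih (fun A => g (insert b A))]
    ring

/-- Walsh coefficients of the pseudo-expectation with moments `e`. -/
noncomputable def coef (e : Finset I → ℝ) (U : Finset I) : ℝ :=
  ∑ A ∈ U.powerset, (-2) ^ A.card * e A

lemma coef_abs (e : Finset I → ℝ) (he : ∀ B, |e B| ≤ 1) (U : Finset I) :
    |coef e U| ≤ 3 ^ U.card := by
  unfold coef
  refine (Finset.abs_sum_le_sum_abs _ _).trans ?_
  have h1 : ∀ A ∈ U.powerset, |(-2 : ℝ) ^ A.card * e A| ≤ 2 ^ A.card * 1 ^ (U.card - A.card) := by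
    intro A _
    rw [abs_mul, abs_pow, one_pow, abs_neg, abs_of_pos (by norm_num : (0 : ℝ) < 2)]
    exact mul_le_mul_of_nonneg_left (he A) (by positivity)
  refine (Finset.sum_le_sum h1).trans ?_
  rw [Finset.sum_pow_mul_eq_add_pow]
  norm_num

lemma coef_empty (e : Finset I → ℝ) : coef e ∅ = e ∅ := by simp [coef]

/-- The cut violates the rule `(A, w)`: it contains the premises but not the conclusion. -/
noncomputable def cross (A : Finset I) (w : Option I) (B : Finset I) : ℝ :=
  match w with
  | none => mono A B
  | some v => mono A B - mono (insert v A) B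

lemma cross_eq (A : Finset I) (w : Option I) (B : Finset I) :
    cross A w B = if A ⊆ B ∧ ∀ v ∈ w, v ∉ B then 1 else 0 := by
  cases w with
  | none => simp [cross, mono]
  | some v =>
    simp only [cross, mono, Option.mem_def, Option.some.injEq, forall_eq', insert_subset_iff]
    by_cases h1 : A ⊆ B <;> by_cases h2 : v ∈ B <;> simp [h1, h2]

end

section

variable {I : Type*} [Fintype I] [DecidableEq I]

/-- The pseudo-density of degree less than `d` with moments `e`. -/
noncomputable def dens (e : Finset I → ℝ) (d : ℕ) (B : Finset I) : ℝ :=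
  ∑ U : Finset I with U.card < d, coef e U * chi U B

lemma avg_dens_chi (e : Finset I → ℝ) (d : ℕ) (U : Finset I) :
    avg (fun B => dens e d B * chi U B) = if U.card < d then coef e U else 0 := by
  unfold dens
  simp_rw [Finset.sum_mul]
  rw [avg_sum]
  have h1 : ∀ W : Finset I, avg (fun B => coef e W * chi W B * chi U B)
      = if W = U then coef e W else 0 := by
    intro W
    have : (fun B => coef e W * chi W B * chi U B) = fun B => coef e W * (chi W B * chi U B) := by
      funext B; ring
    rw [this, avg_smul, avg_chi_mul]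
    split_ifs <;> simp
  simp_rw [h1]
  rw [Finset.sum_ite_eq']
  simp

lemma avg_dens_chi_abs (e : Finset I → ℝ) (he : ∀ B, |e B| ≤ 1) (d : ℕ) (U : Finset I) :
    2 * |avg (fun B => dens e d B * chi U B)| ≤ 3 ^ d := by
  rw [avg_dens_chi]
  split_ifs with h
  · have h1 := coef_abs e he U
    have h2 : (3 : ℝ) ^ (U.card + 1) ≤ 3 ^ d := pow_le_pow_right₀ (by norm_num) h
    rw [pow_succ] at h2
    have : (0 : ℝ) ≤ 3 ^ U.card := by positivity
    linarith
  · simp

lemma avg_dens_mono (e : Finset I → ℝ) (d : ℕ) (B₀ : Finset I) (h : B₀.card < d) :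
    avg (fun B => dens e d B * mono B₀ B) = e B₀ := by
  have h2 : (0 : ℝ) < 2 ^ B₀.card := by positivity
  have h1 : (2 : ℝ) ^ B₀.card * avg (fun B => dens e d B * mono B₀ B) = 2 ^ B₀.card * e B₀ := by
    rw [← avg_smul]
    have e1 : (fun B => (2 : ℝ) ^ B₀.card * (dens e d B * mono B₀ B))
        = fun B => ∑ U ∈ B₀.powerset, (-1) ^ U.card * (dens e d B * chi U B) := by
      funext B
      calc (2 : ℝ) ^ B₀.card * (dens e d B * mono B₀ B)
          = dens e d B * (2 ^ B₀.card * mono B₀ B) := by ring
        _ = _ := by
          rw [mono_eq, Finset.mul_sum]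
          exact Finset.sum_congr rfl fun U _ => by ring
    rw [e1, avg_sum]
    have e2 : ∀ U ∈ B₀.powerset, avg (fun B => (-1) ^ U.card * (dens e d B * chi U B))
        = (-1) ^ U.card * ∑ A ∈ U.powerset, (-1) ^ A.card * (2 ^ A.card * e A) := by
      intro U hU
      have hc : U.card < d := lt_of_le_of_lt (card_le_card (mem_powerset.mp hU)) h
      rw [avg_smul, avg_dens_chi, if_pos hc]
      congr 1
      unfold coef
      refine Finset.sum_congr rfl fun A _ => ?_
      rw [← mul_assoc, ← mul_pow]; norm_num
    rw [Finset.sum_congr rfl e2]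
    exact moebius B₀ (fun A => 2 ^ A.card * e A)
  exact mul_left_cancel₀ h2.ne' h1

/-- A predicate on the sets of positions which is a pseudo-solution for sets with fewer than `d`
elements. -/
structure Consistent (rules : Set (Finset I × Option I)) (d : ℕ) (R : Finset I → Prop) : Prop where
  empty : R ∅
  step : ∀ A v B, (A, some v) ∈ rules → A ⊆ B → (insert v B).card < d → (R B ↔ R (insert v B))
  stop : ∀ A B, (A, none) ∈ rules → A ⊆ B → B.card < d → ¬ R B

open Classical in
/-- The moments of a predicate. -/
noncomputable def mom (R : Finset I → Prop) : Finset I → ℝ := fun B => if R B then 1 else 0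

lemma mom_abs (R : Finset I → Prop) (B : Finset I) : |mom R B| ≤ 1 := by
  unfold mom; split_ifs <;> norm_num

variable {rules : Set (Finset I × Option I)} {d : ℕ} {R : Finset I → Prop}

/-- The coefficients of `dens * cross`. -/
noncomputable def gam (R : Finset I → Prop) (d : ℕ) (A : Finset I) (w : Option I) (Z : Finset I) :
    ℝ := hat (fun B => dens (mom R) d B * cross A w B) Z

lemma gam_eq_zero (h : Consistent rules d R) {A : Finset I} {w : Option I} (hr : (A, w) ∈ rules)
    {Z : Finset I} (hZ : (Z ∪ (A ∪ w.toFinset)).card < d) : gam R d A w Z = 0 := by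
  unfold gam hat
  have key : ∀ A' : Finset I, (Z ∪ A').card < d →
      avg (fun B => dens (mom R) d B * mono A' B * chi Z B)
        = ∑ Y ∈ Z.powerset, (-2) ^ Y.card * mom R (A' ∪ Y) := by
    intro A' hA'
    have e1 : (fun B => dens (mom R) d B * mono A' B * chi Z B)
        = fun B => ∑ Y ∈ Z.powerset, (-2) ^ Y.card * (dens (mom R) d B * mono (A' ∪ Y) B) := by
      funext B
      rw [chi_eq_mono, Finset.mul_sum]
      refine Finset.sum_congr rfl fun Y _ => ?_
      rw [← mono_mul]; ring
    rw [e1, avg_sum]
    refine Finset.sum_congr rfl fun Y hY => ?_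
    rw [avg_smul, avg_dens_mono]
    refine lt_of_le_of_lt (card_le_card ?_) hA'
    rw [union_comm]
    exact union_subset_union_left (mem_powerset.mp hY)
  cases w with
  | none =>
    simp only [cross]
    have hZ' : (Z ∪ A).card < d := by simpa using hZ
    rw [key A hZ']
    refine Finset.sum_eq_zero fun Y hY => ?_
    have : ¬ R (A ∪ Y) := h.stop A _ hr subset_union_left (by
      refine lt_of_le_of_lt (card_le_card ?_) hZ'
      rw [union_comm]
      exact union_subset_union_left (mem_powerset.mp hY))
    simp [mom, this]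
  | some v =>
    simp only [cross]
    have e2 : (fun B => dens (mom R) d B * (mono A B - mono (insert v A) B) * chi Z B)
        = fun B => dens (mom R) d B * mono A B * chi Z B
          - dens (mom R) d B * mono (insert v A) B * chi Z B := by
      funext B; ring
    have hu : A ∪ (some v).toFinset = insert v A := by
      ext i; simp
    rw [hu] at hZ
    rw [e2, avg_sub, key _ hZ, key A (lt_of_le_of_lt (card_le_card (union_subset_union_right
      (subset_insert _ _))) hZ), sub_eq_zero]
    refine Finset.sum_congr rfl fun Y hY => ?_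
    congr 1
    have : R (A ∪ Y) ↔ R (insert v A ∪ Y) := by
      rw [insert_union]
      refine h.step A v _ hr subset_union_left ?_
      refine lt_of_le_of_lt (card_le_card ?_) hZ
      rw [← insert_union, union_comm]
      exact union_subset_union_left (mem_powerset.mp hY)
    unfold mom
    by_cases hR : R (A ∪ Y)
    · rw [if_pos hR, if_pos (this.mp hR)]
    · rw [if_neg hR, if_neg fun h' => hR (this.mpr h')]

lemma gam_abs (A : Finset I) (w : Option I) (Z : Finset I) :
    |gam R d A w Z| ≤ 3 ^ d := by
  have key : ∀ A' : Finset I,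
      2 * |avg (fun B => dens (mom R) d B * mono A' B * chi Z B)| ≤ 3 ^ d := by
    intro A'
    have h2 : (0 : ℝ) < 2 ^ A'.card := by positivity
    have h1 : (2 : ℝ) ^ A'.card * avg (fun B => dens (mom R) d B * mono A' B * chi Z B)
        = ∑ U ∈ A'.powerset, (-1) ^ U.card *
          avg (fun B => dens (mom R) d B * chi (symmDiff U Z) B) := by
      rw [← avg_smul]
      have e1 : (fun B => (2 : ℝ) ^ A'.card * (dens (mom R) d B * mono A' B * chi Z B))
          = fun B => ∑ U ∈ A'.powerset, (-1) ^ U.card *
            (dens (mom R) d B * chi (symmDiff U Z) B) := by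
        funext B
        calc (2 : ℝ) ^ A'.card * (dens (mom R) d B * mono A' B * chi Z B)
            = dens (mom R) d B * chi Z B * (2 ^ A'.card * mono A' B) := by ring
          _ = _ := by
            rw [mono_eq, Finset.mul_sum]
            refine Finset.sum_congr rfl fun U _ => ?_
            rw [← chi_mul]; ring
      rw [e1, avg_sum]
      exact Finset.sum_congr rfl fun U _ => by rw [avg_smul]
    have h3 : 2 * (2 ^ A'.card * |avg (fun B => dens (mom R) d B * mono A' B * chi Z B)|)
        ≤ 2 ^ A'.card * 3 ^ d := by
      rw [← abs_of_pos h2, ← abs_mul, abs_of_pos h2, h1]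
      calc 2 * |∑ U ∈ A'.powerset, (-1 : ℝ) ^ U.card *
              avg (fun B => dens (mom R) d B * chi (symmDiff U Z) B)|
          ≤ 2 * ∑ U ∈ A'.powerset, |(-1 : ℝ) ^ U.card *
              avg (fun B => dens (mom R) d B * chi (symmDiff U Z) B)| := by
            have := Finset.abs_sum_le_sum_abs (fun U => (-1 : ℝ) ^ U.card *
              avg (fun B => dens (mom R) d B * chi (symmDiff U Z) B)) A'.powerset
            linarith
        _ = ∑ U ∈ A'.powerset, 2 * |avg (fun B => dens (mom R) d B * chi (symmDiff U Z) B)| := by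
            rw [Finset.mul_sum]
            refine Finset.sum_congr rfl fun U _ => ?_
            rw [abs_mul, abs_pow, abs_neg, abs_one, one_pow, one_mul]
        _ ≤ ∑ U ∈ A'.powerset, (3 : ℝ) ^ d :=
            Finset.sum_le_sum fun U _ => avg_dens_chi_abs _ (mom_abs R) _ _
        _ = 2 ^ A'.card * 3 ^ d := by
            rw [Finset.sum_const, card_powerset, nsmul_eq_mul]; push_cast; ring
    have h4 : 2 ^ A'.card * (2 * |avg (fun B => dens (mom R) d B * mono A' B * chi Z B)|)
        ≤ 2 ^ A'.card * 3 ^ d := by linarith
    exact le_of_mul_le_mul_left h4 h2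
  unfold gam hat
  cases w with
  | none =>
    simp only [cross]
    have h1 := key A
    have h2 : (0 : ℝ) ≤ |avg (fun B => dens (mom R) d B * mono A B * chi Z B)| := abs_nonneg _
    linarith
  | some v =>
    simp only [cross]
    have e2 : (fun B => dens (mom R) d B * (mono A B - mono (insert v A) B) * chi Z B)
        = fun B => dens (mom R) d B * mono A B * chi Z B
          - dens (mom R) d B * mono (insert v A) B * chi Z B := by
      funext B; ring
    rw [e2, avg_sub]
    have h1 := key A
    have h2 := key (insert v A)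
    have h3 := abs_sub (avg fun B => dens (mom R) d B * mono A B * chi Z B)
      (avg fun B => dens (mom R) d B * mono (insert v A) B * chi Z B)
    linarith

end

end Pool.Agent.TeleNeg
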