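import Pool.Agent.TeleNeg.Pseudo

/-!
# Random sections: pulling back functions along `i ↦ (i, y i)`
-/

namespace Pool.Agent.TeleNeg

open Finset
open scoped BigOperators

set_option linter.unusedSectionVars false

section

variable {I : Type*} [Fintype I] [DecidableEq I] {M : ℕ}

/-- The image of a set of positions under the section `y`. -/
def sec (y : I → Fin M) (Z : Finset I) : Finset (I × Fin M) := Z.image fun i => (i, y i)

/-- The positions whose chosen point lies in the cut `C`. -/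
def pull (y : I → Fin M) (C : Finset (I × Fin M)) : Finset I := univ.filter fun i => (i, y i) ∈ C

lemma sec_inj (y : I → Fin M) : Function.Injective fun i : I => (i, y i) := by
  intro i j h
  exact (Prod.mk.inj h).1

lemma card_sec (y : I → Fin M) (Z : Finset I) : (sec y Z).card = Z.card :=
  card_image_of_injective _ (sec_inj y)

lemma chi_pull (y : I → Fin M) (Z : Finset I) (C : Finset (I × Fin M)) :
    chi Z (pull y C) = chi (sec y Z) C := by
  unfold chi
  congr 1
  rw [← card_image_of_injective (Z ∩ pull y C) (sec_inj y)]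
  congr 1
  ext ⟨i, a⟩
  simp only [sec, pull, mem_image, mem_inter, mem_filter, mem_univ, true_and, Prod.mk.injEq]
  constructor
  · rintro ⟨j, ⟨hj, hC⟩, rfl, rfl⟩
    exact ⟨⟨j, hj, rfl, rfl⟩, hC⟩
  · rintro ⟨⟨j, hj, rfl, rfl⟩, hC⟩
    exact ⟨j, ⟨hj, hC⟩, rfl, rfl⟩

lemma sec_empty (y : I → Fin M) : sec y ∅ = ∅ := by simp [sec]

/-- Transfer of a correlation to the cube of positions. -/
lemma avg_mul_pull (y : I → Fin M) (h : Finset (I × Fin M) → ℝ) (F : Finset I → ℝ) :
    avg (fun C => h C * F (pull y C)) = ∑ Z : Finset I, hat F Z * hat h (sec y Z) := by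
  have e1 : (fun C => h C * F (pull y C))
      = fun C => ∑ Z : Finset I, hat F Z * (h C * chi (sec y Z) C) := by
    funext C
    rw [hat_inversion F (pull y C), Finset.mul_sum]
    refine Finset.sum_congr rfl fun Z _ => ?_
    rw [chi_pull]; ring
  rw [e1, avg_sum]
  refine Finset.sum_congr rfl fun Z _ => ?_
  rw [avg_smul]; rfl

/-- Average over the sections. -/
noncomputable def avgY (f : (I → Fin M) → ℝ) : ℝ := (∑ y : I → Fin M, f y) / M ^ Fintype.card I

lemma avgY_mono {f g : (I → Fin M) → ℝ} (h : ∀ y, f y ≤ g y) : avgY f ≤ avgY g := by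
  unfold avgY
  exact div_le_div_of_nonneg_right (Finset.sum_le_sum fun y _ => h y) (by positivity)

lemma avgY_nonneg {f : (I → Fin M) → ℝ} (h : ∀ y, 0 ≤ f y) : 0 ≤ avgY f := by
  unfold avgY
  exact div_nonneg (Finset.sum_nonneg fun y _ => h y) (by positivity)

lemma avgY_add (f g : (I → Fin M) → ℝ) : avgY (fun y => f y + g y) = avgY f + avgY g := by
  unfold avgY
  rw [Finset.sum_add_distrib, add_div]

lemma avgY_smul (c : ℝ) (f : (I → Fin M) → ℝ) : avgY (fun y => c * f y) = c * avgY f := by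
  unfold avgY
  rw [← Finset.mul_sum, mul_div_assoc]

lemma avgY_sum {ι : Type*} (s : Finset ι) (f : ι → (I → Fin M) → ℝ) :
    avgY (fun y => ∑ i ∈ s, f i y) = ∑ i ∈ s, avgY (f i) := by
  unfold avgY
  rw [Finset.sum_comm, Finset.sum_div]

lemma avgY_const (hM : 0 < M) (c : ℝ) : avgY (fun _ : I → Fin M => c) = c := by
  unfold avgY
  rw [Finset.sum_const, nsmul_eq_mul, Finset.card_univ, Fintype.card_fun, Fintype.card_fin]
  have : (0 : ℝ) < M := by exact_mod_cast hM
  push_cast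
  field_simp

lemma card_fiber (y₀ : I → Fin M) (Z : Finset I) :
    M ^ Z.card * (univ.filter fun y : I → Fin M => sec y Z = sec y₀ Z).card ≤ M ^ Fintype.card I := by
  have h1 : (univ.filter fun y : I → Fin M => sec y Z = sec y₀ Z)
      ⊆ Fintype.piFinset fun i => if i ∈ Z then {y₀ i} else univ := by
    intro y hy
    rw [mem_filter] at hy
    rw [Fintype.mem_piFinset]
    intro i
    split_ifs with hi
    · have : (i, y i) ∈ sec y₀ Z := by rw [← hy.2]; exact mem_image_of_mem _ hi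
      simp only [sec, mem_image, Prod.mk.injEq] at this
      obtain ⟨j, hj, rfl, h⟩ := this
      rw [mem_singleton]; exact h.symm
    · exact mem_univ _
  have h2 := card_le_card h1
  rw [Fintype.card_piFinset] at h2
  have h3 : (∏ i : I, (if i ∈ Z then ({y₀ i} : Finset (Fin M)) else univ).card)
      = M ^ (Fintype.card I - Z.card) := by
    have : ∀ i : I, (if i ∈ Z then ({y₀ i} : Finset (Fin M)) else univ).card
        = if i ∈ Z then 1 else M := by
      intro i; split_ifs <;> simp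
    simp_rw [this]
    rw [Finset.prod_ite, Finset.prod_const_one, one_mul, Finset.prod_const]
    congr 1
    rw [← card_compl]
    congr 1
    ext i; simp
  rw [h3] at h2
  calc M ^ Z.card * (univ.filter fun y : I → Fin M => sec y Z = sec y₀ Z).card
      ≤ M ^ Z.card * M ^ (Fintype.card I - Z.card) := Nat.mul_le_mul_left _ h2
    _ = M ^ Fintype.card I := by
      rw [← pow_add]
      congr 1
      have := card_le_univ Z
      omega

lemma sum_sec_le (g : Finset (I × Fin M) → ℝ) (hg : ∀ U, 0 ≤ g U) :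
    ∑ Z : Finset I, ∑ y : I → Fin M, (M : ℝ) ^ Z.card * g (sec y Z)
      ≤ M ^ Fintype.card I * ∑ U : Finset (I × Fin M), g U := by
  have e1 : ∀ (Z : Finset I) (y : I → Fin M), (M : ℝ) ^ Z.card * g (sec y Z)
      = ∑ U : Finset (I × Fin M), if sec y Z = U then (M : ℝ) ^ Z.card * g U else 0 := by
    intro Z y
    rw [Finset.sum_ite_eq]; simp
  simp_rw [e1]
  have e2 : ∑ Z : Finset I, ∑ y : I → Fin M, ∑ U : Finset (I × Fin M),
        (if sec y Z = U then (M : ℝ) ^ Z.card * g U else 0)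
      = ∑ U : Finset (I × Fin M), ∑ Z : Finset I, ∑ y : I → Fin M,
        (if sec y Z = U then (M : ℝ) ^ Z.card * g U else 0) := by
    calc _ = ∑ Z : Finset I, ∑ U : Finset (I × Fin M), ∑ y : I → Fin M,
          (if sec y Z = U then (M : ℝ) ^ Z.card * g U else 0) :=
          Finset.sum_congr rfl fun Z _ => Finset.sum_comm
      _ = _ := Finset.sum_comm
  rw [e2, Finset.mul_sum]
  refine Finset.sum_le_sum fun U _ => ?_
  by_cases hU : ∃ (Z : Finset I) (y : I → Fin M), sec y Z = U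
  · obtain ⟨Z₀, y₀, rfl⟩ := hU
    have hZ : ∀ (Z : Finset I) (y : I → Fin M), sec y Z = sec y₀ Z₀ → Z = Z₀ := by
      intro Z y h
      have : ∀ (Z : Finset I) (y : I → Fin M), (sec y Z).image Prod.fst = Z := by
        intro Z y
        unfold sec
        rw [image_image]
        simp [Function.comp_def]
      rw [← this Z y, h, this]
    rw [Finset.sum_eq_single Z₀]
    · rw [← Finset.sum_filter, Finset.sum_const, nsmul_eq_mul, ← mul_assoc]
      apply mul_le_mul_of_nonneg_right _ (hg _)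
      have := card_fiber y₀ Z₀
      calc ((univ.filter fun y : I → Fin M => sec y Z₀ = sec y₀ Z₀).card : ℝ) * (M : ℝ) ^ Z₀.card
          = ((M ^ Z₀.card * (univ.filter fun y : I → Fin M => sec y Z₀ = sec y₀ Z₀).card : ℕ) : ℝ) := by
            push_cast; ring
        _ ≤ ((M ^ Fintype.card I : ℕ) : ℝ) := by exact_mod_cast this
        _ = _ := by push_cast; rfl
    · intro Z _ hne
      refine Finset.sum_eq_zero fun y _ => ?_
      rw [if_neg fun h => hne (hZ Z y h)]
    · intro h; exact absurd (mem_univ _) h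
  · rw [Finset.sum_eq_zero fun Z _ => Finset.sum_eq_zero fun y _ => if_neg fun h => hU ⟨Z, y, h⟩]
    exact mul_nonneg (by positivity) (hg U)

/-- The Cauchy-Schwarz bound for the Walsh coefficients of a set at random sections. -/
lemma avgY_hat_sq_le (hM : 0 < M) (𝒵 : Set (Finset (I × Fin M))) (lam : Finset I → ℝ) (α : ℝ)
    (hα : 0 < α) :
    (avgY fun y => ∑ Z : Finset I, lam Z * |hat (ind 𝒵) (sec y Z)|) ^ 2
      ≤ (∑ Z : Finset I, lam Z ^ 2 * ((α * M) ^ Z.card)⁻¹) * mass α 𝒵 := by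
  have hM0 : (0 : ℝ) < M := by exact_mod_cast hM
  set N : ℝ := (M : ℝ) ^ Fintype.card I with hN
  have hN0 : 0 < N := by positivity
  have h1 : (∑ p ∈ (univ : Finset ((I → Fin M) × Finset I)), lam p.2 * |hat (ind 𝒵) (sec p.1 p.2)|) ^ 2
      ≤ (∑ p ∈ (univ : Finset ((I → Fin M) × Finset I)), lam p.2 ^ 2 * ((α * M) ^ p.2.card)⁻¹)
        * ∑ p ∈ (univ : Finset ((I → Fin M) × Finset I)),
          (α * M) ^ p.2.card * hat (ind 𝒵) (sec p.1 p.2) ^ 2 := by
    apply Finset.sum_sq_le_sum_mul_sum_of_sq_le_mul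
    · intro p _; positivity
    · intro p _; positivity
    · intro p _
      rw [mul_pow, sq_abs]
      apply le_of_eq
      field_simp
  simp only [Fintype.sum_prod_type] at h1
  have h2 : ∑ y : I → Fin M, ∑ Z : Finset I, lam Z ^ 2 * ((α * M) ^ Z.card)⁻¹
      = N * ∑ Z : Finset I, lam Z ^ 2 * ((α * M) ^ Z.card)⁻¹ := by
    rw [Finset.sum_const, nsmul_eq_mul, Finset.card_univ, Fintype.card_fun, Fintype.card_fin]
    push_cast
    rfl
  have h3 : ∑ y : I → Fin M, ∑ Z : Finset I, (α * M) ^ Z.card * hat (ind 𝒵) (sec y Z) ^ 2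
      ≤ N * mass α 𝒵 := by
    rw [Finset.sum_comm]
    have := sum_sec_le (M := M) (fun U : Finset (I × Fin M) => α ^ U.card * hat (ind 𝒵) U ^ 2)
      (fun U => by positivity)
    refine le_trans (le_of_eq ?_) this
    refine Finset.sum_congr rfl fun Z _ => Finset.sum_congr rfl fun y _ => ?_
    simp only [card_sec]
    rw [mul_pow]; ring
  have h4 : 0 ≤ ∑ Z : Finset I, lam Z ^ 2 * ((α * M) ^ Z.card)⁻¹ :=
    Finset.sum_nonneg fun Z _ => by positivity
  rw [h2] at h1
  unfold avgY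
  rw [div_pow, div_le_iff₀ (by positivity)]
  calc (∑ y : I → Fin M, ∑ Z : Finset I, lam Z * |hat (ind 𝒵) (sec y Z)|) ^ 2
      ≤ _ := h1
    _ ≤ (N * ∑ Z : Finset I, lam Z ^ 2 * ((α * M) ^ Z.card)⁻¹) * (N * mass α 𝒵) := by
        apply mul_le_mul_of_nonneg_left h3 (by positivity)
    _ = _ := by ring

lemma sum_pow_card (x : ℝ) : ∑ Z : Finset I, x ^ Z.card = (1 + x) ^ Fintype.card I := by
  have h := Finset.prod_one_add (univ : Finset I) (f := fun _ : I => x)
  rw [Finset.powerset_univ] at h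
  simp only [Finset.prod_const, Finset.card_univ] at h
  exact h.symm

lemma one_add_pow_le (n : ℕ) (x : ℝ) (hx : 0 ≤ x) (h : 9 * (n * x) ≤ 1) :
    (1 + x) ^ n ≤ 9 / 8 := by
  rcases Nat.eq_zero_or_pos n with hn | hn
  · subst hn; norm_num
  have hn1 : (1 : ℝ) ≤ n := by exact_mod_cast hn
  have hx1 : x ≤ 1 := by nlinarith
  have h1 : 1 - n * x ≤ (1 - x) ^ n := by
    have := one_add_mul_le_pow (show (-2 : ℝ) ≤ -x by linarith) n
    calc 1 - n * x = 1 + n * (-x) := by ring
      _ ≤ (1 + -x) ^ n := this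
      _ = _ := by ring_nf
  have h2 : (1 + x) ^ n * (1 - x) ^ n ≤ 1 := by
    rw [← mul_pow]
    apply pow_le_one₀ <;> nlinarith
  have h3 : (8 : ℝ) / 9 ≤ 1 - n * x := by linarith
  have h4 : (1 + x) ^ n * (8 / 9) ≤ 1 := by
    calc (1 + x) ^ n * (8 / 9) ≤ (1 + x) ^ n * (1 - x) ^ n :=
          mul_le_mul_of_nonneg_left (h3.trans h1) (by positivity)
      _ ≤ 1 := h2
  linarith

/-- The error term of the accepting state. -/
lemma err_le (hM : 0 < M) (s : ℕ) (hs : 1 ≤ s) (hMs : 81 * (2 * s - 1) * Fintype.card I ≤ M)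
    (𝒵 : Set (Finset (I × Fin M))) (θ : ℝ) (hθ : (1 / 2) ^ s ≤ θ) (hq : avg (ind 𝒵) ≤ θ) :
    (avgY fun y => ∑ Z : Finset I with Z ≠ ∅, 3 ^ Z.card * |hat (ind 𝒵) (sec y Z)|) ≤ θ / 2 := by
  have hθ0 : 0 < θ := lt_of_lt_of_le (by positivity) hθ
  have hM0 : (0 : ℝ) < M := by exact_mod_cast hM
  set K : ℝ := ((2 * s - 1 : ℕ) : ℝ) with hK
  have hK0 : 0 < K := by rw [hK]; exact_mod_cast (show 0 < 2 * s - 1 by omega)
  set lam : Finset I → ℝ := fun Z => if Z ≠ ∅ then 3 ^ Z.card else 0 with hlam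
  have h1 := avgY_hat_sq_le hM 𝒵 lam K⁻¹ (by positivity)
  have h2 : (fun y : I → Fin M => ∑ Z : Finset I with Z ≠ ∅, 3 ^ Z.card * |hat (ind 𝒵) (sec y Z)|)
      = fun y => ∑ Z : Finset I, lam Z * |hat (ind 𝒵) (sec y Z)| := by
    funext y
    rw [Finset.sum_filter]
    refine Finset.sum_congr rfl fun Z _ => ?_
    simp only [hlam]
    split_ifs <;> simp
  rw [h2]
  have h3 : ∑ Z : Finset I, lam Z ^ 2 * ((K⁻¹ * M) ^ Z.card)⁻¹ ≤ 1 / 8 := by
    have e1 : ∀ Z : Finset I, lam Z ^ 2 * ((K⁻¹ * M) ^ Z.card)⁻¹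
        = (9 * K / M) ^ Z.card - (if Z = ∅ then 1 else 0) := by
      intro Z
      simp only [hlam]
      by_cases hZ : Z = ∅
      · simp [hZ]
      · rw [if_pos hZ, if_neg hZ, sub_zero, ← pow_mul, mul_comm Z.card 2, pow_mul, ← inv_pow,
          ← mul_pow]
        congr 1
        field_simp
        norm_num
    simp_rw [e1]
    rw [Finset.sum_sub_distrib, sum_pow_card, Finset.sum_ite_eq']
    simp only [mem_univ, if_true]
    have h4 := one_add_pow_le (Fintype.card I) (9 * K / M) (by positivity) (by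
      have h5 : 81 * K * (Fintype.card I : ℝ) ≤ M := by
        rw [hK]
        calc (81 : ℝ) * ((2 * s - 1 : ℕ) : ℝ) * (Fintype.card I : ℝ)
            = ((81 * (2 * s - 1) * Fintype.card I : ℕ) : ℝ) := by push_cast; ring
          _ ≤ (M : ℝ) := by exact_mod_cast hMs
      rw [← mul_div_assoc, ← mul_div_assoc, div_le_one hM0]
      linarith)
    linarith
  have h4 := mass_le s hs 𝒵 θ hθ hq
  rw [← hK] at h4
  have h5 : (avgY fun y => ∑ Z : Finset I, lam Z * |hat (ind 𝒵) (sec y Z)|) ^ 2 ≤ (θ / 2) ^ 2 := by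
    refine h1.trans ?_
    have h6 : 0 ≤ mass K⁻¹ 𝒵 := by
      unfold mass
      exact Finset.sum_nonneg fun U _ => by positivity
    calc _ ≤ 1 / 8 * mass K⁻¹ 𝒵 := mul_le_mul_of_nonneg_right h3 h6
      _ ≤ 1 / 8 * (2 * θ ^ 2) := by linarith
      _ = _ := by ring
  exact (le_abs_self _).trans (abs_le_of_sq_le_sq h5 (by positivity))

/-- The error term of a state. -/
noncomputable def wt (d D : ℕ) (y : I → Fin M) (𝒵 : Set (Finset (I × Fin M))) : ℝ :=
  ∑ Z : Finset I with D ≤ Z.card, 3 ^ d * |hat (ind 𝒵) (sec y Z)|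

lemma wt_nonneg (d D : ℕ) (y : I → Fin M) (𝒵 : Set (Finset (I × Fin M))) : 0 ≤ wt d D y 𝒵 :=
  Finset.sum_nonneg fun Z _ => by positivity

lemma avgY_wt_le (hM : Fintype.card I ≤ M) (hI : 0 < Fintype.card I) (d D : ℕ)
    (𝒵 : Set (Finset (I × Fin M))) :
    avgY (fun y => wt d D y 𝒵) ^ 2 ≤ 9 ^ d * (3 * ((Fintype.card I : ℝ) / M) ^ D) := by
  have hM1 : 0 < M := lt_of_lt_of_le hI hM
  have hM0 : (0 : ℝ) < M := by exact_mod_cast hM1
  have hI0 : (0 : ℝ) < Fintype.card I := by exact_mod_cast hI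
  set l : ℝ := (Fintype.card I : ℝ) with hl
  have hlM : l / M ≤ 1 := by rw [div_le_one hM0, hl]; exact_mod_cast hM
  set lam : Finset I → ℝ := fun Z => if D ≤ Z.card then 3 ^ d else 0 with hlam
  have h1 := avgY_hat_sq_le hM1 𝒵 lam 1 one_pos
  have h2 : (fun y : I → Fin M => wt d D y 𝒵)
      = fun y => ∑ Z : Finset I, lam Z * |hat (ind 𝒵) (sec y Z)| := by
    funext y
    unfold wt
    rw [Finset.sum_filter]
    refine Finset.sum_congr rfl fun Z _ => ?_
    simp only [hlam]
    split_ifs <;> simp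
  rw [h2]
  refine h1.trans ?_
  have h3 : ∑ Z : Finset I, lam Z ^ 2 * ((1 * (M : ℝ)) ^ Z.card)⁻¹ ≤ 9 ^ d * (3 * (l / M) ^ D) := by
    have h4 : ∀ Z : Finset I, lam Z ^ 2 * ((1 * (M : ℝ)) ^ Z.card)⁻¹
        ≤ 9 ^ d * (l / M) ^ D * (1 / l) ^ Z.card := by
      intro Z
      simp only [hlam]
      split_ifs with hZ
      · have h5 : (l / M) ^ Z.card ≤ (l / M) ^ D :=
          pow_le_pow_of_le_one (by positivity) hlM hZ
        have e1 : ((3 : ℝ) ^ d) ^ 2 = 9 ^ d := by rw [← pow_mul, mul_comm, pow_mul]; norm_num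
        have e2 : ((1 * (M : ℝ)) ^ Z.card)⁻¹ = (l / M) ^ Z.card * (1 / l) ^ Z.card := by
          rw [← mul_pow, one_mul, ← inv_pow]
          congr 1
          field_simp
        rw [e1, e2]
        calc (9 : ℝ) ^ d * ((l / M) ^ Z.card * (1 / l) ^ Z.card)
            ≤ 9 ^ d * ((l / M) ^ D * (1 / l) ^ Z.card) := by gcongr
          _ = _ := by ring
      · rw [zero_pow (by norm_num), zero_mul]; positivity
    refine (Finset.sum_le_sum fun Z _ => h4 Z).trans ?_
    rw [← Finset.mul_sum, sum_pow_card]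
    have h5 : (1 + 1 / l) ^ Fintype.card I ≤ 3 := by
      have h6 : 1 + 1 / l ≤ Real.exp (1 / l) := by
        have := Real.add_one_le_exp (1 / l); linarith
      calc (1 + 1 / l) ^ Fintype.card I ≤ (Real.exp (1 / l)) ^ Fintype.card I := by gcongr
        _ = Real.exp 1 := by
          rw [← Real.exp_nat_mul, ← hl]
          congr 1
          field_simp
        _ ≤ 3 := by have := Real.exp_one_lt_d9; linarith
    calc (9 : ℝ) ^ d * (l / M) ^ D * (1 + 1 / l) ^ Fintype.card I
        ≤ 9 ^ d * (l / M) ^ D * 3 := by gcongr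
      _ = _ := by ring
  have h6 : mass 1 𝒵 ≤ 1 := (mass_one_le 𝒵).trans (avg_ind_le_one 𝒵)
  have h7 : 0 ≤ mass 1 𝒵 := by
    unfold mass
    exact Finset.sum_nonneg fun U _ => by positivity
  have h8 : (0 : ℝ) ≤ 9 ^ d * (3 * (l / M) ^ D) := by positivity
  calc _ ≤ 9 ^ d * (3 * (l / M) ^ D) * mass 1 𝒵 := mul_le_mul_of_nonneg_right h3 h7
    _ ≤ 9 ^ d * (3 * (l / M) ^ D) * 1 := mul_le_mul_of_nonneg_left h6 h8
    _ = _ := mul_one _

end

end Pool.Agent.TeleNeg
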