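import Pool.Agent.TeleNeg.Sect

/-!
# Domination of the probability of a minterm by the probability of a cut, and telescoping
-/

namespace Pool.Agent.TeleNeg

open Finset
open scoped BigOperators

set_option linter.unusedSectionVars false

section

variable {I : Type*} [Fintype I] [DecidableEq I] {M : ℕ}
  {rules : Set (Finset I × Option I)} {d : ℕ} {R : Finset I → Prop}

lemma hat_empty (f : Finset (I × Fin M) → ℝ) : hat f ∅ = avg f := by
  unfold hat
  simp [chi_empty]

open Classical in
/-- **Domination**, general form. If every accepted section can be traced to the accepting set `𝒵`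
of cuts up to an error `W y` with small average, then the probability of acceptance of a section
is at most twice the density of `𝒵`, up to a small error. -/
theorem block_gen (h : Consistent rules d R) (hd : 1 ≤ d) (hI : 0 < Fintype.card I) (s : ℕ)
    (hs : 1 ≤ s) (hMs : 81 * (2 * s - 1) * Fintype.card I ≤ M)
    (𝒵 : Set (Finset (I × Fin M))) (acc : (I → Fin M) → Prop) (W : (I → Fin M) → ℝ)
    (hW0 : ∀ y, 0 ≤ W y)
    (htr : ∀ y, acc y → 1 - avg (fun C => ind 𝒵 C * dens (mom R) d (pull y C)) ≤ W y)
    (ω η : ℝ) (hω : avgY W ≤ ω) (hη : (1 / 2) ^ s / 2 + ω ≤ η) :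
    avgY (fun y => if acc y then (1 : ℝ) else 0) ≤ 2 * avg (ind 𝒵) + 2 * η := by
  have hIM : Fintype.card I ≤ M := by
    refine le_trans ?_ hMs
    have : 1 ≤ 81 * (2 * s - 1) := by omega
    nlinarith
  have hM : 0 < M := lt_of_lt_of_le hI hIM
  set q := avg (ind 𝒵) with hq
  set p := avgY (fun y : I → Fin M => if acc y then (1 : ℝ) else 0) with hp
  have hq0 : 0 ≤ q := avg_nonneg (ind_nonneg 𝒵)
  set θ : ℝ := max q ((1 / 2) ^ s) with hθ
  have hpow0 : (0 : ℝ) < (1 / 2) ^ s := by positivity
  have herr := err_le hM s hs hMs 𝒵 θ (le_max_right _ _) (le_max_left _ _)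
  have key : ∀ y : I → Fin M, (if acc y then (1 : ℝ) else 0) * (1 - q)
      ≤ (∑ Z : Finset I with Z ≠ ∅, 3 ^ Z.card * |hat (ind 𝒵) (sec y Z)|) + W y := by
    intro y
    have hnn : 0 ≤ (∑ Z : Finset I with Z ≠ ∅, 3 ^ Z.card * |hat (ind 𝒵) (sec y Z)|) + W y := by
      have h1 : 0 ≤ ∑ Z : Finset I with Z ≠ ∅, 3 ^ Z.card * |hat (ind 𝒵) (sec y Z)| :=
        Finset.sum_nonneg fun Z _ => by positivity
      linarith [hW0 y]
    split_ifs with hacc
    · have h1 := htr y hacc
      rw [avg_mul_pull y (ind 𝒵) (dens (mom R) d)] at h1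
      have h2 : ∑ Z : Finset I, hat (dens (mom R) d) Z * hat (ind 𝒵) (sec y Z)
          ≤ q + ∑ Z : Finset I with Z ≠ ∅, 3 ^ Z.card * |hat (ind 𝒵) (sec y Z)| := by
        rw [← Finset.sum_filter_add_sum_filter_not univ (fun Z : Finset I => Z = ∅)]
        have e1 : (univ.filter fun Z : Finset I => Z = ∅) = {∅} := by ext Z; simp
        rw [e1, Finset.sum_singleton, sec_empty, hat_empty, ← hq]
        have e2 : hat (dens (mom R) d) ∅ = 1 := by
          unfold hat
          rw [avg_dens_chi, if_pos (by rw [card_empty]; omega), coef_empty]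
          unfold mom
          rw [if_pos h.empty]
        rw [e2, one_mul]
        refine add_le_add le_rfl (Finset.sum_le_sum fun Z _ => ?_)
        refine (le_abs_self _).trans ?_
        rw [abs_mul]
        apply mul_le_mul_of_nonneg_right _ (abs_nonneg _)
        unfold hat
        rw [avg_dens_chi]
        split_ifs
        · exact coef_abs _ (mom_abs R) _
        · rw [abs_zero]; positivity
      rw [one_mul]
      linarith
    · rw [zero_mul]; exact hnn
  have h1 := avgY_mono key
  have h2 : avgY (fun y : I → Fin M => (if acc y then (1 : ℝ) else 0) * (1 - q)) = (1 - q) * p := by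
    rw [hp, ← avgY_smul]
    congr 1
    funext y; ring
  rw [h2, avgY_add] at h1
  have h4 : θ ≤ q + (1 / 2) ^ s := max_le (by linarith) (by linarith)
  have h5 : (1 - q) * p ≤ q / 2 + η := by linarith
  have hp0 : 0 ≤ p := avgY_nonneg fun y => by split_ifs <;> norm_num
  have hp1 : p ≤ 1 := by
    have := avgY_mono (M := M) (f := fun y : I → Fin M => if acc y then (1 : ℝ) else 0)
      (g := fun _ => 1) (fun y => by split_ifs <;> norm_num)
    rwa [avgY_const hM] at this
  have hη0 : 0 ≤ η := by
    have : 0 ≤ avgY W := avgY_nonneg hW0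
    linarith
  by_cases hq2 : q ≤ 1 / 2
  · nlinarith
  · push Not at hq2
    linarith

lemma avgY_wt_le' (hI : 0 < Fintype.card I) (hIM : Fintype.card I ≤ M) (D : ℕ) (β : ℝ)
    (hβ0 : 0 ≤ β) (hβ : 9 ^ d * (3 * ((Fintype.card I : ℝ) / M) ^ D) ≤ β ^ 2)
    (u : Set (Finset (I × Fin M))) : avgY (fun y => wt d D y u) ≤ β := by
  have h1 := (avgY_wt_le hIM hI d D u).trans hβ
  exact (le_abs_self _).trans (abs_le_of_sq_le_sq h1 hβ0)

open Classical in
/-- **Domination.** If every accepted section can be traced to the accepting set `𝒵` of cuts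
through the states `A`, then the probability of acceptance of a section is at most twice the
density of `𝒵`, up to a small error. -/
theorem block (h : Consistent rules d R) (hd : 1 ≤ d) (hI : 0 < Fintype.card I) (s : ℕ)
    (hs : 1 ≤ s) (hMs : 81 * (2 * s - 1) * Fintype.card I ≤ M) (D S : ℕ)
    (𝒵 : Set (Finset (I × Fin M))) (acc : (I → Fin M) → Prop)
    (A : Fin S → Set (Finset (I × Fin M)))
    (htr : ∀ y, acc y → 1 - avg (fun C => ind 𝒵 C * dens (mom R) d (pull y C))
      ≤ 2 * ∑ a, wt d D y (A a))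
    (β η : ℝ) (hβ0 : 0 ≤ β) (hβ : 9 ^ d * (3 * ((Fintype.card I : ℝ) / M) ^ D) ≤ β ^ 2)
    (hη : (1 / 2) ^ s / 2 + 2 * S * β ≤ η) :
    avgY (fun y => if acc y then (1 : ℝ) else 0) ≤ 2 * avg (ind 𝒵) + 2 * η := by
  have hIM : Fintype.card I ≤ M := by
    refine le_trans ?_ hMs
    have : 1 ≤ 81 * (2 * s - 1) := by omega
    nlinarith
  refine block_gen h hd hI s hs hMs 𝒵 acc (fun y => 2 * ∑ a, wt d D y (A a)) ?_ htr
    (2 * S * β) η ?_ hη
  · intro y
    have : 0 ≤ ∑ a, wt d D y (A a) := Finset.sum_nonneg fun a _ => wt_nonneg d D y _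
    linarith
  · rw [avgY_smul, avgY_sum]
    have h3 : ∑ a : Fin S, avgY (fun y => wt d D y (A a)) ≤ S * β := by
      refine (Finset.sum_le_sum fun a _ => avgY_wt_le' hI hIM D β hβ0 hβ (A a)).trans ?_
      rw [Finset.sum_const, nsmul_eq_mul, Finset.card_univ, Fintype.card_fin]
    linarith

end

section

variable {I : Type*} [Fintype I] [DecidableEq I] {M : ℕ} {ι : Type*}
  (E : ℕ → Finset (I × Fin M) → Set ι) (P : ℕ → (I → Fin M) → Set ι)

open Classical in
/-- A property of inputs is dominated if, whatever the input already contains, adding a random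
minterm of a block makes it true with probability at most twice the probability that adding a
random cut graph of this block does, plus `2 η`. -/
def Dominated (η : ℝ) (g : Set ι → Prop) : Prop :=
  ∀ n X, avgY (fun y => if g (X ∪ P n y) then (1 : ℝ) else 0)
    ≤ 2 * avg (ind {C | g (X ∪ E n C)}) + 2 * η

open Classical in
/-- Expected number of blocks at which `g` changes when the minterm of the block is added to the
cut graphs of the blocks before it; the blocks are `n - 1, ..., 1, 0`. -/
noncomputable def Lam (g : Set ι → Prop) : ℕ → Set ι → ℝ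
  | 0, _ => 0
  | n + 1, X => avgY (fun y => if ¬ g X ∧ g (X ∪ P n y) then (1 : ℝ) else 0)
      + avg (fun C => Lam g n (X ∪ E n C))

lemma Lam_eq_zero {g : Set ι → Prop} (hg : ∀ X X', X ⊆ X' → g X → g X') (n : ℕ) :
    ∀ X, g X → Lam E P g n X = 0 := by
  classical
  induction n with
  | zero => intro X _; rfl
  | succ n ih =>
    intro X hX
    unfold Lam
    have h1 : (fun y : I → Fin M => if ¬ g X ∧ g (X ∪ P n y) then (1 : ℝ) else 0)
        = fun _ => 0 := by
      funext y; rw [if_neg fun h => h.1 hX]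
    have h2 : (fun C => Lam E P g n (X ∪ E n C)) = fun _ => 0 := by
      funext C; exact ih _ (hg _ _ Set.subset_union_left hX)
    rw [h1, h2]
    simp [avgY, avg]

lemma Lam_le {g : Set ι → Prop} (hg : ∀ X X', X ⊆ X' → g X → g X') {η : ℝ} (hη : 0 ≤ η)
    (hdom : Dominated E P η g) (n : ℕ) : ∀ X, Lam E P g n X ≤ 2 + 2 * η * n := by
  classical
  induction n with
  | zero => intro X; simp [Lam]
  | succ n ih =>
    intro X
    by_cases hX : g X
    · rw [Lam_eq_zero E P hg _ X hX]; positivity
    · unfold Lam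
      set q := avg (ind {C | g (X ∪ E n C)}) with hq
      have h1 : avgY (fun y : I → Fin M => if ¬ g X ∧ g (X ∪ P n y) then (1 : ℝ) else 0)
          ≤ 2 * q + 2 * η := by
        refine le_trans (avgY_mono fun y => ?_) (hdom n X)
        by_cases h : g (X ∪ P n y)
        · rw [if_pos ⟨hX, h⟩, if_pos h]
        · rw [if_neg fun h' => h h'.2, if_neg h]
      have h2 : avg (fun C => Lam E P g n (X ∪ E n C)) ≤ (1 - q) * (2 + 2 * η * n) := by
        have h3 : ∀ C, Lam E P g n (X ∪ E n C)
            ≤ (2 + 2 * η * n) * (1 - ind {C | g (X ∪ E n C)} C) := by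
          intro C
          unfold ind
          by_cases hC : g (X ∪ E n C)
          · rw [Lam_eq_zero E P hg _ _ hC, if_pos (show C ∈ {C | g (X ∪ E n C)} from hC)]
            simp
          · rw [if_neg (show C ∉ {C | g (X ∪ E n C)} from hC)]
            simpa using ih (X ∪ E n C)
        refine (avg_mono h3).trans (le_of_eq ?_)
        rw [avg_smul, avg_sub, avg_const, ← hq]
        ring
      have hq0 : 0 ≤ q := avg_nonneg (ind_nonneg _)
      have h4 : 0 ≤ q * (2 * η * n) := by positivity
      push_cast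
      linarith

lemma Lam_ge (hM : 0 < M) {J : Type*} [Fintype J] (g : J → Set ι → Prop)
    (Good : ℕ → Set ι → Prop)
    (hflip : ∀ n X, Good (n + 1) X → ∀ y, ∃ j, ¬ g j X ∧ g j (X ∪ P n y))
    (hgood : ∀ n X, Good (n + 1) X → ∀ C, Good n (X ∪ E n C)) (n : ℕ) :
    ∀ X, Good n X → (n : ℝ) ≤ ∑ j, Lam E P (g j) n X := by
  classical
  induction n with
  | zero => intro X _; simp [Lam]
  | succ n ih =>
    intro X hX
    have h1 : ∑ j, Lam E P (g j) (n + 1) X
        = avgY (fun y => ∑ j, if ¬ g j X ∧ g j (X ∪ P n y) then (1 : ℝ) else 0)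
          + avg (fun C => ∑ j, Lam E P (g j) n (X ∪ E n C)) := by
      rw [avgY_sum, avg_sum, ← Finset.sum_add_distrib]
      rfl
    rw [h1]
    have h2 : (1 : ℝ) ≤ avgY (fun y => ∑ j, if ¬ g j X ∧ g j (X ∪ P n y) then (1 : ℝ) else 0) := by
      refine le_trans (le_of_eq (avgY_const (I := I) hM 1).symm) (avgY_mono fun y => ?_)
      obtain ⟨j, hj⟩ := hflip n X hX y
      have := Finset.single_le_sum (f := fun j => if ¬ g j X ∧ g j (X ∪ P n y) then (1 : ℝ) else 0)
        (fun i _ => by positivity) (mem_univ j)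
      rw [if_pos hj] at this
      exact this
    have h3 : (n : ℝ) ≤ avg (fun C => ∑ j, Lam E P (g j) n (X ∪ E n C)) := by
      refine le_trans (le_of_eq (avg_const (V := I × Fin M) (n : ℝ)).symm) ?_
      exact avg_mono fun C => ih _ (hgood n X hX C)
    push_cast
    linarith

/-- **Telescoping.** If finitely many dominated monotone functions notice every flip, then there
are many of them. -/
theorem tele (hM : 0 < M) {J : Type*} [Fintype J] (g : J → Set ι → Prop)
    (hg : ∀ j X X', X ⊆ X' → g j X → g j X') {η : ℝ} (hη : 0 ≤ η)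
    (hdom : ∀ j, Dominated E P η (g j)) (Good : ℕ → Set ι → Prop)
    (hflip : ∀ n X, Good (n + 1) X → ∀ y, ∃ j, ¬ g j X ∧ g j (X ∪ P n y))
    (hgood : ∀ n X, Good (n + 1) X → ∀ C, Good n (X ∪ E n C)) (r : ℕ) (X : Set ι)
    (hX : Good r X) : (r : ℝ) ≤ Fintype.card J * (2 + 2 * η * r) := by
  refine (Lam_ge E P hM g Good hflip hgood r X hX).trans ?_
  refine (Finset.sum_le_sum fun j _ => Lam_le E P (hg j) hη (hdom j) r X).trans ?_
  rw [Finset.sum_const, nsmul_eq_mul, Finset.card_univ]

end

end Pool.Agent.TeleNeg
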